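import Mathlib

/-!
Real algebra behind the circle-ellipse problem (MP_4e5648_mp, Q2).
`κ = k² = 1 - c²`.
-/

namespace Pool.Agent.H13R2.Kep

/-- the real part of `u b v̄` on the lower half of the imaginary axis -/
def RR (β γ κ C : ℝ) : ℝ :=
  β ^ 2 * (1 - κ) * C * (C - γ) + (C ^ 2 - 1) * (κ * C - γ) * ((β ^ 2 + γ ^ 2) * C - γ)

/-- the imaginary part of `u b v̄` on the lower half of the imaginary axis, up to a factor -/
def II (β γ κ C : ℝ) : ℝ :=
  (γ - κ * C) * (C - γ) + (1 - κ) * C * ((β ^ 2 + γ ^ 2) * C - γ)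

lemma RR_pos_of_II_zero {β γ κ C : ℝ} (hβ : 0 < β) (hγ1 : γ < 1) (hκ1 : κ < 1) (hC : 1 < C)
    (h : II β γ κ C = 0) : 0 < RR β γ κ C := by
  unfold II at h
  unfold RR
  have h1 : 0 < C - γ := by linarith
  have h2 : 0 < 1 - κ := by linarith
  have h3 : (C - γ) * ((κ * C - γ) * ((β ^ 2 + γ ^ 2) * C - γ))
      = (1 - κ) * C * ((β ^ 2 + γ ^ 2) * C - γ) ^ 2 := by
    linear_combination (-((β ^ 2 + γ ^ 2) * C - γ)) * h
  have h4 : 0 ≤ (κ * C - γ) * ((β ^ 2 + γ ^ 2) * C - γ) := by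
    by_contra hneg
    push Not at hneg
    have : (C - γ) * ((κ * C - γ) * ((β ^ 2 + γ ^ 2) * C - γ)) < 0 := mul_neg_of_pos_of_neg h1 hneg
    rw [h3] at this
    have h5 : 0 ≤ (1 - κ) * C * ((β ^ 2 + γ ^ 2) * C - γ) ^ 2 := by positivity
    linarith
  have h6 : 0 < β ^ 2 * (1 - κ) * C * (C - γ) := by positivity
  have h7 : 0 ≤ C ^ 2 - 1 := by nlinarith
  have h8 := mul_nonneg h7 h4
  nlinarith

/-- the quartic in the variable `τ = k C` -/
lemma HH_pos {b g κ τ : ℝ} (hb : 0 < b) (hg : 1 < g) (hκ : 0 < κ) (hκ1 : κ < 1) (hτ : 1 < τ)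
    (h0 : 0 ≤ b * (2 - g - g * κ) - g * κ * (g - 1) ^ 2) :
    0 < b * (1 - κ) * τ * (τ - g * κ) + (τ ^ 2 - κ) * (τ - g) * ((b + g ^ 2 * κ) * τ - g * κ) := by
  obtain ⟨s, rfl⟩ : ∃ s, τ = 1 + s := ⟨τ - 1, by ring⟩
  have hs : 0 < s := by linarith
  have hgk : 0 < g * κ := by positivity
  have e0 : 0 < 2 - g - g * κ := by
    by_contra hneg
    push Not at hneg
    have h1 : b * (2 - g - g * κ) ≤ 0 := mul_nonpos_of_nonneg_of_nonpos hb.le hneg
    have h2 : 0 < g * κ * (g - 1) ^ 2 := by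
      have : 0 < (g - 1) ^ 2 := by
        have : g - 1 ≠ 0 := by linarith
        positivity
      positivity
    linarith
  set h0' := b * (2 - g - g * κ) - g * κ * (g - 1) ^ 2 with hh0
  have key : b * (1 - κ) * (1 + s) * (1 + s - g * κ)
      + ((1 + s) ^ 2 - κ) * (1 + s - g) * ((b + g ^ 2 * κ) * (1 + s) - g * κ)
      = (1 - κ) * h0' + (3 * ((1 - κ) * h0') + 2 * κ * (h0' + b * (g - 1))) * s
        + (b * (7 - 3 * g - 2 * κ) + g * κ * (7 * g - 3 - 3 * g ^ 2 - g * κ)) * s ^ 2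
        + (b * (4 - g) + g * κ * (4 * g - 1 - g ^ 2)) * s ^ 3 + (b + g ^ 2 * κ) * s ^ 4 := by
    rw [hh0]; ring
  rw [key]
  have c0 : 0 ≤ (1 - κ) * h0' := mul_nonneg (by linarith) h0
  have c1 : 0 ≤ 3 * ((1 - κ) * h0') + 2 * κ * (h0' + b * (g - 1)) := by
    have : 0 ≤ b * (g - 1) := mul_nonneg hb.le (by linarith)
    positivity
  have c3 : 0 ≤ b * (4 - g) + g * κ * (4 * g - 1 - g ^ 2) := by
    have h1 : 0 ≤ 4 - g := by nlinarith
    have h2 : 0 ≤ 4 * g - 1 - g ^ 2 := by nlinarith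
    positivity
  have c2 : 0 ≤ b * (7 - 3 * g - 2 * κ) + g * κ * (7 * g - 3 - 3 * g ^ 2 - g * κ) := by
    -- multiply by `2 - g - g κ > 0`
    have hA : 0 ≤ 7 - 3 * g - 2 * κ := by
      have h1 : g * (1 + κ) < 2 := by linarith
      -- (1+κ)(7 - 3g - 2κ) > 7 + 7κ - 6 - 2κ - 2κ² = 1 + 5κ - 2κ² > 0
      by_contra hneg
      push Not at hneg
      nlinarith
    have hT : (2 - g - g * κ) * (b * (7 - 3 * g - 2 * κ) + g * κ * (7 * g - 3 - 3 * g ^ 2 - g * κ))
        = h0' * (7 - 3 * g - 2 * κ)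
          + g * κ * ((1 - g * κ) ^ 2 + κ * (g - 1) ^ 2 * (3 * g - 2)) := by
      rw [hh0]; ring
    have h3 : 0 ≤ (1 - g * κ) ^ 2 + κ * (g - 1) ^ 2 * (3 * g - 2) := by
      have : 0 ≤ 3 * g - 2 := by linarith
      positivity
    have h4 : 0 ≤ (2 - g - g * κ) *
        (b * (7 - 3 * g - 2 * κ) + g * κ * (7 * g - 3 - 3 * g ^ 2 - g * κ)) := by
      rw [hT]; positivity
    exact nonneg_of_mul_nonneg_right h4 e0
  have c4 : 0 < (b + g ^ 2 * κ) * s ^ 4 := by positivity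
  have := mul_nonneg c1 hs.le
  have := mul_nonneg c2 (pow_pos hs 2).le
  have := mul_nonneg c3 (pow_pos hs 3).le
  linarith

open Polynomial in
/-- a quartic with five distinct roots has vanishing leading coefficient -/
lemma quartic_five_roots {A4 A3 A2 A1 A0 : ℝ} {r : Fin 5 → ℝ} (hr : Function.Injective r)
    (h : ∀ i, A4 * r i ^ 4 + A3 * r i ^ 3 + A2 * r i ^ 2 + A1 * r i + A0 = 0) : A4 = 0 := by
  by_contra h4
  let p : ℝ[X] := C A4 * X ^ 4 + C A3 * X ^ 3 + C A2 * X ^ 2 + C A1 * X + C A0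
  have hdeg : p.natDegree ≤ 4 := by
    simp only [p]; compute_degree
  have hp : p ≠ 0 := by
    intro h0
    have : p.coeff 4 = A4 := by
      simp [p]
    rw [h0] at this
    simp at this
    exact h4 this.symm
  have hsub : (Finset.univ.image r) ⊆ p.roots.toFinset := by
    intro x hx
    obtain ⟨i, -, rfl⟩ := Finset.mem_image.1 hx
    rw [Multiset.mem_toFinset, mem_roots hp]
    simp only [p, IsRoot.def, eval_add, eval_mul, eval_C, eval_pow, eval_X]
    exact h i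
  have h1 := Finset.card_le_card hsub
  rw [Finset.card_image_of_injective _ hr] at h1
  have h2 : p.roots.toFinset.card ≤ p.roots.card := Multiset.toFinset_card_le _
  have h3 := p.card_roots'
  simp at h1
  omega

/-- uniqueness of the bad parameter -/
lemma bad_unique {β γ κ : ℝ} (hβ : 0 < β) (hγ : 0 < γ) (he : β ^ 2 + γ ^ 2 < 1) (hκ : 0 < κ)
    (hκ1 : κ < 1) {C₁ C₂ : ℝ} (h1 : 1 < C₁) (h2 : 1 < C₂) (k1 : 1 < κ * C₁ ^ 2)
    (k2 : 1 < κ * C₂ ^ 2) (R1 : RR β γ κ C₁ = 0) (R2 : RR β γ κ C₂ = 0)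
    (I1 : 0 < II β γ κ C₁) (I2 : 0 < II β γ κ C₂) : C₁ = C₂ := by
  by_contra hne
  have hγ1 : γ < 1 := by nlinarith
  -- `κ C < γ`
  have step : ∀ C : ℝ, 1 < C → 1 < κ * C ^ 2 → RR β γ κ C = 0 → 0 < II β γ κ C → κ * C < γ := by
    intro C hC hk hR hI
    unfold RR at hR
    unfold II at hI
    by_contra hcon
    push Not at hcon
    have a1 : 0 < C - γ := by linarith
    have a2 : 0 < β ^ 2 * (1 - κ) * C * (C - γ) := by
      have : 0 < 1 - κ := by linarith
      positivity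
    have a3 : 0 ≤ C ^ 2 - 1 := by nlinarith
    have a4 : (β ^ 2 + γ ^ 2) * C - γ < 0 := by
      by_contra hc2
      push Not at hc2
      have : 0 ≤ (C ^ 2 - 1) * (κ * C - γ) * ((β ^ 2 + γ ^ 2) * C - γ) :=
        mul_nonneg (mul_nonneg a3 (by linarith)) hc2
      linarith
    have a5 : (γ - κ * C) * (C - γ) ≤ 0 := mul_nonpos_of_nonpos_of_nonneg (by linarith) a1.le
    have a6 : (1 - κ) * C * ((β ^ 2 + γ ^ 2) * C - γ) < 0 :=
      mul_neg_of_pos_of_neg (by have : 0 < 1 - κ := by linarith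
                                positivity) a4
    linarith
  have s1 := step C₁ h1 k1 R1 I1
  set k := Real.sqrt κ with hk
  have hk2 : k ^ 2 = κ := Real.sq_sqrt hκ.le
  have hkpos : 0 < k := Real.sqrt_pos.2 hκ
  have hk1 : k < 1 := by nlinarith
  have hkC : ∀ C : ℝ, 1 < C → 1 < κ * C ^ 2 → 1 < k * C := by
    intro C hC hh
    rw [← hk2] at hh
    by_contra hcon
    push Not at hcon
    have : (k * C) ^ 2 ≤ 1 := by
      have : 0 ≤ k * C := by positivity
      nlinarith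
    nlinarith
  have t1 := hkC C₁ h1 k1
  have t2 := hkC C₂ h2 k2
  have hγk : k < γ := by
    have : k < κ * C₁ := by rw [← hk2]; nlinarith
    linarith
  set g := γ / k with hgdef
  have hgk : γ = g * k := by rw [hgdef]; field_simp
  have hg1 : 1 < g := by rw [hgdef, lt_div_iff₀ hkpos]; linarith
  -- relation between RR and the quartic in τ
  have hrel : ∀ τ : ℝ, κ * RR β γ κ (τ / k) = β ^ 2 * (1 - κ) * τ * (τ - g * κ)
      + (τ ^ 2 - κ) * (τ - g) * ((β ^ 2 + g ^ 2 * κ) * τ - g * κ) := by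
    intro τ
    unfold RR
    rw [hgk, ← hk2]
    field_simp
  by_cases hcase : 0 ≤ β ^ 2 * (2 - g - g * κ) - g * κ * (g - 1) ^ 2
  · have hpos := HH_pos (b := β ^ 2) (by positivity) hg1 hκ hκ1 t1 hcase
    have e1 : k * C₁ / k = C₁ := by field_simp
    rw [← hrel, e1, R1, mul_zero] at hpos
    exact lt_irrefl _ hpos
  · push Not at hcase
    have hneg : RR β γ κ (1 / k) < 0 := by
      have := hrel 1
      have h3 : κ * RR β γ κ (1 / k) < 0 := by
        rw [this]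
        have : β ^ 2 * (1 - κ) * 1 * (1 - g * κ)
          + (1 ^ 2 - κ) * (1 - g) * ((β ^ 2 + g ^ 2 * κ) * 1 - g * κ)
          = (1 - κ) * (β ^ 2 * (2 - g - g * κ) - g * κ * (g - 1) ^ 2) := by ring
        rw [this]
        exact mul_neg_of_pos_of_neg (by linarith) hcase
      by_contra hc
      push Not at hc
      have := mul_nonneg hκ.le hc
      linarith
    have hcont : Continuous (RR β γ κ) := by unfold RR; fun_prop
    have v0 : RR β γ κ 0 < 0 := by unfold RR; nlinarith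
    have vm : 0 < RR β γ κ (-1) := by
      unfold RR
      have : 0 < β ^ 2 * (1 - κ) * (1 + γ) := by
        have : 0 < 1 - κ := by linarith
        positivity
      nlinarith
    have v1 : 0 < RR β γ κ 1 := by
      unfold RR
      have : 0 < β ^ 2 * (1 - κ) * (1 - γ) := by
        have : 0 < 1 - κ := by linarith
        have : 0 < 1 - γ := by linarith
        positivity
      nlinarith
    have vγ : RR β γ κ γ < 0 := by
      unfold RR
      have e1 : 0 < 1 - γ ^ 2 := by nlinarith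
      have e2 : 0 < 1 - κ := by linarith
      have e3 : 0 < 1 - (β ^ 2 + γ ^ 2) := by linarith
      have : 0 < γ ^ 2 * (1 - γ ^ 2) * (1 - κ) * (1 - (β ^ 2 + γ ^ 2)) := by positivity
      nlinarith
    have h1k : 1 < 1 / k := by rw [lt_div_iff₀ hkpos]; linarith
    obtain ⟨r1, hr1, hr1'⟩ := intermediate_value_Ioo' (by norm_num : (-1:ℝ) ≤ 0)
      hcont.continuousOn (show (0:ℝ) ∈ Set.Ioo (RR β γ κ 0) (RR β γ κ (-1)) from ⟨v0, vm⟩)
    obtain ⟨r2, hr2, hr2'⟩ := intermediate_value_Ioo hγ1.le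
      hcont.continuousOn (show (0:ℝ) ∈ Set.Ioo (RR β γ κ γ) (RR β γ κ 1) from ⟨vγ, v1⟩)
    obtain ⟨r3, hr3, hr3'⟩ := intermediate_value_Ioo' h1k.le
      hcont.continuousOn (show (0:ℝ) ∈ Set.Ioo (RR β γ κ (1 / k)) (RR β γ κ 1) from ⟨hneg, v1⟩)
    have q1 : 1 / k < C₁ := by rw [div_lt_iff₀ hkpos]; linarith
    have q2 : 1 / k < C₂ := by rw [div_lt_iff₀ hkpos]; linarith
    have hA4 : ∀ D₁ D₂ : ℝ, 1 / k < D₁ → D₁ < D₂ → RR β γ κ D₁ = 0 → RR β γ κ D₂ = 0 →
        κ * (β ^ 2 + γ ^ 2) = 0 := by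
      intro D₁ D₂ hD1 hD2 RD1 RD2
      refine quartic_five_roots (A3 := -(γ * (κ + (β ^ 2 + γ ^ 2))))
        (A2 := γ ^ 2 - κ * (β ^ 2 + γ ^ 2) + β ^ 2 * (1 - κ))
        (A1 := γ * (κ + (β ^ 2 + γ ^ 2)) - β ^ 2 * (1 - κ) * γ) (A0 := - γ ^ 2)
        (r := ![r1, r2, r3, D₁, D₂]) ?_ ?_
      · simp only [Set.mem_Ioo] at hr1 hr2 hr3
        apply StrictMono.injective
        rw [Fin.strictMono_iff_lt_succ]
        intro i
        fin_cases i
        · show r1 < r2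
          linarith
        · show r2 < r3
          linarith
        · show r3 < D₁
          linarith
        · show D₁ < D₂
          exact hD2
      · have expand : ∀ x, RR β γ κ x = κ * (β ^ 2 + γ ^ 2) * x ^ 4
            + -(γ * (κ + (β ^ 2 + γ ^ 2))) * x ^ 3
            + (γ ^ 2 - κ * (β ^ 2 + γ ^ 2) + β ^ 2 * (1 - κ)) * x ^ 2
            + (γ * (κ + (β ^ 2 + γ ^ 2)) - β ^ 2 * (1 - κ) * γ) * x + - γ ^ 2 := by
          intro x; unfold RR; ring
        intro i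
        rw [← expand]
        fin_cases i
        · exact hr1'
        · exact hr2'
        · exact hr3'
        · exact RD1
        · exact RD2
    have hpos : 0 < κ * (β ^ 2 + γ ^ 2) := by positivity
    rcases lt_or_gt_of_ne hne with hlt | hlt
    · have := hA4 C₁ C₂ q1 hlt R1 R2
      linarith
    · have := hA4 C₂ C₁ q2 hlt R2 R1
      linarith

end Pool.Agent.H13R2.Kep
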