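import Mathlib
import Pool.Agent.H13R2.Kep.Alg

namespace Pool.Agent.H13R2.Kep

/-- `u` is positive on the unit circle -/
lemma u_pos {β γ X Y : ℝ} (he : β ^ 2 + γ ^ 2 < 1) (hc : X ^ 2 + Y ^ 2 = 1) :
    0 < 1 + β * X + γ * Y := by
  have h1 : (β * X + γ * Y) ^ 2 ≤ (β ^ 2 + γ ^ 2) * (X ^ 2 + Y ^ 2) := by
    nlinarith [sq_nonneg (β * Y - γ * X)]
  rw [hc] at h1
  have h2 : (β * X + γ * Y) ^ 2 < 1 := by linarith
  nlinarith

/-- the part `v ≥ 0`, `x, y > 0` -/
lemma b_pos_of_v_nonneg {β γ κ x y : ℝ} (hβ : 0 < β) (hγ : 0 < γ) (hκ : 0 < κ)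
    (hκ1 : κ < 1) (hx : 0 < x) (hy : 0 < y) (hc : x ^ 2 + y ^ 2 = 1)
    (hu : 0 < 1 - β * x - γ * y) (hv : 0 ≤ β * y - γ * x) :
    0 < -(γ * x) + (1 - κ) * β * y + κ * x * y := by
  have hb : -(γ * x) + (1 - κ) * β * y + κ * x * y = (β * y - γ * x) + κ * y * (x - β) := by ring
  rw [hb]
  rcases lt_trichotomy x β with hlt | heq | hgt
  · -- y * v > β - x ≥ ...
    have h1 : β - x < y * (β * y - γ * x) := by
      have : y * (β * y - γ * x) = (β - x) + x * (1 - β * x - γ * y) + (β * (x ^ 2 + y ^ 2 - 1)) := by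
        ring
      rw [this, hc]
      nlinarith [mul_pos hx hu]
    have hy1 : y < 1 := by nlinarith
    have h2 : κ * y * (β - x) < (β * y - γ * x) := by
      have h3 : κ * y * (β - x) * y < (β * y - γ * x) * y := by
        have h4 : κ * y * (β - x) * y ≤ β - x := by
          have : κ * y * y ≤ 1 := by nlinarith [mul_pos hκ hy, mul_pos (mul_pos hκ hy) hy]
          nlinarith
        nlinarith
      exact lt_of_mul_lt_mul_right h3 hy.le
    linarith
  · subst heq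
    have h1 : 0 < x * y - γ * x := by
      have : y * (x * y - γ * x) = x * (1 - x * x - γ * y) + (x * (x ^ 2 + y ^ 2 - 1)) := by
        ring
      have h2 : 0 < y * (x * y - γ * x) := by
        rw [this, hc]
        nlinarith [mul_pos hx hu]
      exact (mul_pos_iff_of_pos_left hy).1 h2
    linarith
  · have : 0 < κ * y * (x - β) := by
      have : 0 < x - β := by linarith
      positivity
    linarith

lemma circ_sign {β γ κ ω μ X Y : ℝ} (hβ : 0 < β) (hγ : 0 < γ) (he : β ^ 2 + γ ^ 2 < 1)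
    (hκ : 0 < κ) (hκ1 : κ < 1) (hω : 0 < ω) (hμ : 0 < μ) (hX : X ≤ 0) (hc : X ^ 2 + Y ^ 2 = 1)
    (h : μ * (γ * X - β * Y) * ω
      + (1 + β * X + γ * Y) * (γ * X - (1 - κ) * β * Y + κ * X * Y) = 0) :
    X < 0 ∧ Y < 0 ∧ γ * X - β * Y < 0 ∧ 0 < γ * X - (1 - κ) * β * Y + κ * X * Y := by
  have hu := u_pos he hc
  have hκ' : 0 < 1 - κ := by linarith
  have hY : Y < 0 := by
    by_contra hcon
    push Not at hcon
    have hv : γ * X - β * Y < 0 := by
      rcases hX.lt_or_eq with h1 | h1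
      · nlinarith [mul_pos hγ (neg_pos.2 h1), mul_nonneg hβ.le hcon]
      · subst h1
        have : 0 < Y := by
          rcases hcon.lt_or_eq with h2 | h2
          · exact h2
          · rw [← h2] at hc; norm_num at hc
        nlinarith [mul_pos hβ this]
    have hb : γ * X - (1 - κ) * β * Y + κ * X * Y ≤ 0 := by
      have h1 : γ * X ≤ 0 := mul_nonpos_of_nonneg_of_nonpos hγ.le hX
      have h2 : 0 ≤ (1 - κ) * β * Y := by positivity
      have h3 : κ * X * Y ≤ 0 :=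
        mul_nonpos_of_nonpos_of_nonneg (mul_nonpos_of_nonneg_of_nonpos hκ.le hX) hcon
      linarith
    have h1 : μ * (γ * X - β * Y) * ω < 0 := by
      have := mul_pos (mul_pos hμ (neg_pos.2 hv)) hω
      linarith
    have h2 := mul_nonpos_of_nonneg_of_nonpos hu.le hb
    linarith
  have hX' : X < 0 := by
    rcases hX.lt_or_eq with h1 | h1
    · exact h1
    · exfalso
      subst h1
      have h1 : 0 < μ * (γ * 0 - β * Y) * ω := by
        have : 0 < γ * 0 - β * Y := by nlinarith [mul_pos hβ (neg_pos.2 hY)]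
        positivity
      have h2 : 0 < γ * 0 - (1 - κ) * β * Y + κ * 0 * Y := by
        nlinarith [mul_pos (mul_pos hκ' hβ) (neg_pos.2 hY)]
      have h3 := mul_pos hu h2
      linarith
  have hv : γ * X - β * Y < 0 := by
    by_contra hcon
    push Not at hcon
    have hb := b_pos_of_v_nonneg (x := -X) (y := -Y) hβ hγ hκ hκ1 (by linarith) (by linarith)
      (by nlinarith) (by linarith) (by linarith)
    have h1 : 0 ≤ μ * (γ * X - β * Y) * ω := by positivity
    have h2 : 0 < (1 + β * X + γ * Y) * (γ * X - (1 - κ) * β * Y + κ * X * Y) := by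
      apply mul_pos hu
      nlinarith
    linarith
  refine ⟨hX', hY, hv, ?_⟩
  by_contra hcon
  push Not at hcon
  have h1 : μ * (γ * X - β * Y) * ω < 0 := by
    have := mul_pos (mul_pos hμ (neg_pos.2 hv)) hω
    linarith
  have h2 := mul_nonpos_of_nonneg_of_nonpos hu.le hcon
  linarith

/-- the derivative is nonzero -/
lemma N_neg {β γ κ X Y : ℝ} (hβ : 0 < β) (hκ : 0 < κ) (hκ1 : κ < 1)
    (hX : X < 0) (hY : Y < 0) (hc : X ^ 2 + Y ^ 2 = 1) (hu : 0 < 1 + β * X + γ * Y)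
    (hv : γ * X - β * Y < 0) (hb : 0 < γ * X - (1 - κ) * β * Y + κ * X * Y) :
    ((1 + β * X + γ * Y) ^ 2 + (γ * X - β * Y) ^ 2) * (X ^ 2 + (1 - κ) * Y ^ 2)
        * (γ * X - (1 - κ) * β * Y + κ * X * Y)
      - (1 - κ) * (1 + β * X + γ * Y) ^ 2 * (γ * X - β * Y)
      - κ * X * Y * (1 + β * X + γ * Y) ^ 2 * (X ^ 2 + (1 - κ) * Y ^ 2) < 0 := by
  obtain ⟨x, rfl⟩ : ∃ x, X = -x := ⟨-X, by ring⟩
  obtain ⟨y, rfl⟩ : ∃ y, Y = -y := ⟨-Y, by ring⟩
  have hx : 0 < x := by linarith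
  have hy : 0 < y := by linarith
  have hc' : x ^ 2 + y ^ 2 = 1 := by linarith [hc, neg_sq x, neg_sq y]
  -- introduce q and A
  obtain ⟨q, hq⟩ : ∃ q, β = x * (1 - q) := ⟨1 - β / x, by field_simp; ring⟩
  obtain ⟨A, hA⟩ : ∃ A, γ = y * (A + 1 - q) := ⟨γ / y - 1 + q, by field_simp; ring⟩
  have hq1 : 0 < 1 - q := by
    rw [hq] at hβ
    exact (mul_pos_iff_of_pos_left hx).1 hβ
  have hx2 : x ^ 2 = 1 - y ^ 2 := by linarith
  have hvA : γ * -x - β * -y = -(x * y * A) := by rw [hq, hA]; ring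
  have hA0 : 0 < A := by
    rw [hvA] at hv
    have : 0 < x * y * A := by linarith
    exact (mul_pos_iff_of_pos_left (by positivity : 0 < x * y)).1 this
  have hbA : γ * -x - (1 - κ) * β * -y + κ * -x * -y = x * y * (κ * q - A) := by
    rw [hq, hA]; ring
  have hB : 0 < κ * q - A := by
    rw [hbA] at hb
    exact (mul_pos_iff_of_pos_left (by positivity : 0 < x * y)).1 hb
  have huA : 1 + β * -x + γ * -y = q - y ^ 2 * A := by
    rw [hq, hA]
    linear_combination (-(1 - q)) * hc'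
  rw [hvA, hbA, huA]
  have hq0 : 0 < q := by
    by_contra hcon
    push Not at hcon
    nlinarith [mul_nonneg hκ.le (neg_nonneg.2 hcon)]
  have hw : (-x) ^ 2 + (1 - κ) * (-y) ^ 2 = 1 - κ * y ^ 2 := by
    linear_combination hc'
  rw [hw]
  rw [huA] at hu
  set u := q - y ^ 2 * A with hudef
  have hy1 : y ^ 2 < 1 := by nlinarith
  have hw0 : 0 < 1 - κ * y ^ 2 := by nlinarith [sq_nonneg y]
  have hu1 : q * (1 - κ * y ^ 2) < u := by
    rw [hudef]
    nlinarith [mul_pos (pow_pos hy 2) hB]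
  -- the main inequality
  have hm : 0 < κ * u * q - y ^ 2 * A * (κ * q - A) := by
    have : κ * u * q - y ^ 2 * A * (κ * q - A)
        = (y * A - κ * q * y) ^ 2 + κ * q ^ 2 * (1 - κ * y ^ 2) := by
      rw [hudef]; ring
    rw [this]
    positivity
  have hm2 : 0 < κ * u ^ 2 - y ^ 2 * A * (1 - κ * y ^ 2) * (κ * q - A) := by
    have h1 : κ * u * (q * (1 - κ * y ^ 2)) ≤ κ * u * u :=
      mul_le_mul_of_nonneg_left hu1.le (by positivity)
    have h2 := mul_pos hw0 hm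
    nlinarith
  have hm3 : 0 < x ^ 2 * A * (κ * u ^ 2 - y ^ 2 * A * (1 - κ * y ^ 2) * (κ * q - A)) := by
    positivity
  have hm4 : 0 < u ^ 2 * (1 - κ * y ^ 2) * κ * (1 - q) := by positivity
  have hfin : (u ^ 2 + (-(x * y * A)) ^ 2) * (1 - κ * y ^ 2) * (x * y * (κ * q - A))
      - (1 - κ) * u ^ 2 * -(x * y * A) - κ * -x * -y * u ^ 2 * (1 - κ * y ^ 2)
      = -(x * y) * (u ^ 2 * (1 - κ * y ^ 2) * κ * (1 - q)
        + x ^ 2 * A * (κ * u ^ 2 - y ^ 2 * A * (1 - κ * y ^ 2) * (κ * q - A))) := by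
    linear_combination (x * y * u ^ 2 * A * κ) * hc'
  rw [hfin]
  have : 0 < x * y * (u ^ 2 * (1 - κ * y ^ 2) * κ * (1 - q)
        + x ^ 2 * A * (κ * u ^ 2 - y ^ 2 * A * (1 - κ * y ^ 2) * (κ * q - A))) := by
    positivity
  linarith

end Pool.Agent.H13R2.Kep
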