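import Mathlib
import Pool.Agent.H13R2.Kep.Alg
import Pool.Agent.H13R2.Kep.Circ

namespace Pool.Agent.H13R2.Kep

open Complex

/-- `z x` -/
noncomputable def x1 (z : ℂ) : ℂ := (z ^ 2 + 1) / 2
/-- `z y` -/
noncomputable def y1 (z : ℂ) : ℂ := -I * (z ^ 2 - 1) / 2
/-- `z u` -/
noncomputable def u1 (β γ : ℝ) (z : ℂ) : ℂ := z + β * x1 z + γ * y1 z
/-- `z v` -/
noncomputable def v1 (β γ : ℝ) (z : ℂ) : ℂ := γ * x1 z - β * y1 z
/-- `z² b` -/
noncomputable def b1 (β γ κ : ℝ) (z : ℂ) : ℂ :=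
  z * (γ * x1 z - (1 - κ) * β * y1 z) + κ * x1 z * y1 z
/-- `z² q` -/
noncomputable def q1 (κ : ℝ) (z : ℂ) : ℂ := x1 z ^ 2 + (1 - κ) * y1 z ^ 2

/-- the left half disc -/
def Om : Set ℂ := {z | ‖z‖ < 1 ∧ z.re < 0}

lemma Om_eq : Om = Metric.ball 0 1 ∩ {z | z.re < 0} := by
  ext z; simp [Om]

lemma isOpen_Om : IsOpen Om := by
  rw [Om_eq]
  exact Metric.isOpen_ball.inter (isOpen_lt continuous_re continuous_const)

lemma convex_Om : Convex ℝ Om := by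
  rw [Om_eq]
  refine (convex_ball 0 1).inter ?_
  exact (convex_Iio 0).linear_preimage reLm

lemma isPreconnected_Om : IsPreconnected Om := convex_Om.isPreconnected

lemma ne_zero_of_Om {z : ℂ} (hz : z ∈ Om) : z ≠ 0 := by
  rintro rfl
  have := hz.2
  simp at this

lemma q1_div {κ : ℝ} {z : ℂ} (hz : z ≠ 0) :
    q1 κ z / z ^ 2 = (κ / 4 : ℝ) * (z ^ 2 + z⁻¹ ^ 2) + ((2 - κ) / 2 : ℝ) := by
  unfold q1 x1 y1
  field_simp
  push_cast
  ring_nf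
  rw [I_sq]
  ring

lemma q_im {κ : ℝ} {z : ℂ} (hz : z ≠ 0) :
    (q1 κ z / z ^ 2).im = κ / 2 * (z.re * z.im) * (1 - (normSq z)⁻¹ ^ 2) := by
  rw [q1_div hz]
  have hn : normSq z ≠ 0 := by simpa using hz
  simp only [add_im, add_re, mul_im, mul_re, ofReal_re, ofReal_im, pow_two, inv_re, inv_im]
  field_simp
  ring

lemma q_re {κ : ℝ} {z : ℂ} (hz : z ≠ 0) :
    (q1 κ z / z ^ 2).re = κ / 4 * (z.re ^ 2 - z.im ^ 2) * (1 + (normSq z)⁻¹ ^ 2)
      + (2 - κ) / 2 := by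
  rw [q1_div hz]
  have hn : normSq z ≠ 0 := by simpa using hz
  simp only [add_im, add_re, mul_im, mul_re, ofReal_re, ofReal_im, pow_two, inv_re, inv_im]
  field_simp
  ring

lemma q_slit {κ : ℝ} (hκ : 0 < κ) (hκ1 : κ < 1) {z : ℂ} (hz : z ∈ Om) :
    q1 κ z / z ^ 2 ∈ slitPlane := by
  have h0 := ne_zero_of_Om hz
  have hn : 0 < normSq z := normSq_pos.2 h0
  have hn1 : normSq z < 1 := by
    rw [normSq_eq_norm_sq]
    have := hz.1
    nlinarith [norm_nonneg z]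
  have hinv : 1 < (normSq z)⁻¹ := (one_lt_inv₀ hn).2 hn1
  rw [mem_slitPlane_iff]
  by_cases hb : z.im = 0
  · left
    rw [q_re h0, hb]
    have : 0 ≤ κ / 4 * (z.re ^ 2 - 0 ^ 2) * (1 + (normSq z)⁻¹ ^ 2) := by
      have : 0 ≤ z.re ^ 2 - 0 ^ 2 := by nlinarith [sq_nonneg z.re]
      positivity
    linarith
  · right
    rw [q_im h0]
    have h1 : z.re ≠ 0 := hz.2.ne
    have h2 : (1 - (normSq z)⁻¹ ^ 2) < 0 := by nlinarith
    have := h2.ne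
    positivity

lemma q_im_neg {κ : ℝ} (hκ : 0 < κ) {z : ℂ} (hz : z ∈ Om) (hb : z.im < 0) :
    (q1 κ z / z ^ 2).im < 0 := by
  have h0 := ne_zero_of_Om hz
  have hn : 0 < normSq z := normSq_pos.2 h0
  have hn1 : normSq z < 1 := by
    rw [normSq_eq_norm_sq]
    have := hz.1
    nlinarith [norm_nonneg z]
  have hinv : 1 < (normSq z)⁻¹ := (one_lt_inv₀ hn).2 hn1
  rw [q_im h0]
  have h1 : 0 < z.re * z.im := mul_pos_of_neg_of_neg hz.2 hb
  have h2 : (1 - (normSq z)⁻¹ ^ 2) < 0 := by nlinarith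
  have : 0 < κ / 2 * (z.re * z.im) := by positivity
  exact mul_neg_of_pos_of_neg this h2

/-- principal square root -/
noncomputable def rt (a : ℂ) : ℂ := a ^ (((2 : ℕ) : ℂ)⁻¹)

lemma rt_sq (a : ℂ) : rt a ^ 2 = a := cpow_nat_inv_pow a (by norm_num)

lemma rt_re_pos {a : ℂ} (ha : a ∈ slitPlane) : 0 < (rt a).re := by
  have h0 : a ≠ 0 := slitPlane_ne_zero ha
  have h1 := (mem_slitPlane_iff_arg.1 ha).1
  unfold rt
  rw [cpow_def_of_ne_zero h0, exp_re]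
  apply mul_pos (Real.exp_pos _)
  have h2 : (log a * ((2 : ℕ) : ℂ)⁻¹).im = arg a / 2 := by
    have : ((2 : ℕ) : ℂ)⁻¹ = ((1 / 2 : ℝ) : ℂ) := by push_cast; norm_num
    rw [this, mul_comm, im_ofReal_mul, log_im]
    ring
  rw [h2]
  apply Real.cos_pos_of_mem_Ioo
  have h3 := neg_pi_lt_arg a
  have h4 := (arg_le_pi a).lt_of_ne h1
  constructor <;> linarith

lemma eq_rt_of_sq {a w : ℂ} (ha : a ∈ slitPlane) (h : w ^ 2 = a) (hw : 0 ≤ w.re) : w = rt a := by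
  have h1 : w ^ 2 = rt a ^ 2 := by rw [h, rt_sq]
  rcases sq_eq_sq_iff_eq_or_eq_neg.1 h1 with h2 | h2
  · exact h2
  · exfalso
    have := rt_re_pos ha
    rw [h2, neg_re] at hw
    linarith

/-- `w = √(q/z²)` on the left half disc -/
noncomputable def ww (κ : ℝ) (z : ℂ) : ℂ := rt (q1 κ z / z ^ 2)

lemma ww_sq {κ : ℝ} (z : ℂ) : ww κ z ^ 2 = q1 κ z / z ^ 2 := rt_sq _

lemma ww_re {κ : ℝ} (hκ : 0 < κ) (hκ1 : κ < 1) {z : ℂ} (hz : z ∈ Om) : 0 < (ww κ z).re :=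
  rt_re_pos (q_slit hκ hκ1 hz)

lemma ww_ne {κ : ℝ} (hκ : 0 < κ) (hκ1 : κ < 1) {z : ℂ} (hz : z ∈ Om) : ww κ z ≠ 0 := by
  intro h
  have := ww_re hκ hκ1 hz
  rw [h] at this
  simp at this

lemma ww_im_neg {κ : ℝ} (hκ : 0 < κ) (hκ1 : κ < 1) {z : ℂ} (hz : z ∈ Om) (hb : z.im < 0) :
    (ww κ z).im < 0 := by
  have h1 := q_im_neg hκ hz hb
  rw [← ww_sq, pow_two, mul_im] at h1
  have h2 := ww_re hκ hκ1 hz
  by_contra hcon
  push Not at hcon
  nlinarith [mul_nonneg h2.le hcon]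

lemma v1_ne {β γ : ℝ} (hβ : 0 < β) {z : ℂ} (hz : ‖z‖ < 1) : v1 β γ z ≠ 0 := by
  intro h
  have h1 : (γ + I * β) * z ^ 2 = -(γ - I * β) := by
    unfold v1 x1 y1 at h
    linear_combination 2 * h
  have h2 : ‖(γ + I * β : ℂ)‖ = ‖(γ - I * β : ℂ)‖ := by
    have : (γ - I * β : ℂ) = (starRingEnd ℂ) (γ + I * β) := by
      simp
      ring
    rw [this, RCLike.norm_conj]
  have h3 : (γ + I * β : ℂ) ≠ 0 := by
    intro h
    have := congrArg im h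
    simp at this
    exact hβ.ne' this
  have h4 := congrArg norm h1
  rw [norm_mul, norm_neg, ← h2, norm_pow] at h4
  have h5 : 0 < ‖(γ + I * β : ℂ)‖ := norm_pos_iff.2 h3
  have h6 : ‖z‖ ^ 2 = 1 := by
    have : ‖(γ + I * β : ℂ)‖ * ‖z‖ ^ 2 = ‖(γ + I * β : ℂ)‖ * 1 := by rw [h4, mul_one]
    exact mul_left_cancel₀ h5.ne' this
  nlinarith [norm_nonneg z]

/-- the function `Φ = u b / (v w)` -/
noncomputable def Ph (β γ κ : ℝ) (z : ℂ) : ℂ :=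
  u1 β γ z * b1 β γ κ z / (z ^ 2 * v1 β γ z * ww κ z)

lemma differentiableOn_Ph {β γ κ : ℝ} (hβ : 0 < β) (hκ : 0 < κ) (hκ1 : κ < 1) :
    DifferentiableOn ℂ (Ph β γ κ) Om := by
  intro z hz
  apply DifferentiableAt.differentiableWithinAt
  have h0 := ne_zero_of_Om hz
  have hv := v1_ne (γ := γ) hβ hz.1
  have hw := ww_ne hκ hκ1 hz
  have hdw : DifferentiableAt ℂ (ww κ) z := by
    have hd : DifferentiableAt ℂ (fun z => q1 κ z / z ^ 2) z := by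
      unfold q1 x1 y1
      fun_prop (disch := exact pow_ne_zero 2 h0)
    exact hd.cpow_const (q_slit hκ hκ1 hz)
  unfold Ph
  apply DifferentiableAt.div
  · unfold u1 b1 x1 y1
    fun_prop
  · apply DifferentiableAt.mul _ hdw
    unfold v1 x1 y1
    fun_prop
  · exact mul_ne_zero (mul_ne_zero (pow_ne_zero 2 h0) hv) hw

end Pool.Agent.H13R2.Kep
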