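import Mathlib
import Pool.Agent.H13R2.Kep.Cx

namespace Pool.Agent.H13R2.Kep

open Complex

/-- the bad values of `μ` -/
def Bad (β γ κ μ : ℝ) : Prop :=
  ∃ C : ℝ, 1 < C ∧ 1 < κ * C ^ 2 ∧ RR β γ κ C = 0 ∧ 0 < II β γ κ C ∧
    μ ^ 2 * (κ * C ^ 2 - 1) * (β ^ 2 * C ^ 2 + γ ^ 2 * (C ^ 2 - 1)) ^ 2
      = β ^ 2 * (C ^ 2 - 1) * II β γ κ C ^ 2

lemma Bad_unique {β γ κ μ₁ μ₂ : ℝ} (hβ : 0 < β) (hγ : 0 < γ) (he : β ^ 2 + γ ^ 2 < 1)
    (hκ : 0 < κ) (hκ1 : κ < 1) (h1 : 0 < μ₁) (h2 : 0 < μ₂) (b1 : Bad β γ κ μ₁)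
    (b2 : Bad β γ κ μ₂) : μ₁ = μ₂ := by
  obtain ⟨C₁, c1, k1, R1, I1, e1⟩ := b1
  obtain ⟨C₂, c2, k2, R2, I2, e2⟩ := b2
  have hC := bad_unique hβ hγ he hκ hκ1 c1 c2 k1 k2 R1 R2 I1 I2
  subst hC
  have hpos : 0 < (κ * C₁ ^ 2 - 1) * (β ^ 2 * C₁ ^ 2 + γ ^ 2 * (C₁ ^ 2 - 1)) ^ 2 := by
    have h3 : 0 < κ * C₁ ^ 2 - 1 := by linarith
    have h4 : 0 < C₁ ^ 2 - 1 := by nlinarith
    positivity
  have h3 : μ₁ ^ 2 = μ₂ ^ 2 := by
    have : μ₁ ^ 2 * ((κ * C₁ ^ 2 - 1) * (β ^ 2 * C₁ ^ 2 + γ ^ 2 * (C₁ ^ 2 - 1)) ^ 2)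
        = μ₂ ^ 2 * ((κ * C₁ ^ 2 - 1) * (β ^ 2 * C₁ ^ 2 + γ ^ 2 * (C₁ ^ 2 - 1)) ^ 2) := by
      linarith
    exact mul_right_cancel₀ hpos.ne' this
  exact (pow_left_inj₀ h1.le h2.le two_ne_zero).1 h3

/-- the two real equations on the imaginary axis; here `x = -iS`, `y = K` -/
lemma axis_eq {β γ κ μ S K : ℝ} {w : ℂ} (hK : K ^ 2 = 1 + S ^ 2)
    (h : μ * (γ * (-I * S) - β * K) * w
      + (1 + β * (-I * S) + γ * K) * (γ * (-I * S) - (1 - κ) * β * K + κ * (-I * S) * K) = 0) :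
    μ * (β ^ 2 * K ^ 2 + γ ^ 2 * S ^ 2) * w.re = - RR β γ κ (-K) ∧
    μ * (β ^ 2 * K ^ 2 + γ ^ 2 * S ^ 2) * w.im = β * S * II β γ κ (-K) := by
  have h' : (μ * (β ^ 2 * K ^ 2 + γ ^ 2 * S ^ 2) : ℝ) * w
      = (- RR β γ κ (-K) : ℝ) + (β * S * II β γ κ (-K) : ℝ) * I := by
    have hK' : (K : ℂ) ^ 2 = 1 + (S : ℂ) ^ 2 := by exact_mod_cast hK
    unfold RR II
    push_cast
    linear_combination (-(β : ℂ) * K + I * γ * S) * h
      + (-β * K * γ * S * I * κ - β * γ ^ 2 * S * I + β ^ 2 * K * γ * κ + β ^ 2 * K ^ 2 * κ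
        + K * γ * κ + K * γ ^ 3 + γ ^ 2 + K ^ 2 * γ ^ 2 * κ) * hK'
      + (μ * γ ^ 2 * S ^ 2 * w - β * K * γ * S ^ 3 * κ * I - β * γ ^ 2 * S ^ 3 * I
        + β ^ 2 * K * γ * S ^ 2 * κ + β ^ 2 * K ^ 2 * S ^ 2 * κ + K * γ * S ^ 2 * κ
        + K * γ ^ 3 * S ^ 2 + K ^ 2 * γ ^ 2 * S ^ 2 * κ + γ ^ 2 * S ^ 2) * I_sq
  have hre := congrArg re h'
  have him := congrArg im h'
  rw [re_ofReal_mul] at hre
  rw [im_ofReal_mul] at him
  constructor
  · rw [hre]; simp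
  · rw [him]; simp

lemma RR_neg_pos {β γ κ K : ℝ} (hβ : 0 < β) (hγ : 0 < γ) (hκ : 0 < κ) (hκ1 : κ < 1)
    (hK : 1 < K) : 0 < RR β γ κ (-K) := by
  unfold RR
  have h1 : 0 < 1 - κ := by linarith
  have h2 : 0 < K ^ 2 - 1 := by nlinarith
  have h3 : β ^ 2 * (1 - κ) * -K * (-K - γ) + ((-K) ^ 2 - 1) * (κ * -K - γ)
      * ((β ^ 2 + γ ^ 2) * -K - γ)
      = β ^ 2 * (1 - κ) * K * (K + γ) + (K ^ 2 - 1) * (κ * K + γ) * ((β ^ 2 + γ ^ 2) * K + γ) := by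
    ring
  rw [h3]
  positivity

/-- a limit point on the imaginary axis forces `μ` to be bad -/
lemma axis_bad {β γ κ μ : ℝ} (hβ : 0 < β) (hγ : 0 < γ) (he : β ^ 2 + γ ^ 2 < 1) (hκ : 0 < κ)
    (hκ1 : κ < 1) (hμ : 0 < μ) {z w : ℂ} (hz0 : z ≠ 0) (hz1 : ‖z‖ < 1) (hzr : z.re = 0)
    (hw : w ^ 2 = q1 κ z / z ^ 2) (hwr : 0 ≤ w.re) (hwi : z.im < 0 → w.im ≤ 0)
    (h : μ * v1 β γ z * z ^ 2 * w + u1 β γ z * b1 β γ κ z = 0) : Bad β γ κ μ := by
  have hγ1 : γ < 1 := by nlinarith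
  obtain ⟨η, rfl⟩ : ∃ η : ℝ, z = I * η := ⟨z.im, by
    apply Complex.ext <;> simp [hzr]⟩
  have hη0 : η ≠ 0 := by
    rintro rfl
    simp at hz0
  have hη1 : η ^ 2 < 1 := by
    rw [norm_mul, norm_I, one_mul, norm_real, Real.norm_eq_abs] at hz1
    have := sq_abs η
    nlinarith [abs_nonneg η]
  have hη2 : 0 < η ^ 2 := by positivity
  set S : ℝ := (η⁻¹ - η) / 2 with hS
  set K : ℝ := (η + η⁻¹) / 2 with hK
  have hKS : K ^ 2 = 1 + S ^ 2 := by
    rw [hS, hK]; field_simp; ring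
  have hηc : (η : ℂ) ≠ 0 := by exact_mod_cast hη0
  have hx : x1 (I * η) = (I * η) * (-I * S) := by
    unfold x1
    rw [hS]
    push_cast
    field_simp
    ring_nf
    rw [I_sq]
    ring
  have hy : y1 (I * η) = (I * η) * K := by
    unfold y1
    rw [hK]
    push_cast
    field_simp
    ring_nf
    rw [I_sq]
    ring
  have heq : μ * (γ * (-I * S) - β * K) * w
      + (1 + β * (-I * S) + γ * K) * (γ * (-I * S) - (1 - κ) * β * K + κ * (-I * S) * K) = 0 := by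
    unfold u1 v1 b1 at h
    rw [hx, hy] at h
    have h3 : (I * (η : ℂ)) ^ 3 ≠ 0 := pow_ne_zero 3 hz0
    have : (I * (η : ℂ)) ^ 3 * (μ * (γ * (-I * S) - β * K) * w
      + (1 + β * (-I * S) + γ * K) * (γ * (-I * S) - (1 - κ) * β * K + κ * (-I * S) * K)) = 0 := by
      linear_combination h
    exact (mul_eq_zero.1 this).resolve_left h3
  obtain ⟨e1, e2⟩ := axis_eq hKS heq
  have hq : q1 κ (I * η) / (I * η) ^ 2 = ((1 - κ * K ^ 2 : ℝ) : ℂ) := by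
    unfold q1
    rw [hx, hy, div_eq_iff (pow_ne_zero 2 hz0)]
    have hKS' : (K : ℂ) ^ 2 = 1 + (S : ℂ) ^ 2 := by exact_mod_cast hKS
    push_cast
    linear_combination (I * (η : ℂ)) ^ 2 * (hKS' + (S : ℂ) ^ 2 * I_sq)
  rw [hq] at hw
  have w1 : w.re ^ 2 - w.im ^ 2 = 1 - κ * K ^ 2 := by
    have := congrArg re hw
    rw [pow_two, mul_re, ofReal_re] at this
    linarith
  have w2 : w.re * w.im = 0 := by
    have := congrArg im hw
    rw [pow_two, mul_im, ofReal_im] at this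
    linarith
  rcases hη0.lt_or_gt with hneg | hpos
  · -- lower half
    have hηn : η⁻¹ < -1 := by
      have h1 : 0 < -η := by linarith
      have h2 : 1 < (-η)⁻¹ := (one_lt_inv₀ h1).2 (by nlinarith)
      rw [inv_neg] at h2
      linarith
    have hKn : K < -1 := by
      have h1 : 0 < (η + 1) ^ 2 := by
        have : η + 1 ≠ 0 := by nlinarith
        positivity
      have h2 : 2 * K * η = η ^ 2 + 1 := by rw [hK]; field_simp
      nlinarith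
    set C : ℝ := -K with hC
    have hC1 : 1 < C := by linarith
    have hKC : K ^ 2 = C ^ 2 := by rw [hC]; ring
    have hS2 : S ^ 2 = C ^ 2 - 1 := by linarith
    have hSn : S < 0 := by
      rw [hS]
      nlinarith
    have hwi' : w.im ≤ 0 := hwi (by simpa using hneg)
    have hD : 0 < β ^ 2 * K ^ 2 + γ ^ 2 * S ^ 2 := by
      have : 0 < K ^ 2 := by nlinarith
      positivity
    rcases mul_eq_zero.1 w2 with hr | hi
    · -- `w.re = 0`
      rw [hr, mul_zero] at e1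
      have hR : RR β γ κ C = 0 := by linarith
      have hI0 : 0 ≤ II β γ κ C := by
        by_contra hcon
        push Not at hcon
        have h1 : 0 < β * S * II β γ κ C :=
          mul_pos_of_neg_of_neg (mul_neg_of_pos_of_neg hβ hSn) hcon
        rw [← e2] at h1
        have h2 : μ * (β ^ 2 * K ^ 2 + γ ^ 2 * S ^ 2) * w.im ≤ 0 :=
          mul_nonpos_of_nonneg_of_nonpos (by positivity) hwi'
        linarith
      have hI : 0 < II β γ κ C := by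
        rcases hI0.lt_or_eq with h1 | h1
        · exact h1
        · have := RR_pos_of_II_zero hβ hγ1 hκ1 hC1 h1.symm
          linarith
      have hwi2 : w.im ^ 2 = κ * C ^ 2 - 1 := by
        rw [hr] at w1
        rw [← hKC]
        linarith
      have hwi3 : w.im ≠ 0 := by
        intro h0
        rw [h0, mul_zero] at e2
        have : β * S * II β γ κ C < 0 :=
          mul_neg_of_neg_of_pos (mul_neg_of_pos_of_neg hβ hSn) hI
        linarith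
      refine ⟨C, hC1, ?_, hR, hI, ?_⟩
      · have : 0 < w.im ^ 2 := by positivity
        linarith
      · rw [hKC, hS2] at e2
        rw [← hwi2]
        have h3 : (μ * (β ^ 2 * C ^ 2 + γ ^ 2 * (C ^ 2 - 1)) * w.im) ^ 2
            = (β * S * II β γ κ C) ^ 2 := by rw [e2]
        have h4 : C ^ 2 - 1 = S ^ 2 := hS2.symm
        rw [h4] at h3 ⊢
        linear_combination h3
    · -- `w.im = 0`
      exfalso
      rw [hi, mul_zero] at e2
      have hII : II β γ κ C = 0 := by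
        have : β * S ≠ 0 := mul_ne_zero hβ.ne' hSn.ne
        rcases mul_eq_zero.1 e2.symm with h1 | h1
        · exact absurd h1 this
        · exact h1
      have h1 := RR_pos_of_II_zero hβ hγ1 hκ1 hC1 hII
      have h2 : 0 ≤ μ * (β ^ 2 * K ^ 2 + γ ^ 2 * S ^ 2) * w.re := by positivity
      linarith
  · -- upper half
    exfalso
    have hη1' : 1 < η⁻¹ := (one_lt_inv₀ hpos).2 (by nlinarith)
    have hKp : 1 < K := by
      have h1 : 0 < (η - 1) ^ 2 := by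
        have : η - 1 ≠ 0 := by nlinarith
        positivity
      have h2 : 2 * K * η = η ^ 2 + 1 := by rw [hK]; field_simp
      nlinarith
    have h1 := RR_neg_pos (γ := γ) hβ hγ hκ hκ1 hKp
    have h2 : 0 ≤ μ * (β ^ 2 * K ^ 2 + γ ^ 2 * S ^ 2) * w.re := by positivity
    linarith

end Pool.Agent.H13R2.Kep
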