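import Mathlib
import Pool.Agent.H13R2.Kep.Axis

namespace Pool.Agent.H13R2.Kep

open Complex Filter Topology

lemma x1_circ {X Y : ℝ} (hc : X ^ 2 + Y ^ 2 = 1) : x1 (X + I * Y) = (X + I * Y) * X := by
  have hc' : (X : ℂ) ^ 2 + (Y : ℂ) ^ 2 = 1 := by exact_mod_cast hc
  unfold x1
  linear_combination ((Y : ℂ) ^ 2 / 2) * I_sq - (1 / 2 : ℂ) * hc'

lemma y1_circ {X Y : ℝ} (hc : X ^ 2 + Y ^ 2 = 1) : y1 (X + I * Y) = (X + I * Y) * Y := by
  have hc' : (X : ℂ) ^ 2 + (Y : ℂ) ^ 2 = 1 := by exact_mod_cast hc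
  unfold y1
  linear_combination (-(X : ℂ) * Y - I * Y ^ 2 / 2) * I_sq - (I / 2) * hc'

/-- the numerator `u₁² b₁²` -/
noncomputable def nB (β γ κ : ℝ) (z : ℂ) : ℂ := (u1 β γ z * b1 β γ κ z) ^ 2
/-- the denominator `v₁² z² q₁` -/
noncomputable def nA (β γ κ : ℝ) (z : ℂ) : ℂ := (v1 β γ z * z) ^ 2 * q1 κ z

lemma hd_x1 (z : ℂ) : HasStrictDerivAt x1 z z := by
  have h : HasStrictDerivAt (fun z : ℂ => (z ^ 2 + 1) / 2) (((2 : ℕ) * z ^ (2 - 1)) / 2) z :=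
    ((hasStrictDerivAt_pow 2 z).add_const 1).div_const 2
  have e : (((2 : ℕ) : ℂ) * z ^ (2 - 1)) / 2 = z := by simp
  rw [e] at h
  exact h

lemma hd_y1 (z : ℂ) : HasStrictDerivAt y1 (-I * z) z := by
  have h0 : HasStrictDerivAt (fun z : ℂ => z ^ 2 - 1) ((2 : ℕ) * z ^ (2 - 1)) z :=
    (hasStrictDerivAt_pow 2 z).sub_const 1
  have h : HasStrictDerivAt (fun z : ℂ => -I * (z ^ 2 - 1) / 2)
      ((-I * ((2 : ℕ) * z ^ (2 - 1))) / 2) z :=
    (h0.const_mul (-I)).div_const 2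
  have e : (-I * (((2 : ℕ) : ℂ) * z ^ (2 - 1))) / 2 = -I * z := by
    push_cast
    rw [pow_one]
    ring
  rw [e] at h
  exact h

lemma hd_u1 (β γ : ℝ) (z : ℂ) :
    HasStrictDerivAt (u1 β γ) (1 + β * z + γ * (-I * z)) z :=
  ((hasStrictDerivAt_id z).add ((hd_x1 z).const_mul _)).add ((hd_y1 z).const_mul _)

lemma hd_v1 (β γ : ℝ) (z : ℂ) :
    HasStrictDerivAt (v1 β γ) (γ * z - β * (-I * z)) z :=
  ((hd_x1 z).const_mul _).sub ((hd_y1 z).const_mul _)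

lemma hd_b1 (β γ κ : ℝ) (z : ℂ) :
    HasStrictDerivAt (b1 β γ κ) (1 * (γ * x1 z - (1 - κ) * β * y1 z)
      + z * (γ * z - (1 - κ) * β * (-I * z)) + (κ * z * y1 z + κ * x1 z * (-I * z))) z := by
  have h1 := ((hd_x1 z).const_mul (γ : ℂ)).sub ((hd_y1 z).const_mul ((1 - κ) * β : ℂ))
  have h2 := (hasStrictDerivAt_id z).mul h1
  have h3 := ((hd_x1 z).const_mul (κ : ℂ)).mul (hd_y1 z)
  exact h2.add h3

lemma hd_q1 (κ : ℝ) (z : ℂ) :
    HasStrictDerivAt (q1 κ) (2 * x1 z * z + (1 - κ) * (2 * y1 z * (-I * z))) z := by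
  have h1 := (hd_x1 z).pow 2
  have h2 := ((hd_y1 z).pow 2).const_mul (1 - κ : ℂ)
  have h3 := h1.add h2
  have e : ((2 : ℕ) : ℂ) * x1 z ^ (2 - 1) * z + (1 - κ) * (((2 : ℕ) : ℂ) * y1 z ^ (2 - 1) * (-I * z))
      = 2 * x1 z * z + (1 - κ) * (2 * y1 z * (-I * z)) := by simp
  rw [e] at h3
  exact h3

/-- the derivative of `nB / nA` -/
lemma hd_quot {β γ κ : ℝ} {z : ℂ} (hA : nA β γ κ z ≠ 0) :
    ∃ uv bv vv qv : ℂ,
      uv = 1 + β * z + γ * (-I * z) ∧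
      vv = γ * z - β * (-I * z) ∧
      bv = 1 * (γ * x1 z - (1 - κ) * β * y1 z)
        + z * (γ * z - (1 - κ) * β * (-I * z)) + (κ * z * y1 z + κ * x1 z * (-I * z)) ∧
      qv = 2 * x1 z * z + (1 - κ) * (2 * y1 z * (-I * z)) ∧
      HasStrictDerivAt (fun z => nB β γ κ z / nA β γ κ z)
        (u1 β γ z * b1 β γ κ z * v1 β γ z * z
          * (2 * (uv * b1 β γ κ z + u1 β γ z * bv) * v1 β γ z * z * q1 κ z
            - u1 β γ z * b1 β γ κ z * (2 * (vv * z + v1 β γ z) * q1 κ z + v1 β γ z * z * qv))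
          / nA β γ κ z ^ 2) z := by
  refine ⟨_, _, _, _, rfl, rfl, rfl, rfl, ?_⟩
  have h1 := ((hd_u1 β γ z).mul (hd_b1 β γ κ z)).pow 2
  have h2 := (((hd_v1 β γ z).mul (hasStrictDerivAt_id z)).pow 2).mul (hd_q1 κ z)
  have h3 := h1.div h2 hA
  refine h3.congr_deriv ?_
  congr 1
  simp only [Pi.mul_apply, Pi.pow_apply, id]
  push_cast
  ring

/-- the key non-vanishing -/
lemma deriv_ne {β γ κ X Y : ℝ} (hκ : 0 < κ) (hκ1 : κ < 1) (hc : X ^ 2 + Y ^ 2 = 1)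
    (hu : 0 < 1 + β * X + γ * Y)
    (hv : γ * X - β * Y ≠ 0) (hb : γ * X - (1 - κ) * β * Y + κ * X * Y ≠ 0)
    (hN : ((1 + β * X + γ * Y) ^ 2 + (γ * X - β * Y) ^ 2) * (X ^ 2 + (1 - κ) * Y ^ 2)
        * (γ * X - (1 - κ) * β * Y + κ * X * Y)
      - (1 - κ) * (1 + β * X + γ * Y) ^ 2 * (γ * X - β * Y)
      - κ * X * Y * (1 + β * X + γ * Y) ^ 2 * (X ^ 2 + (1 - κ) * Y ^ 2) ≠ 0) :
    ∃ d : ℂ, d ≠ 0 ∧ HasStrictDerivAt (fun z => nB β γ κ z / nA β γ κ z) d (X + I * Y) := by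
  set z : ℂ := X + I * Y with hz
  have hc' : (X : ℂ) ^ 2 + (Y : ℂ) ^ 2 = 1 := by exact_mod_cast hc
  have hz0 : z ≠ 0 := by
    intro h
    have h1 := congrArg re h
    have h2 := congrArg im h
    simp [hz] at h1 h2
    rw [h1, h2] at hc
    norm_num at hc
  have hx : x1 z = z * X := x1_circ hc
  have hy : y1 z = z * Y := y1_circ hc
  set u : ℝ := 1 + β * X + γ * Y with hudef
  set v : ℝ := γ * X - β * Y with hvdef
  set b : ℝ := γ * X - (1 - κ) * β * Y + κ * X * Y with hbdef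
  set q : ℝ := X ^ 2 + (1 - κ) * Y ^ 2 with hqdef
  have hq : 0 < q := by
    have h1 : 0 < 1 - κ := by linarith
    have : q = (1 - κ) + κ * X ^ 2 := by rw [hqdef]; linear_combination (1 - κ) * hc
    rw [this]
    positivity
  have hu1 : u1 β γ z = z * u := by
    unfold u1; rw [hx, hy, hudef]; push_cast; ring
  have hv1 : v1 β γ z = z * v := by
    unfold v1; rw [hx, hy, hvdef]; push_cast; ring
  have hb1 : b1 β γ κ z = z ^ 2 * b := by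
    unfold b1; rw [hx, hy, hbdef]; push_cast; ring
  have hq1 : q1 κ z = z ^ 2 * q := by
    unfold q1; rw [hx, hy, hqdef]; push_cast; ring
  have huc : (u : ℂ) ≠ 0 := by exact_mod_cast hu.ne'
  have hvc : (v : ℂ) ≠ 0 := by exact_mod_cast hv
  have hbc : (b : ℂ) ≠ 0 := by exact_mod_cast hb
  have hqc : (q : ℂ) ≠ 0 := by exact_mod_cast hq.ne'
  have hA : nA β γ κ z ≠ 0 := by
    unfold nA
    rw [hv1, hq1]
    exact mul_ne_zero (pow_ne_zero 2 (mul_ne_zero (mul_ne_zero hz0 hvc) hz0))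
      (mul_ne_zero (pow_ne_zero 2 hz0) hqc)
  obtain ⟨uv, bv, vv, qv, e1, e2, e3, e4, hd⟩ := hd_quot hA
  refine ⟨_, ?_, hd⟩
  apply div_ne_zero _ (pow_ne_zero 2 hA)
  rw [hu1, hv1, hb1, hq1]
  apply mul_ne_zero
  · exact mul_ne_zero (mul_ne_zero (mul_ne_zero (mul_ne_zero hz0 huc)
      (mul_ne_zero (pow_ne_zero 2 hz0) hbc)) (mul_ne_zero hz0 hvc)) hz0
  have f1 : uv = u - I * v := by
    rw [e1, hudef, hvdef, hz]
    push_cast
    linear_combination (-(γ : ℂ) * Y) * I_sq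
  have f2 : vv = v + I * (u - 1) := by
    rw [e2, hudef, hvdef, hz]
    push_cast
    linear_combination ((β : ℂ) * Y) * I_sq
  obtain ⟨bh, hbh⟩ : ∃ bh : ℝ, bh = γ * Y + (1 - κ) * β * X + κ * (Y ^ 2 - X ^ 2) := ⟨_, rfl⟩
  have f3 : bv = z * (2 * b + I * bh) := by
    rw [e3, hx, hy, hbdef, hbh, hz]
    push_cast
    linear_combination (-(X : ℂ) * Y ^ 2 * κ * I - X * Y * κ * β + X * Y * β - X ^ 2 * Y * κ
      - I * Y ^ 2 * κ * β + I * Y ^ 2 * β) * I_sq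
  have f4 : qv = z * (2 * q + 2 * I * κ * X * Y) * 1 := by
    rw [e4, hx, hy, hqdef, hz]
    push_cast
    linear_combination (-2 * (X : ℂ) * Y ^ 2 + 2 * κ * X * Y ^ 2 - 2 * I * Y ^ 3
      + 2 * κ * I * Y ^ 3) * I_sq
  have hNr : (u ^ 2 + v ^ 2) * q * b - (1 - κ) * u ^ 2 * v - κ * X * Y * u ^ 2 * q
      = v * q * (v * b - u * bh) + u * b * (u - 1) * q + κ * X * Y * u * b * v := by
    rw [hbh, hbdef, hudef, hvdef, hqdef]
    linear_combination ((1 + β * X + γ * Y) * (-(κ * β * ((X ^ 2 + (1 - κ) * Y ^ 2) * Y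
      - X * (γ * X - β * Y))) - κ * (1 + β * X + γ * Y) * (γ * X - β * Y)
      + (1 + β * X + γ * Y) * (γ * X - β * Y) - κ * (γ * X - β * Y) * X * (X + β))) * hc
  rw [hNr] at hN
  have hNc : ((v * q * (v * b - u * bh) + u * b * (u - 1) * q + κ * X * Y * u * b * v : ℝ) : ℂ)
      ≠ 0 := by exact_mod_cast hN
  push_cast at hNc
  have hfin : 2 * (uv * (z ^ 2 * b) + z * u * bv) * (z * v) * z * (z ^ 2 * q)
      - z * u * (z ^ 2 * b) * (2 * (vv * z + z * v) * (z ^ 2 * q) + z * v * z * qv)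
      = (-2 * I * z ^ 6) * (v * q * (v * b - u * bh) + u * b * (u - 1) * q
        + κ * X * Y * u * b * v) := by
    rw [f1, f2, f3, f4]
    ring
  rw [hfin]
  refine mul_ne_zero (mul_ne_zero (mul_ne_zero (by norm_num) I_ne_zero) (pow_ne_zero 6 hz0)) hNc

end Pool.Agent.H13R2.Kep
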