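import Mathlib
import Pool.Agent.H13R2.Kep.Axis

namespace Pool.Agent.H13R2.Kep

open Complex Filter Topology

lemma W_bound {κ : ℝ} (hκ : 0 < κ) (hκ1 : κ < 1) {z : ℂ} (hz : z ∈ Om) (hs : |z.im| ≤ -z.re) :
    ‖z * ww κ z - (-(Real.sqrt κ / 2 : ℝ) : ℂ)‖ ≤ 4 / Real.sqrt κ * ‖q1 κ z - (κ / 4 : ℝ)‖ := by
  set k := Real.sqrt κ with hk
  have hk0 : 0 < k := Real.sqrt_pos.2 hκ
  have hkk : k ^ 2 = κ := Real.sq_sqrt hκ.le
  set W := z * ww κ z with hW
  have h0 := ne_zero_of_Om hz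
  have hWsq : W ^ 2 = q1 κ z := by
    rw [hW, mul_pow, ww_sq]; field_simp
  have hre : 0 < W.re * z.re + W.im * z.im := by
    have h1 := ww_re hκ hκ1 hz
    have h2 : 0 < z.re ^ 2 + z.im ^ 2 := by
      have := hz.2
      nlinarith [sq_nonneg z.im, mul_pos_of_neg_of_neg this this]
    have : W.re * z.re + W.im * z.im = (z.re ^ 2 + z.im ^ 2) * (ww κ z).re := by
      rw [hW, mul_re, mul_im]; ring
    rw [this]; positivity
  have hlow : (k / 4) ^ 2 ≤ (W.re - k / 2) ^ 2 + W.im ^ 2 := by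
    rcases le_or_gt W.re 0 with h1 | h1
    · nlinarith [sq_nonneg W.im, mul_nonneg hk0.le (neg_nonneg.2 h1), sq_nonneg W.re]
    · have h2 : W.re < |W.im| := by
        by_contra hcon
        push Not at hcon
        have h3 : W.im * z.im ≤ |W.im| * |z.im| := by
          rw [← abs_mul]; exact le_abs_self _
        have h4 : |W.im| * |z.im| ≤ W.re * (-z.re) :=
          mul_le_mul hcon hs (abs_nonneg _) h1.le
        linarith
      have h3 : W.re ^ 2 ≤ W.im ^ 2 := by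
        rw [← sq_abs W.im]; nlinarith
      nlinarith [sq_nonneg (W.re - k/4)]
  have hn : k / 4 ≤ ‖W - (k / 2 : ℝ)‖ := by
    apply le_of_sq_le_sq _ (norm_nonneg _)
    rw [← normSq_eq_norm_sq, normSq_apply]
    simp only [sub_re, sub_im, ofReal_re, ofReal_im, sub_zero]
    nlinarith
  have hprod : ‖W - (-(k / 2 : ℝ) : ℂ)‖ * ‖W - (k / 2 : ℝ)‖ = ‖q1 κ z - (κ / 4 : ℝ)‖ := by
    rw [← norm_mul, ← hWsq, ← hkk]
    congr 1
    push_cast
    ring
  rw [← hprod]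
  have h5 : 0 ≤ ‖W - (-(k / 2 : ℝ) : ℂ)‖ := norm_nonneg _
  have h6 : 4 / k * (‖W - (-(k / 2 : ℝ) : ℂ)‖ * (k / 4)) = ‖W - (-(k / 2 : ℝ) : ℂ)‖ := by
    field_simp
  calc ‖W - (-(k / 2 : ℝ) : ℂ)‖ = 4 / k * (‖W - (-(k / 2 : ℝ) : ℂ)‖ * (k / 4)) := h6.symm
    _ ≤ _ := by gcongr

/-- a sector at the origin -/
def Sec : Set ℂ := {z | z ∈ Om ∧ |z.im| ≤ -z.re}

lemma cont_u1 (β γ : ℝ) : Continuous (u1 β γ) := by unfold u1 x1 y1; fun_prop
lemma cont_v1 (β γ : ℝ) : Continuous (v1 β γ) := by unfold v1 x1 y1; fun_prop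
lemma cont_b1 (β γ κ : ℝ) : Continuous (b1 β γ κ) := by unfold b1 x1 y1; fun_prop
lemma cont_q1 (κ : ℝ) : Continuous (q1 κ) := by unfold q1 x1 y1; fun_prop

lemma lim_G {β γ κ : ℝ} (hβ : 0 < β) (hκ : 0 < κ) (hκ1 : κ < 1) :
    Tendsto (fun z => u1 β γ z * b1 β γ κ z / (v1 β γ z * (z * ww κ z))) (𝓝[Sec] 0)
      (𝓝 ((Real.sqrt κ / 2 : ℝ) : ℂ)) := by
  set k := Real.sqrt κ with hk
  have hk0 : 0 < k := Real.sqrt_pos.2 hκ
  have hkk : k ^ 2 = κ := Real.sq_sqrt hκ.le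
  have hW : Tendsto (fun z => z * ww κ z) (𝓝[Sec] 0) (𝓝 (-(k / 2 : ℝ) : ℂ)) := by
    rw [tendsto_iff_norm_sub_tendsto_zero]
    have h1 : Tendsto (fun z => 4 / k * ‖q1 κ z - (κ / 4 : ℝ)‖) (𝓝[Sec] 0) (𝓝 0) := by
      have h2 : Tendsto (fun z => 4 / k * ‖q1 κ z - (κ / 4 : ℝ)‖) (𝓝 0)
          (𝓝 (4 / k * ‖q1 κ 0 - (κ / 4 : ℝ)‖)) := by
        have : Continuous (fun z => 4 / k * ‖q1 κ z - (κ / 4 : ℝ)‖) := by
          have := cont_q1 κ
          fun_prop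
        exact this.tendsto 0
      have h3 : q1 κ 0 = ((κ / 4 : ℝ) : ℂ) := by
        unfold q1 x1 y1
        push_cast
        ring_nf
        rw [I_sq]
        ring
      rw [h3, sub_self, norm_zero, mul_zero] at h2
      exact h2.mono_left nhdsWithin_le_nhds
    refine squeeze_zero' (Eventually.of_forall fun _ => norm_nonneg _) ?_ h1
    filter_upwards [self_mem_nhdsWithin] with z hz
    exact W_bound hκ hκ1 hz.1 hz.2
  have hkc : (k : ℂ) ≠ 0 := by exact_mod_cast hk0.ne'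
  have hv0 : v1 β γ 0 ≠ 0 := v1_ne hβ (by simp)
  have hlim : Tendsto (fun z => u1 β γ z * b1 β γ κ z / (v1 β γ z * (z * ww κ z))) (𝓝[Sec] 0)
      (𝓝 (u1 β γ 0 * b1 β γ κ 0 / (v1 β γ 0 * (-(k / 2 : ℝ) : ℂ)))) := by
    apply Tendsto.div
    · exact (((cont_u1 β γ).mul (cont_b1 β γ κ)).tendsto 0).mono_left nhdsWithin_le_nhds
    · exact (((cont_v1 β γ).tendsto 0).mono_left nhdsWithin_le_nhds).mul hW
    · apply mul_ne_zero hv0
      push_cast
      simp [hkc]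
  convert hlim using 2
  rw [eq_div_iff]
  · have hu0 : u1 β γ 0 = (β + I * γ) / 2 := by unfold u1 x1 y1; ring
    have hb0 : b1 β γ κ 0 = κ * I / 4 := by unfold b1 x1 y1; ring
    have hv0' : v1 β γ 0 = (γ - I * β) / 2 := by unfold v1 x1 y1; ring
    rw [hu0, hb0, hv0', ← hkk]
    push_cast
    linear_combination (-(k : ℂ) ^ 2 * γ / 8) * I_sq
  · apply mul_ne_zero hv0
    push_cast
    simp [hkc]

lemma Ph_mul {β γ κ : ℝ} (hβ : 0 < β) (hκ : 0 < κ) (hκ1 : κ < 1) {z : ℂ} (hz : z ∈ Om) :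
    Ph β γ κ z * z = u1 β γ z * b1 β γ κ z / (v1 β γ z * (z * ww κ z)) := by
  have h0 := ne_zero_of_Om hz
  have hv := v1_ne (γ := γ) hβ hz.1
  have hw := ww_ne hκ hκ1 hz
  unfold Ph
  field_simp

lemma large_mu {β γ κ : ℝ} (hβ : 0 < β) (hκ : 0 < κ) (hκ1 : κ < 1) (M : ℝ) :
    ∃ μ, M < μ ∧ 0 < μ ∧ ∃ z ∈ Om, Ph β γ κ z = -(μ : ℂ) := by
  have hG := lim_G (γ := γ) hβ hκ hκ1
  set k := Real.sqrt κ with hk
  have hk0 : 0 < k := Real.sqrt_pos.2 hκ
  have hev : ∀ᶠ z in 𝓝[Sec] 0,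
      ‖u1 β γ z * b1 β γ κ z / (v1 β γ z * (z * ww κ z)) - ((k / 2 : ℝ) : ℂ)‖ < k / 8 := by
    have := Metric.tendsto_nhds.1 hG (k / 8) (by positivity)
    simpa [dist_eq_norm] using this
  rw [eventually_nhdsWithin_iff, Metric.eventually_nhds_iff] at hev
  obtain ⟨δ, hδ, hev⟩ := hev
  set ρ : ℝ := min (δ / 4) (min (1 / 4) (k / (8 * (|M| + 1)))) with hρ
  have hM : 0 < |M| + 1 := by positivity
  have hρ0 : 0 < ρ := by
    rw [hρ]
    refine lt_min (by positivity) (lt_min (by norm_num) (by positivity))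
  have hρ1 : ρ ≤ δ / 4 := min_le_left _ _
  have hρ2 : ρ ≤ 1 / 4 := (min_le_right _ _).trans (min_le_left _ _)
  have hρ3 : ρ ≤ k / (8 * (|M| + 1)) := (min_le_right _ _).trans (min_le_right _ _)
  set zz : ℝ → ℂ := fun t => ⟨-ρ, ρ * t⟩ with hzz
  have hzre : ∀ t, (zz t).re = -ρ := fun t => rfl
  have hzim : ∀ t, (zz t).im = ρ * t := fun t => rfl
  have hznorm : ∀ t ∈ Set.Icc (-1 : ℝ) 1, ‖zz t‖ ≤ 2 * ρ := by
    intro t ht
    have h1 := norm_le_abs_re_add_abs_im (zz t)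
    rw [hzre, hzim, abs_neg, abs_mul, abs_of_pos hρ0] at h1
    have : |t| ≤ 1 := abs_le.2 ht
    nlinarith
  have hzOm : ∀ t ∈ Set.Icc (-1 : ℝ) 1, zz t ∈ Om := by
    intro t ht
    refine ⟨?_, ?_⟩
    · have := hznorm t ht
      linarith
    · rw [hzre]; linarith
  have hzSec : ∀ t ∈ Set.Icc (-1 : ℝ) 1, zz t ∈ Sec := by
    intro t ht
    refine ⟨hzOm t ht, ?_⟩
    rw [hzre, hzim, abs_mul, abs_of_pos hρ0, neg_neg]
    have : |t| ≤ 1 := abs_le.2 ht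
    nlinarith
  -- the equations
  have hPh : ∀ t ∈ Set.Icc (-1 : ℝ) 1, ∃ a b : ℝ, |a - k / 2| < k / 8 ∧ |b| < k / 8 ∧
      -ρ * (Ph β γ κ (zz t)).re - ρ * t * (Ph β γ κ (zz t)).im = a ∧
      ρ * t * (Ph β γ κ (zz t)).re - ρ * (Ph β γ κ (zz t)).im = b := by
    intro t ht
    have h1 := hev (y := zz t) (by
      rw [dist_zero_right]
      have := hznorm t ht
      linarith) (hzSec t ht)
    rw [← Ph_mul hβ hκ hκ1 (hzOm t ht)] at h1
    refine ⟨_, _, ?_, ?_, rfl, rfl⟩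
    · have h2 := (abs_re_le_norm _).trans_lt h1
      rw [sub_re, mul_re, ofReal_re, hzre, hzim] at h2
      have e : -ρ * (Ph β γ κ (zz t)).re - ρ * t * (Ph β γ κ (zz t)).im
          = (Ph β γ κ (zz t)).re * -ρ - (Ph β γ κ (zz t)).im * (ρ * t) := by ring
      rw [e]
      exact h2
    · have h2 := (abs_im_le_norm _).trans_lt h1
      rw [sub_im, mul_im, ofReal_im, hzre, hzim, sub_zero] at h2
      have e : ρ * t * (Ph β γ κ (zz t)).re - ρ * (Ph β γ κ (zz t)).im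
          = (Ph β γ κ (zz t)).re * (ρ * t) + (Ph β γ κ (zz t)).im * -ρ := by ring
      rw [e]
      exact h2
  have hcont : ContinuousOn (fun t => (Ph β γ κ (zz t)).im) (Set.Icc (-1) 1) := by
    have h1 : ContinuousOn (fun t => Ph β γ κ (zz t)) (Set.Icc (-1) 1) := by
      refine ContinuousOn.comp (differentiableOn_Ph hβ hκ hκ1).continuousOn ?_ hzOm
      have : Continuous zz := by
        have : zz = fun t : ℝ => ((-ρ : ℝ) : ℂ) + ((ρ * t : ℝ) : ℂ) * I := by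
          funext t
          apply Complex.ext <;> simp [hzz]
        rw [this]
        fun_prop
      exact this.continuousOn
    exact continuous_im.comp_continuousOn h1
  have hm1 : 0 < (Ph β γ κ (zz (-1))).im := by
    obtain ⟨a, b, ha, hb, h1, h2⟩ := hPh (-1) (by constructor <;> norm_num)
    rw [abs_lt] at ha hb
    have : 0 < 2 * ρ * (Ph β γ κ (zz (-1))).im := by linarith
    exact (mul_pos_iff_of_pos_left (by positivity)).1 this
  have hp1 : (Ph β γ κ (zz 1)).im < 0 := by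
    obtain ⟨a, b, ha, hb, h1, h2⟩ := hPh 1 (by constructor <;> norm_num)
    rw [abs_lt] at ha hb
    have : 0 < 2 * ρ * -(Ph β γ κ (zz 1)).im := by linarith
    have := (mul_pos_iff_of_pos_left (by positivity : 0 < 2 * ρ)).1 this
    linarith
  obtain ⟨t, ht, ht0⟩ := intermediate_value_Icc' (by norm_num : (-1 : ℝ) ≤ 1) hcont
    ⟨hp1.le, hm1.le⟩
  simp only at ht0
  obtain ⟨a, b, ha, hb, h1, h2⟩ := hPh t ht
  rw [ht0, mul_zero, sub_zero] at h1
  rw [abs_lt] at ha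
  have hbig : |M| + 1 ≤ -(Ph β γ κ (zz t)).re := by
    have h3 : k / 8 < ρ * -(Ph β γ κ (zz t)).re := by linarith
    have h4 : (|M| + 1) * ρ ≤ k / 8 := by
      have : (|M| + 1) * ρ ≤ (|M| + 1) * (k / (8 * (|M| + 1))) :=
        mul_le_mul_of_nonneg_left hρ3 hM.le
      have h5 : (|M| + 1) * (k / (8 * (|M| + 1))) = k / 8 := by field_simp
      linarith
    by_contra hcon
    push Not at hcon
    have := mul_lt_mul_of_pos_left hcon hρ0
    linarith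
  refine ⟨-(Ph β γ κ (zz t)).re, ?_, ?_, zz t, hzOm t ht, ?_⟩
  · linarith [le_abs_self M]
  · linarith [abs_nonneg M]
  · apply Complex.ext
    · simp
    · simp [ht0]

end Pool.Agent.H13R2.Kep
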