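import Mathlib
import Pool.Agent.H13R2.Kep.Large
import Pool.Agent.H13R2.Kep.Deriv

namespace Pool.Agent.H13R2.Kep

open Complex Filter Topology

/-- the set of good values -/
def ZZ (β γ κ : ℝ) : Set ℝ := {μ | ∃ z ∈ Om, Ph β γ κ z = -(μ : ℂ)}

lemma Ph_eq_iff {β γ κ : ℝ} (hβ : 0 < β) (hκ : 0 < κ) (hκ1 : κ < 1) {z : ℂ} (hz : z ∈ Om)
    (μ : ℝ) : Ph β γ κ z = -(μ : ℂ) ↔
      μ * v1 β γ z * z ^ 2 * ww κ z + u1 β γ z * b1 β γ κ z = 0 := by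
  have h0 := ne_zero_of_Om hz
  have hv := v1_ne (γ := γ) hβ hz.1
  have hw := ww_ne hκ hκ1 hz
  unfold Ph
  rw [div_eq_iff (mul_ne_zero (mul_ne_zero (pow_ne_zero 2 h0) hv) hw)]
  constructor
  · intro h; rw [h]; ring
  · intro h; linear_combination h

lemma zu_root {β γ : ℝ} (hβ : 0 < β) (he : β ^ 2 + γ ^ 2 < 1) :
    ∃ z ∈ Om, u1 β γ z = 0 := by
  set s := Real.sqrt (1 - (β ^ 2 + γ ^ 2)) with hs
  have hs0 : 0 < s := Real.sqrt_pos.2 (by linarith)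
  have hss : s ^ 2 = 1 - (β ^ 2 + γ ^ 2) := Real.sq_sqrt (by linarith)
  have h1s : 0 < 1 + s := by linarith
  have h1c : ((1 : ℂ) + s) ≠ 0 := by exact_mod_cast h1s.ne'
  have hssc : (s : ℂ) ^ 2 = 1 - ((β : ℂ) ^ 2 + (γ : ℂ) ^ 2) := by exact_mod_cast hss
  refine ⟨⟨-(β / (1 + s)), -(γ / (1 + s))⟩, ⟨?_, ?_⟩, ?_⟩
  · rw [← sq_lt_one_iff₀ (norm_nonneg _), ← normSq_eq_norm_sq, normSq_mk]
    have : -(β / (1 + s)) * -(β / (1 + s)) + -(γ / (1 + s)) * -(γ / (1 + s))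
        = (β ^ 2 + γ ^ 2) / (1 + s) ^ 2 := by
      field_simp
    rw [this, div_lt_one (by positivity)]
    nlinarith
  · simp only
    have : 0 < β / (1 + s) := by positivity
    linarith
  · have hz : (⟨-(β / (1 + s)), -(γ / (1 + s))⟩ : ℂ) = -(β + I * γ) / (1 + s) := by
      rw [eq_div_iff h1c]
      apply Complex.ext
      · simp
        field_simp
      · simp
        field_simp
    rw [hz]
    unfold u1 x1 y1
    field_simp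
    linear_combination ((β : ℂ) + I * γ) * hssc - ((β : ℂ) + I * γ) * γ ^ 2 * I_sq

/-- `ZZ` is open and contains all small positive numbers -/
lemma isOpen_image {β γ κ : ℝ} (hβ : 0 < β) (hκ : 0 < κ) (hκ1 : κ < 1) :
    IsOpen (Ph β γ κ '' Om) := by
  have han : AnalyticOnNhd ℂ (Ph β γ κ) Om :=
    (differentiableOn_Ph hβ hκ hκ1).analyticOnNhd isOpen_Om
  rcases han.is_constant_or_isOpen isPreconnected_Om with ⟨w, hw⟩ | h
  · exfalso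
    obtain ⟨μ, h0, h1, z, hz, hzμ⟩ := large_mu (γ := γ) hβ hκ hκ1 0
    obtain ⟨μ', h0', h1', z', hz', hzμ'⟩ := large_mu (γ := γ) hβ hκ hκ1 μ
    rw [hw z hz] at hzμ
    rw [hw z' hz'] at hzμ'
    rw [hzμ] at hzμ'
    have : (μ : ℂ) = μ' := neg_injective hzμ'
    have : μ = μ' := by exact_mod_cast this
    linarith
  · exact h Om subset_rfl isOpen_Om

lemma isOpen_ZZ {β γ κ : ℝ} (hβ : 0 < β) (hκ : 0 < κ) (hκ1 : κ < 1) :
    IsOpen (ZZ β γ κ) := by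
  have h := isOpen_image (γ := γ) hβ hκ hκ1
  have : ZZ β γ κ = (fun μ : ℝ => -(μ : ℂ)) ⁻¹' (Ph β γ κ '' Om) := rfl
  rw [this]
  exact h.preimage (by fun_prop)

lemma small_ZZ {β γ κ : ℝ} (hβ : 0 < β) (he : β ^ 2 + γ ^ 2 < 1) (hκ : 0 < κ) (hκ1 : κ < 1) :
    (0 : ℝ) ∈ ZZ β γ κ := by
  obtain ⟨z, hz, hu⟩ := zu_root hβ he
  refine ⟨z, hz, ?_⟩
  rw [Ph_eq_iff hβ hκ hκ1 hz, hu]
  simp

lemma normq1 {κ : ℝ} (hκ : 0 < κ) (hκ1 : κ < 1) {z : ℂ} (hz : ‖z‖ ≤ 1) : ‖q1 κ z‖ ≤ 2 := by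
  have hx : ‖x1 z‖ ≤ 1 := by
    unfold x1
    rw [norm_div]
    have h1 : ‖z ^ 2 + 1‖ ≤ 2 := by
      calc ‖z ^ 2 + 1‖ ≤ ‖z ^ 2‖ + ‖(1 : ℂ)‖ := norm_add_le _ _
        _ ≤ 2 := by rw [norm_pow, norm_one]; nlinarith [norm_nonneg z]
    rw [RCLike.norm_ofNat]
    linarith
  have hy : ‖y1 z‖ ≤ 1 := by
    unfold y1
    rw [norm_div, norm_mul, norm_neg, norm_I, one_mul]
    have h1 : ‖z ^ 2 - 1‖ ≤ 2 := by
      calc ‖z ^ 2 - 1‖ ≤ ‖z ^ 2‖ + ‖(1 : ℂ)‖ := norm_sub_le _ _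
        _ ≤ 2 := by rw [norm_pow, norm_one]; nlinarith [norm_nonneg z]
    rw [RCLike.norm_ofNat]
    linarith
  unfold q1
  have h2 : ‖(1 - κ : ℂ)‖ ≤ 1 := by
    have : (1 - κ : ℂ) = ((1 - κ : ℝ) : ℂ) := by push_cast; ring
    rw [this, norm_real, Real.norm_eq_abs, abs_le]
    constructor <;> linarith
  calc ‖x1 z ^ 2 + (1 - κ) * y1 z ^ 2‖ ≤ ‖x1 z ^ 2‖ + ‖(1 - κ) * y1 z ^ 2‖ := norm_add_le _ _
    _ = ‖x1 z‖ ^ 2 + ‖(1 - κ : ℂ)‖ * ‖y1 z‖ ^ 2 := by rw [norm_pow, norm_mul, norm_pow]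
    _ ≤ 1 ^ 2 + 1 * 1 ^ 2 := by gcongr
    _ = 2 := by norm_num

lemma conj_quot {β γ κ : ℝ} {z : ℂ} (hz : z ≠ 0) :
    nB β γ κ ((starRingEnd ℂ) z)⁻¹ * ((starRingEnd ℂ) z) ^ 12 = (starRingEnd ℂ) (nB β γ κ z) ∧
    nA β γ κ ((starRingEnd ℂ) z)⁻¹ * ((starRingEnd ℂ) z) ^ 12 = (starRingEnd ℂ) (nA β γ κ z) := by
  have hz' : (starRingEnd ℂ) z ≠ 0 := by simpa using hz
  set w := (starRingEnd ℂ) z with hw
  have hx : x1 w⁻¹ * w ^ 2 = (starRingEnd ℂ) (x1 z) := by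
    unfold x1
    simp only [map_div₀, map_add, map_pow, map_one, map_ofNat, ← hw]
    field_simp
    ring
  have hy : y1 w⁻¹ * w ^ 2 = (starRingEnd ℂ) (y1 z) := by
    unfold y1
    simp only [map_div₀, map_mul, map_sub, map_neg, map_pow, map_one, map_ofNat, ← hw, conj_I]
    field_simp
    ring
  have hu : u1 β γ w⁻¹ * w ^ 2 = (starRingEnd ℂ) (u1 β γ z) := by
    unfold u1
    simp only [map_add, map_mul, conj_ofReal, ← hx, ← hy, ← hw]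
    field_simp
  have hv : v1 β γ w⁻¹ * w ^ 2 = (starRingEnd ℂ) (v1 β γ z) := by
    unfold v1
    simp only [map_sub, map_mul, conj_ofReal, ← hx, ← hy]
    ring
  have hb : b1 β γ κ w⁻¹ * w ^ 4 = (starRingEnd ℂ) (b1 β γ κ z) := by
    unfold b1
    simp only [map_add, map_sub, map_mul, map_one, conj_ofReal, ← hx, ← hy, ← hw]
    field_simp
  have hq : q1 κ w⁻¹ * w ^ 4 = (starRingEnd ℂ) (q1 κ z) := by
    unfold q1
    simp only [map_add, map_sub, map_mul, map_pow, map_one, conj_ofReal, ← hx, ← hy]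
    ring
  constructor
  · unfold nB
    rw [map_pow, map_mul, ← hu, ← hb]
    ring
  · unfold nA
    rw [map_mul, map_pow, map_mul, ← hv, ← hq, ← hw]
    field_simp

end Pool.Agent.H13R2.Kep
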