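import Mathlib
import Pool.Agent.H13R2.Kep.Exist

namespace Pool.Agent.H13R2.Kep

open Complex Filter Topology

lemma closure_bad {β γ κ t : ℝ} (hβ : 0 < β) (hγ : 0 < γ) (he : β ^ 2 + γ ^ 2 < 1) (hκ : 0 < κ)
    (hκ1 : κ < 1) (ht : 0 < t) (htc : t ∈ closure (ZZ β γ κ)) (htn : t ∉ ZZ β γ κ) :
    Bad β γ κ t := by
  obtain ⟨μ, hμ, hlim⟩ := mem_closure_iff_seq_limit.1 htc
  choose z hz hzμ using hμ
  set W : ℕ → ℂ := fun n => z n * ww κ (z n) with hWdef
  have hz0n : ∀ n, z n ≠ 0 := fun n => ne_zero_of_Om (hz n)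
  have hWsq : ∀ n, W n ^ 2 = q1 κ (z n) := by
    intro n
    have := hz0n n
    simp only [hWdef]
    rw [mul_pow, ww_sq]; field_simp
  have hre : ∀ n, 0 < (W n).re * (z n).re + (W n).im * (z n).im := by
    intro n
    have h1 := ww_re hκ hκ1 (hz n)
    have h2 : 0 < (z n).re ^ 2 + (z n).im ^ 2 := by
      have := (hz n).2
      nlinarith [sq_nonneg (z n).im, mul_pos_of_neg_of_neg this this]
    have : (W n).re * (z n).re + (W n).im * (z n).im
        = ((z n).re ^ 2 + (z n).im ^ 2) * (ww κ (z n)).re := by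
      simp only [hWdef]
      rw [mul_re, mul_im]; ring
    rw [this]; positivity
  have heq : ∀ n, μ n * v1 β γ (z n) * z n * W n + u1 β γ (z n) * b1 β γ κ (z n) = 0 := by
    intro n
    have := (Ph_eq_iff hβ hκ hκ1 (hz n) (μ n)).1 (hzμ n)
    rw [← this]
    simp only [hWdef]
    ring
  have hWn : ∀ n, ‖W n‖ ≤ 2 := by
    intro n
    have h1 := normq1 hκ hκ1 (hz n).1.le
    rw [← hWsq, norm_pow] at h1
    nlinarith [norm_nonneg (W n)]
  have hK : IsCompact (Metric.closedBall (0 : ℂ) 1 ×ˢ Metric.closedBall (0 : ℂ) 2) :=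
    (isCompact_closedBall _ _).prod (isCompact_closedBall _ _)
  obtain ⟨⟨z', W'⟩, hmem, φ, hφ, hconv⟩ := hK.tendsto_subseq (x := fun n => (z n, W n))
    (fun n => ⟨by simpa using (hz n).1.le, by simpa using hWn n⟩)
  have hcz : Tendsto (fun n => z (φ n)) atTop (𝓝 z') := (continuous_fst.tendsto _).comp hconv
  have hcW : Tendsto (fun n => W (φ n)) atTop (𝓝 W') := (continuous_snd.tendsto _).comp hconv
  have hcμ : Tendsto (fun n => μ (φ n)) atTop (𝓝 t) := hlim.comp hφ.tendsto_atTop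
  have hcμ' : Tendsto (fun n => (μ (φ n) : ℂ)) atTop (𝓝 (t : ℂ)) :=
    (continuous_ofReal.tendsto _).comp hcμ
  have hcv := ((cont_v1 β γ).tendsto z').comp hcz
  have hcu := ((cont_u1 β γ).tendsto z').comp hcz
  have hcb := ((cont_b1 β γ κ).tendsto z').comp hcz
  have hcq := ((cont_q1 κ).tendsto z').comp hcz
  have L1 : W' ^ 2 = q1 κ z' := by
    refine tendsto_nhds_unique (hcW.pow 2) (hcq.congr ?_)
    intro n
    exact (hWsq (φ n)).symm
  have L2 : t * v1 β γ z' * z' * W' + u1 β γ z' * b1 β γ κ z' = 0 := by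
    refine tendsto_nhds_unique ((((hcμ'.mul hcv).mul hcz).mul hcW).add (hcu.mul hcb))
      ((tendsto_const_nhds (x := (0 : ℂ))).congr ?_)
    intro n
    exact (heq (φ n)).symm
  have hczre : Tendsto (fun n => (z (φ n)).re) atTop (𝓝 z'.re) :=
    (continuous_re.tendsto _).comp hcz
  have hczim : Tendsto (fun n => (z (φ n)).im) atTop (𝓝 z'.im) :=
    (continuous_im.tendsto _).comp hcz
  have L3 : 0 ≤ W'.re * z'.re + W'.im * z'.im := by
    have h1 : Tendsto (fun n => (W (φ n)).re * (z (φ n)).re + (W (φ n)).im * (z (φ n)).im) atTop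
        (𝓝 (W'.re * z'.re + W'.im * z'.im)) :=
      (((continuous_re.tendsto _).comp hcW).mul hczre).add
        (((continuous_im.tendsto _).comp hcW).mul hczim)
    exact ge_of_tendsto' h1 (fun n => (hre (φ n)).le)
  have L4 : z'.re ≤ 0 := le_of_tendsto' hczre (fun n => (hz (φ n)).2.le)
  have L5 : ‖z'‖ ≤ 1 := by simpa using hmem.1
  have hz0 : z' ≠ 0 := by
    rintro rfl
    rw [mul_zero, zero_mul, zero_add] at L2
    have hu0 : u1 β γ 0 = (β + I * γ) / 2 := by unfold u1 x1 y1; ring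
    have hb0 : b1 β γ κ 0 = κ * I / 4 := by unfold b1 x1 y1; ring
    rcases mul_eq_zero.1 L2 with h | h
    · rw [hu0] at h
      have := congrArg re h
      simp at this
      exact hβ.ne' this
    · rw [hb0] at h
      have : (κ : ℂ) ≠ 0 := by exact_mod_cast hκ.ne'
      simp [this] at h
  have hn : 0 < normSq z' := normSq_pos.2 hz0
  set w : ℂ := W' / z' with hw
  have hW' : W' = z' * w := by rw [hw]; field_simp
  have hw2 : w ^ 2 = q1 κ z' / z' ^ 2 := by rw [hw, div_pow, L1]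
  have hwre : 0 ≤ w.re := by
    rw [hw, div_re, ← add_div]
    exact div_nonneg L3 hn.le
  have hweq : t * v1 β γ z' * z' ^ 2 * w + u1 β γ z' * b1 β γ κ z' = 0 := by
    rw [← L2, hW']; ring
  rcases L5.lt_or_eq with h1 | h1
  · rcases L4.lt_or_eq with h2 | h2
    · exfalso
      apply htn
      have hzO : z' ∈ Om := ⟨h1, h2⟩
      refine ⟨z', hzO, ?_⟩
      rw [Ph_eq_iff hβ hκ hκ1 hzO]
      have : w = ww κ z' := eq_rt_of_sq (q_slit hκ hκ1 hzO) hw2 hwre
      rw [← this]
      exact hweq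
    · refine axis_bad hβ hγ he hκ hκ1 ht hz0 h1 h2 hw2 hwre ?_ hweq
      intro him
      have hcw : Tendsto (fun n => ww κ (z (φ n))) atTop (𝓝 w) := by
        refine (hcW.div hcz hz0).congr ?_
        intro n
        have := hz0n (φ n)
        simp only [hWdef, Pi.div_apply]
        field_simp
      have hcwi : Tendsto (fun n => (ww κ (z (φ n))).im) atTop (𝓝 w.im) :=
        (continuous_im.tendsto _).comp hcw
      refine le_of_tendsto hcwi ?_
      filter_upwards [hczim.eventually (gt_mem_nhds him)] with n hn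
      exact (ww_im_neg hκ hκ1 (hz (φ n)) hn).le
  · exfalso
    obtain ⟨X, Y, hzXY⟩ : ∃ X Y : ℝ, z' = X + I * Y := ⟨z'.re, z'.im, by
      rw [mul_comm]; exact (re_add_im z').symm⟩
    have hX : z'.re = X := by rw [hzXY]; simp
    have hY : z'.im = Y := by rw [hzXY]; simp
    have hc : X ^ 2 + Y ^ 2 = 1 := by
      have : normSq z' = 1 := by rw [normSq_eq_norm_sq, h1]; norm_num
      rw [normSq_apply, hX, hY] at this
      linarith
    rw [hX] at L4
    have hx : x1 z' = z' * X := by rw [hzXY]; exact x1_circ hc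
    have hy : y1 z' = z' * Y := by rw [hzXY]; exact y1_circ hc
    set q : ℝ := X ^ 2 + (1 - κ) * Y ^ 2 with hqdef
    have hq : 0 < q := by
      have h1 : 0 < 1 - κ := by linarith
      have : q = (1 - κ) + κ * X ^ 2 := by rw [hqdef]; linear_combination (1 - κ) * hc
      rw [this]
      positivity
    have hwq : w ^ 2 = (q : ℂ) := by
      rw [hw2, div_eq_iff (pow_ne_zero 2 hz0)]
      unfold q1
      rw [hx, hy, hqdef]
      push_cast
      ring
    have hwre2 : w.re ^ 2 - w.im ^ 2 = q := by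
      have := congrArg re hwq
      rw [pow_two, mul_re, ofReal_re] at this
      linarith
    have hwim2 : w.re * w.im = 0 := by
      have := congrArg im hwq
      rw [pow_two, mul_im, ofReal_im] at this
      linarith
    have hwre3 : 0 < w.re := by
      rcases hwre.lt_or_eq with h | h
      · exact h
      · rw [← h] at hwre2
        nlinarith [sq_nonneg w.im]
    have hwim3 : w.im = 0 := by
      rcases mul_eq_zero.1 hwim2 with h | h
      · linarith
      · exact h
    obtain ⟨ω, hω, hωw⟩ : ∃ ω : ℝ, 0 < ω ∧ w = ω := ⟨w.re, hwre3, by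
      apply Complex.ext <;> simp [hwim3]⟩
    have hreal : t * (γ * X - β * Y) * ω
        + (1 + β * X + γ * Y) * (γ * X - (1 - κ) * β * Y + κ * X * Y) = 0 := by
      have h3 : z' ^ 3 * ((t * (γ * X - β * Y) * ω
        + (1 + β * X + γ * Y) * (γ * X - (1 - κ) * β * Y + κ * X * Y) : ℝ) : ℂ) = 0 := by
        rw [← hweq, hωw]
        unfold u1 v1 b1
        rw [hx, hy]
        push_cast
        ring
      have h4 := (mul_eq_zero.1 h3).resolve_left (pow_ne_zero 3 hz0)
      exact_mod_cast h4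
    obtain ⟨s1, s2, s3, s4⟩ := circ_sign hβ hγ he hκ hκ1 hω ht L4 hc hreal
    have hu := u_pos he hc
    have hN := N_neg hβ hκ hκ1 s1 s2 hc hu s3 s4
    obtain ⟨d, hd0, hd⟩ := deriv_ne hκ hκ1 hc hu s3.ne s4.ne' hN.ne
    rw [← hzXY] at hd
    have hsmall := hasDerivAtFilter_iff_isLittleO.1 hd
    -- the two sequences
    have hcc : Tendsto (fun n => ((starRingEnd ℂ) (z (φ n)))⁻¹) atTop (𝓝 z') := by
      have h5 : Tendsto (fun n => ((starRingEnd ℂ) (z (φ n)))⁻¹) atTop
          (𝓝 ((starRingEnd ℂ) z')⁻¹) :=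
        ((continuous_conj.tendsto _).comp hcz).inv₀ (by simpa using hz0)
      have h6 : ((starRingEnd ℂ) z')⁻¹ = z' := by
        rw [inv_eq_iff_eq_inv, Complex.inv_def, normSq_eq_norm_sq, h1]
        simp
      rwa [h6] at h5
    have hpair := hcz.prodMk_nhds hcc
    have hev := hpair.eventually (hsmall.def (c := ‖d‖ / 2) (by positivity))
    obtain ⟨n, hn'⟩ := hev.exists
    simp only at hn'
    -- values
    have hA : nA β γ κ (z (φ n)) ≠ 0 := by
      unfold nA
      have h5 := v1_ne (γ := γ) hβ (hz (φ n)).1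
      have h6 := ww_ne hκ hκ1 (hz (φ n))
      have h7 : q1 κ (z (φ n)) ≠ 0 := by
        rw [← hWsq]
        exact pow_ne_zero 2 (mul_ne_zero (hz0n _) h6)
      exact mul_ne_zero (pow_ne_zero 2 (mul_ne_zero h5 (hz0n _))) h7
    have hB : nB β γ κ (z (φ n)) = (μ (φ n) : ℂ) ^ 2 * nA β γ κ (z (φ n)) := by
      unfold nA nB
      rw [← hWsq]
      have := heq (φ n)
      have h8 : u1 β γ (z (φ n)) * b1 β γ κ (z (φ n))
          = -(μ (φ n) * v1 β γ (z (φ n)) * z (φ n) * W (φ n)) := by linear_combination this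
      rw [h8]
      ring
    obtain ⟨c1, c2⟩ := conj_quot (β := β) (γ := γ) (κ := κ) (hz0n (φ n))
    have hz0c : (starRingEnd ℂ) (z (φ n)) ≠ 0 := by simpa using hz0n (φ n)
    have hA' : nA β γ κ ((starRingEnd ℂ) (z (φ n)))⁻¹ ≠ 0 := by
      intro h
      rw [h, zero_mul] at c2
      exact hA (by simpa using c2.symm)
    have hB' : nB β γ κ ((starRingEnd ℂ) (z (φ n)))⁻¹
        = (μ (φ n) : ℂ) ^ 2 * nA β γ κ ((starRingEnd ℂ) (z (φ n)))⁻¹ := by
      have h9 : nB β γ κ ((starRingEnd ℂ) (z (φ n)))⁻¹ * ((starRingEnd ℂ) (z (φ n))) ^ 12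
          = ((μ (φ n) : ℂ) ^ 2 * nA β γ κ ((starRingEnd ℂ) (z (φ n)))⁻¹)
            * ((starRingEnd ℂ) (z (φ n))) ^ 12 := by
        rw [c1, hB, map_mul, map_pow, conj_ofReal, ← c2]
        ring
      exact mul_right_cancel₀ (pow_ne_zero 12 hz0c) h9
    rw [hB, hB', mul_div_assoc, mul_div_assoc, div_self hA, div_self hA', sub_self, zero_sub,
      norm_neg, norm_smul] at hn'
    have hne : z (φ n) - ((starRingEnd ℂ) (z (φ n)))⁻¹ ≠ 0 := by
      intro h
      have h10 : z (φ n) = ((starRingEnd ℂ) (z (φ n)))⁻¹ := by linear_combination h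
      have h11 := congrArg norm h10
      rw [norm_inv, RCLike.norm_conj] at h11
      have h12 := (hz (φ n)).1
      have h13 : 0 < ‖z (φ n)‖ := norm_pos_iff.2 (hz0n _)
      have h14 : 1 < ‖z (φ n)‖⁻¹ := (one_lt_inv₀ h13).2 h12
      linarith
    have hp1 : 0 < ‖z (φ n) - ((starRingEnd ℂ) (z (φ n)))⁻¹‖ := norm_pos_iff.2 hne
    have hp2 : 0 < ‖d‖ := norm_pos_iff.2 hd0
    nlinarith [mul_pos hp1 hp2]

end Pool.Agent.H13R2.Kep
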