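import Mathlib
import Pool.Agent.H13R2.Kep.Clos

namespace Pool.Agent.H13R2.Kep

open Complex Filter Topology

lemma root_of_ZZ {β γ κ s : ℝ} (hβ : 0 < β) (hκ : 0 < κ) (hκ1 : κ < 1)
    (hs : s ∈ ZZ β γ κ) :
    ∃ z : ℂ, z ≠ 0 ∧ ‖z‖ < 1 ∧ (s : ℂ) ^ 2 * nA β γ κ z = nB β γ κ z := by
  obtain ⟨z, hz, h⟩ := hs
  rw [Ph_eq_iff hβ hκ hκ1 hz] at h
  have h0 := ne_zero_of_Om hz
  refine ⟨z, h0, hz.1, ?_⟩
  unfold nA nB
  have h8 : u1 β γ z * b1 β γ κ z = -(s * v1 β γ z * z ^ 2 * ww κ z) := by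
    linear_combination h
  have hW : (z * ww κ z) ^ 2 = q1 κ z := by
    rw [mul_pow, ww_sq]; field_simp
  rw [h8, ← hW]
  ring

lemma root_of_Bad {β γ κ s : ℝ} (hβ : 0 < β) (hs : Bad β γ κ s) :
    ∃ z : ℂ, z ≠ 0 ∧ ‖z‖ < 1 ∧ (s : ℂ) ^ 2 * nA β γ κ z = nB β γ κ z := by
  obtain ⟨C, hC1, hκC, hR, hI, hE⟩ := hs
  set h : ℝ := Real.sqrt (C ^ 2 - 1) with hh
  have hh2 : h ^ 2 = C ^ 2 - 1 := Real.sq_sqrt (by nlinarith)
  have hh0 : 0 < h := Real.sqrt_pos.2 (by nlinarith)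
  have hhC : h < C := by nlinarith
  have hprod : (C - h) * (C + h) = 1 := by linarith
  have hpos : 0 < C - h := by linarith
  have hlt : C - h < 1 := by nlinarith
  set z : ℂ := -I * (C - h) with hz
  have hz0 : z ≠ 0 := by
    have : ((C - h : ℝ) : ℂ) ≠ 0 := by exact_mod_cast hpos.ne'
    rw [hz]
    push_cast at this
    exact mul_ne_zero (neg_ne_zero.2 I_ne_zero) this
  have hzn : ‖z‖ < 1 := by
    have : z = -I * ((C - h : ℝ) : ℂ) := by rw [hz]; push_cast; ring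
    rw [this, norm_mul, norm_neg, norm_I, one_mul, norm_real, Real.norm_eq_abs, abs_of_pos hpos]
    exact hlt
  have hh2c : (h : ℂ) ^ 2 = (C : ℂ) ^ 2 - 1 := by exact_mod_cast hh2
  -- `x = I h`, `y = -C`
  have hx : x1 z = z * (I * h) := by
    rw [hz]; unfold x1
    linear_combination ((C - h) ^ 2 / 2 + (C - h) * h : ℂ) * I_sq + (1 / 2 : ℂ) * hh2c
  have hy : y1 z = z * (-C) := by
    rw [hz]; unfold y1
    linear_combination (-I * (C - h) ^ 2 / 2 : ℂ) * I_sq + (I / 2 : ℂ) * hh2c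
  refine ⟨z, hz0, hzn, ?_⟩
  have hRc : (β : ℂ) ^ 2 * (1 - κ) * C * (C - γ)
      + (C ^ 2 - 1) * (κ * C - γ) * ((β ^ 2 + γ ^ 2) * C - γ) = 0 := by
    unfold RR at hR
    exact_mod_cast hR
  set J : ℝ := II β γ κ C with hJ
  have hJc : (J : ℂ) = (γ - κ * C) * (C - γ) + (1 - κ) * C * ((β ^ 2 + γ ^ 2) * C - γ) := by
    rw [hJ]; unfold II; push_cast; ring
  have hEc : (s : ℂ) ^ 2 * (κ * C ^ 2 - 1) * (β ^ 2 * C ^ 2 + γ ^ 2 * (C ^ 2 - 1)) ^ 2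
      = β ^ 2 * (C ^ 2 - 1) * J ^ 2 := by exact_mod_cast hE
  -- multiply by the conjugate of `v`
  set vb : ℂ := β * C - I * γ * h with hvb
  have hvb0 : vb ≠ 0 := by
    intro h0
    have := congrArg re h0
    simp [hvb] at this
    rcases this with h1 | h1
    · exact hβ.ne' h1
    · linarith
  have key : ∀ (ub : ℂ), ub = (1 + β * (I * h) + γ * (-C))
        * (γ * (I * h) - (1 - κ) * β * (-C) + κ * (I * h) * (-C)) →
      vb * ub = I * β * h * J := by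
    intro ub hub
    rw [hub, hvb, hJc]
    linear_combination (I * (β * C * γ * h ^ 3 * κ - β * γ ^ 2 * h ^ 3) + β ^ 2 * C * γ * h ^ 2 * κ
      - β ^ 2 * C ^ 2 * h ^ 2 * κ + C * γ * h ^ 2 * κ + C * γ ^ 3 * h ^ 2
      - C ^ 2 * γ ^ 2 * h ^ 2 * κ - γ ^ 2 * h ^ 2 : ℂ) * I_sq
      + (-I * β * C * γ * h * κ + I * β * γ ^ 2 * h - β ^ 2 * C * γ * κ + β ^ 2 * C ^ 2 * κ
      - C * γ * κ - C * γ ^ 3 + C ^ 2 * γ ^ 2 * κ + γ ^ 2 : ℂ) * hh2c + hRc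
  have k1 := key _ rfl
  set uu : ℂ := (1 + β * (I * h) + γ * (-C))
        * (γ * (I * h) - (1 - κ) * β * (-C) + κ * (I * h) * (-C)) with huu
  have hvv : (γ * (I * h) - β * (-C)) * vb = β ^ 2 * C ^ 2 + γ ^ 2 * (C ^ 2 - 1) := by
    rw [hvb]
    linear_combination (-(γ : ℂ) ^ 2 * h ^ 2) * I_sq + (γ : ℂ) ^ 2 * hh2c
  have hqq : (I * h) ^ 2 + (1 - κ) * (-C : ℂ) ^ 2 = -(κ * C ^ 2 - 1) := by
    linear_combination (h : ℂ) ^ 2 * I_sq - hh2c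
  have h2 : (s : ℂ) ^ 2 * (γ * (I * h) - β * (-C)) ^ 2 * ((I * h) ^ 2 + (1 - κ) * (-C : ℂ) ^ 2)
      = uu ^ 2 := by
    have h3 : vb ^ 2 * ((s : ℂ) ^ 2 * (γ * (I * h) - β * (-C)) ^ 2
        * ((I * h) ^ 2 + (1 - κ) * (-C : ℂ) ^ 2)) = vb ^ 2 * uu ^ 2 := by
      have h4 : vb ^ 2 * uu ^ 2 = (vb * uu) ^ 2 := by ring
      have h5 : vb ^ 2 * ((s : ℂ) ^ 2 * (γ * (I * h) - β * (-C)) ^ 2
        * ((I * h) ^ 2 + (1 - κ) * (-C : ℂ) ^ 2))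
        = (s : ℂ) ^ 2 * ((γ * (I * h) - β * (-C)) * vb) ^ 2
          * ((I * h) ^ 2 + (1 - κ) * (-C : ℂ) ^ 2) := by ring
      rw [h4, h5, k1, hvv, hqq]
      linear_combination -hEc - (β : ℂ) ^ 2 * h ^ 2 * J ^ 2 * I_sq + (β : ℂ) ^ 2 * J ^ 2 * hh2c
    exact mul_left_cancel₀ (pow_ne_zero 2 hvb0) h3
  have e1 : nA β γ κ z = z ^ 6 * ((γ * (I * h) - β * (-C)) ^ 2
      * ((I * h) ^ 2 + (1 - κ) * (-C : ℂ) ^ 2)) := by
    unfold nA v1 q1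
    rw [hx, hy]
    ring
  have e2 : nB β γ κ z = z ^ 6 * uu ^ 2 := by
    unfold nB u1 b1
    rw [hx, hy, huu]
    ring
  rw [e1, e2, ← h2]
  ring

/-- **Lemma G**: a root inside the punctured unit disc -/
theorem exists_root {β γ κ s : ℝ} (hβ : 0 < β) (hγ : 0 < γ) (he : β ^ 2 + γ ^ 2 < 1)
    (hκ : 0 < κ) (hκ1 : κ < 1) (hs : 0 < s) :
    ∃ z : ℂ, z ≠ 0 ∧ ‖z‖ < 1 ∧ (s : ℂ) ^ 2 * nA β γ κ z = nB β γ κ z := by
  by_cases hb : Bad β γ κ s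
  · exact root_of_Bad hβ hb
  apply root_of_ZZ hβ hκ hκ1
  have hopen := isOpen_ZZ (γ := γ) hβ hκ hκ1
  by_cases hex : ∃ b, 0 < b ∧ b ≤ s ∧ Bad β γ κ b
  · obtain ⟨b, hb0, hbs, hbb⟩ := hex
    have hcl : closure (ZZ β γ κ) ∩ Set.Ici s ⊆ ZZ β γ κ := by
      rintro t ⟨ht1, ht2⟩
      by_contra htn
      have ht0 : 0 < t := lt_of_lt_of_le hs ht2
      have hbt := closure_bad hβ hγ he hκ hκ1 ht0 ht1 htn
      have := Bad_unique hβ hγ he hκ hκ1 hb0 ht0 hbb hbt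
      subst this
      have : b = s := le_antisymm hbs ht2
      subst this
      exact hb hbb
    have hne : (Set.Ici s ∩ ZZ β γ κ).Nonempty := by
      obtain ⟨μ, h1, -, h2⟩ := large_mu (γ := γ) hβ hκ hκ1 s
      exact ⟨μ, h1.le, h2⟩
    exact isPreconnected_Ici.subset_of_closure_inter_subset hopen hne hcl Set.self_mem_Ici
  · have hcl : closure (ZZ β γ κ) ∩ Set.Icc 0 s ⊆ ZZ β γ κ := by
      rintro t ⟨ht1, ht2, ht3⟩
      by_contra htn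
      rcases ht2.lt_or_eq with h0 | h0
      · exact hex ⟨t, h0, ht3, closure_bad hβ hγ he hκ hκ1 h0 ht1 htn⟩
      · rw [← h0] at htn
        exact htn (small_ZZ hβ he hκ hκ1)
    have hne : (Set.Icc 0 s ∩ ZZ β γ κ).Nonempty :=
      ⟨0, ⟨le_rfl, hs.le⟩, small_ZZ hβ he hκ hκ1⟩
    exact isPreconnected_Icc.subset_of_closure_inter_subset hopen hne hcl ⟨hs.le, le_rfl⟩

end Pool.Agent.H13R2.Kep
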