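import Mathlib
import Pool.Agent.H13R2.Kep.Root

namespace Pool.Agent.H13R2.Kep

open Complex Polynomial

/-- algebraic form of the stationarity equations -/
def Sol (c β γ R : ℝ) : Set (ℝ × ℝ × ℝ × ℝ) :=
  {t | t.1 ^ 2 + t.2.1 ^ 2 = 1 ∧ t.2.2.1 ^ 2 + t.2.2.2 ^ 2 = 1 ∧
    t.2.2.2 * t.1 = c * t.2.2.1 * t.2.1 ∧
    γ * t.1 - β * t.2.1 = R * (1 + β * t.1 + γ * t.2.1)
      * (t.2.2.1 * (t.2.1 + γ) - c * t.2.2.2 * (t.1 + β))}

lemma par_unit {a b P Q P' Q' : ℝ} (h : 0 < a ^ 2 + b ^ 2) (h1 : Q * a = b * P)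
    (h2 : Q' * a = b * P') (n : P ^ 2 + Q ^ 2 = 1) (n' : P' ^ 2 + Q' ^ 2 = 1) :
    (P' = P ∧ Q' = Q) ∨ (P' = -P ∧ Q' = -Q) := by
  have h3 : P * Q' - P' * Q = 0 := by
    have ha : a * (P * Q' - P' * Q) = 0 := by linear_combination P * h2 - P' * h1
    have hb : b * (P * Q' - P' * Q) = 0 := by linear_combination Q * h2 - Q' * h1
    have : (a ^ 2 + b ^ 2) * (P * Q' - P' * Q) = 0 := by linear_combination a * ha + b * hb
    exact (mul_eq_zero.1 this).resolve_left h.ne'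
  have h4 : (P * P' + Q * Q') ^ 2 = 1 := by
    have : (P * P' + Q * Q') ^ 2 + (P * Q' - P' * Q) ^ 2 = (P ^ 2 + Q ^ 2) * (P' ^ 2 + Q' ^ 2) := by
      ring
    rw [h3, n, n'] at this
    linarith
  have h5 : (P * P' + Q * Q' - 1) * (P * P' + Q * Q' + 1) = 0 := by linear_combination h4
  rcases mul_eq_zero.1 h5 with h6 | h6
  · left
    have h7 : (P' - P) ^ 2 + (Q' - Q) ^ 2 = 0 := by linear_combination n + n' - 2 * h6
    constructor
    · have : (P' - P) ^ 2 = 0 := by nlinarith [sq_nonneg (P' - P), sq_nonneg (Q' - Q)]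
      have := pow_eq_zero_iff (two_ne_zero) |>.1 this
      linarith
    · have : (Q' - Q) ^ 2 = 0 := by nlinarith [sq_nonneg (P' - P), sq_nonneg (Q' - Q)]
      have := pow_eq_zero_iff (two_ne_zero) |>.1 this
      linarith
  · right
    have h7 : (P' + P) ^ 2 + (Q' + Q) ^ 2 = 0 := by linear_combination n + n' + 2 * h6
    constructor
    · have : (P' + P) ^ 2 = 0 := by nlinarith [sq_nonneg (P' + P), sq_nonneg (Q' + Q)]
      have := pow_eq_zero_iff (two_ne_zero) |>.1 this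
      linarith
    · have : (Q' + Q) ^ 2 = 0 := by nlinarith [sq_nonneg (P' + P), sq_nonneg (Q' + Q)]
      have := pow_eq_zero_iff (two_ne_zero) |>.1 this
      linarith

/-- the degree-12 polynomial -/
noncomputable def PP (β γ κ s : ℝ) : ℂ[X] :=
  C ((s : ℂ) ^ 2) * (((C (γ : ℂ) * (C (1 / 2) * (X ^ 2 + 1)) - C (β : ℂ) * (C (-I / 2) * (X ^ 2 - 1)))
      * X) ^ 2
    * ((C (1 / 2) * (X ^ 2 + 1)) ^ 2 + C (1 - κ : ℂ) * (C (-I / 2) * (X ^ 2 - 1)) ^ 2))
  - ((X + C (β : ℂ) * (C (1 / 2) * (X ^ 2 + 1)) + C (γ : ℂ) * (C (-I / 2) * (X ^ 2 - 1)))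
    * (X * (C (γ : ℂ) * (C (1 / 2) * (X ^ 2 + 1))
        - C ((1 - κ) * β : ℂ) * (C (-I / 2) * (X ^ 2 - 1)))
      + C (κ : ℂ) * (C (1 / 2) * (X ^ 2 + 1)) * (C (-I / 2) * (X ^ 2 - 1)))) ^ 2

lemma PP_eval (β γ κ s : ℝ) (z : ℂ) :
    (PP β γ κ s).eval z = (s : ℂ) ^ 2 * nA β γ κ z - nB β γ κ z := by
  unfold PP nA nB u1 v1 b1 q1 x1 y1
  simp only [eval_sub, eval_add, eval_mul, eval_pow, eval_C, eval_X, eval_one]
  ring

lemma PP_deg (β γ κ s : ℝ) : (PP β γ κ s).natDegree ≤ 12 := by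
  unfold PP
  compute_degree

lemma PP_ne {β γ κ s : ℝ} (hβ : 0 < β) (hκ : 0 < κ) : PP β γ κ s ≠ 0 := by
  intro h
  have h1 := PP_eval β γ κ s 0
  rw [h, eval_zero] at h1
  have hu0 : u1 β γ 0 = (β + I * γ) / 2 := by unfold u1 x1 y1; ring
  have hb0 : b1 β γ κ 0 = κ * I / 4 := by unfold b1 x1 y1; ring
  have hA0 : nA β γ κ 0 = 0 := by unfold nA; ring
  have hB0 : nB β γ κ 0 ≠ 0 := by
    unfold nB
    rw [hu0, hb0]
    apply pow_ne_zero
    apply mul_ne_zero
    · intro h2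
      have := congrArg re h2
      simp at this
      exact hβ.ne' this
    · have : (κ : ℂ) ≠ 0 := by exact_mod_cast hκ.ne'
      simp [this]
  rw [hA0, mul_zero, zero_sub] at h1
  exact hB0 (by linear_combination h1)

/-- at most 10 roots on the unit circle -/
lemma circle_roots {β γ κ s : ℝ} (hβ : 0 < β) (hγ : 0 < γ) (he : β ^ 2 + γ ^ 2 < 1)
    (hκ : 0 < κ) (hκ1 : κ < 1) (hs : 0 < s) :
    {z : ℂ | ‖z‖ = 1 ∧ (s : ℂ) ^ 2 * nA β γ κ z = nB β γ κ z}.encard ≤ 10 := by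
  classical
  set p := PP β γ κ s with hp
  have hp0 : p ≠ 0 := PP_ne hβ hκ
  obtain ⟨z, hz0, hz1, hz⟩ := exists_root hβ hγ he hκ hκ1 hs
  have hzr : p.IsRoot z := by
    rw [IsRoot.def, hp, PP_eval, hz, sub_self]
  have hzc : (starRingEnd ℂ) z ≠ 0 := by simpa using hz0
  have hz' : p.IsRoot ((starRingEnd ℂ) z)⁻¹ := by
    rw [IsRoot.def, hp, PP_eval]
    obtain ⟨c1, c2⟩ := conj_quot (β := β) (γ := γ) (κ := κ) hz0
    have h1 : ((s : ℂ) ^ 2 * nA β γ κ ((starRingEnd ℂ) z)⁻¹ - nB β γ κ ((starRingEnd ℂ) z)⁻¹)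
        * ((starRingEnd ℂ) z) ^ 12 = 0 := by
      have h2 := congrArg (starRingEnd ℂ) hz
      rw [map_mul, map_pow, conj_ofReal, ← c1, ← c2] at h2
      linear_combination h2
    exact (mul_eq_zero.1 h1).resolve_right (pow_ne_zero 12 hzc)
  have hn : 1 < ‖((starRingEnd ℂ) z)⁻¹‖ := by
    rw [norm_inv, RCLike.norm_conj]
    exact (one_lt_inv₀ (norm_pos_iff.2 hz0)).2 hz1
  have hne : z ≠ ((starRingEnd ℂ) z)⁻¹ := by
    intro h
    rw [← h] at hn
    linarith
  have hroots : {z : ℂ | ‖z‖ = 1 ∧ (s : ℂ) ^ 2 * nA β γ κ z = nB β γ κ z} ⊆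
      ((p.roots.toFinset.erase z).erase ((starRingEnd ℂ) z)⁻¹ : Finset ℂ) := by
    rintro w ⟨hw1, hw2⟩
    rw [Finset.mem_coe, Finset.mem_erase, Finset.mem_erase, Multiset.mem_toFinset, mem_roots hp0]
    refine ⟨?_, ?_, ?_⟩
    · rintro rfl
      linarith
    · rintro rfl
      linarith
    · rw [IsRoot.def, hp, PP_eval, hw2, sub_self]
  refine (Set.encard_le_encard hroots).trans ?_
  rw [Set.encard_coe_eq_coe_finsetCard]
  have hmem1 : z ∈ p.roots.toFinset := by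
    rw [Multiset.mem_toFinset, mem_roots hp0]; exact hzr
  have hmem2 : ((starRingEnd ℂ) z)⁻¹ ∈ p.roots.toFinset.erase z := by
    rw [Finset.mem_erase, Multiset.mem_toFinset, mem_roots hp0]
    exact ⟨hne.symm, hz'⟩
  have hcard := Finset.card_erase_of_mem hmem2
  rw [Finset.card_erase_of_mem hmem1] at hcard
  have hle : p.roots.toFinset.card ≤ 12 :=
    (Multiset.toFinset_card_le _).trans ((card_roots' p).trans (PP_deg β γ κ s))
  have : ((p.roots.toFinset.erase z).erase ((starRingEnd ℂ) z)⁻¹).card ≤ 10 := by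
    rw [hcard]; omega
  exact_mod_cast this

/-- the circle point lies on the curve `s² v² q = u² b²` -/
lemma sol_curve {c β γ R X Y P Q : ℝ}
    (h2 : P ^ 2 + Q ^ 2 = 1) (h3 : Q * X = c * P * Y)
    (h4 : γ * X - β * Y = R * (1 + β * X + γ * Y) * (P * (Y + γ) - c * Q * (X + β))) :
    (γ * X - β * Y) ^ 2 * (X ^ 2 + c ^ 2 * Y ^ 2)
      = R ^ 2 * (1 + β * X + γ * Y) ^ 2 * (γ * X - c ^ 2 * β * Y + (1 - c ^ 2) * X * Y) ^ 2 := by
  have e1 : P ^ 2 * (X ^ 2 + c ^ 2 * Y ^ 2) = X ^ 2 := by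
    linear_combination X ^ 2 * h2 - (Q * X + c * P * Y) * h3
  have e2 : Q ^ 2 * (X ^ 2 + c ^ 2 * Y ^ 2) = c ^ 2 * Y ^ 2 := by
    linear_combination (c ^ 2 * Y ^ 2) * h2 + (Q * X + c * P * Y) * h3
  have e3 : P * Q * (X ^ 2 + c ^ 2 * Y ^ 2) = c * X * Y := by
    linear_combination (c * X * Y) * h2 + (P * X - c * Q * Y) * h3
  have e4 : (P * (Y + γ) - c * Q * (X + β)) ^ 2 * (X ^ 2 + c ^ 2 * Y ^ 2)
      = (γ * X - c ^ 2 * β * Y + (1 - c ^ 2) * X * Y) ^ 2 := by
    linear_combination (Y + γ) ^ 2 * e1 + c ^ 2 * (X + β) ^ 2 * e2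
      - 2 * c * (Y + γ) * (X + β) * e3
  rw [h4]
  linear_combination (R ^ 2 * (1 + β * X + γ * Y) ^ 2) * e4

theorem count_G {c β γ R : ℝ} (hc0 : 0 < c) (hc1 : c < 1) (hβ : 0 < β) (hγ : 0 < γ)
    (he : β ^ 2 + γ ^ 2 < 1) (hR : 0 < R) : (Sol c β γ R).encard ≤ 10 := by
  set κ : ℝ := 1 - c ^ 2 with hκdef
  have hκ : 0 < κ := by rw [hκdef]; nlinarith
  have hκ1 : κ < 1 := by rw [hκdef]; nlinarith
  have hs : 0 < R⁻¹ := inv_pos.2 hR
  refine le_trans ?_ (circle_roots hβ hγ he hκ hκ1 hs)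
  refine Set.encard_le_encard_of_injOn (f := fun t => (t.1 : ℂ) + I * t.2.1) ?_ ?_
  · rintro ⟨X, Y, P, Q⟩ ⟨h1, h2, h3, h4⟩
    simp only at h1 h2 h3 h4 ⊢
    set z : ℂ := X + I * Y with hz
    have hx : x1 z = z * X := x1_circ h1
    have hy : y1 z = z * Y := y1_circ h1
    refine ⟨?_, ?_⟩
    · have : normSq z = 1 := by
        rw [normSq_apply, hz]
        simp
        linarith
      rw [normSq_eq_norm_sq] at this
      exact (pow_eq_one_iff_of_nonneg (norm_nonneg _) two_ne_zero).1 this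
    · have h5 := sol_curve h2 h3 h4
      have h6 : (R⁻¹) ^ 2 * ((γ * X - β * Y) ^ 2 * (X ^ 2 + (1 - κ) * Y ^ 2))
          = (1 + β * X + γ * Y) ^ 2 * (γ * X - (1 - κ) * β * Y + κ * X * Y) ^ 2 := by
        have : 1 - κ = c ^ 2 := by rw [hκdef]; ring
        rw [this, h5, hκdef]
        field_simp
      have h7 : (((R⁻¹) ^ 2 * ((γ * X - β * Y) ^ 2 * (X ^ 2 + (1 - κ) * Y ^ 2)) : ℝ) : ℂ)
          = (((1 + β * X + γ * Y) ^ 2 * (γ * X - (1 - κ) * β * Y + κ * X * Y) ^ 2 : ℝ) : ℂ) := by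
        rw [h6]
      push_cast at h7
      unfold nA nB u1 v1 b1 q1
      rw [hx, hy]
      push_cast
      linear_combination z ^ 6 * h7
  · rintro ⟨X, Y, P, Q⟩ ⟨h1, h2, h3, h4⟩ ⟨X', Y', P', Q'⟩ ⟨h1', h2', h3', h4'⟩ heq
    simp only at h1 h2 h3 h4 h1' h2' h3' h4' heq
    have hXX : X = X' := by
      have := congrArg re heq
      simpa using this
    have hYY : Y = Y' := by
      have := congrArg im heq
      simpa using this
    subst hXX hYY
    have hq : 0 < X ^ 2 + (c * Y) ^ 2 := by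
      have : X ^ 2 + (c * Y) ^ 2 = c ^ 2 + κ * X ^ 2 := by
        rw [hκdef]; linear_combination c ^ 2 * h1
      rw [this]
      positivity
    rcases par_unit hq (by linear_combination h3 : Q * X = c * Y * P)
      (by linear_combination h3' : Q' * X = c * Y * P') h2 h2' with ⟨e1, e2⟩ | ⟨e1, e2⟩
    · rw [e1, e2]
    · exfalso
      have hv : γ * X - β * Y = 0 := by
        rw [e1, e2] at h4'
        linear_combination (1 / 2) * h4 + (1 / 2) * h4'
      have hu := u_pos he h1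
      have hL : P * (Y + γ) - c * Q * (X + β) = 0 := by
        rw [hv] at h4
        rcases mul_eq_zero.1 h4.symm with h | h
        · exfalso
          have : 0 < R * (1 + β * X + γ * Y) := by positivity
          linarith
        · exact h
      -- `X, Y ≠ 0`
      have hX0 : X ≠ 0 := by
        rintro rfl
        have : Y = 0 := by
          have : β * Y = 0 := by linarith
          exact (mul_eq_zero.1 this).resolve_left hβ.ne'
        rw [this] at h1
        norm_num at h1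
      have hY0 : Y ≠ 0 := by
        rintro rfl
        have : γ * X = 0 := by linarith
        exact hX0 ((mul_eq_zero.1 this).resolve_left hγ.ne')
      have hP0 : P ≠ 0 := by
        rintro rfl
        have : Q * X = 0 := by rw [h3]; ring
        have : Q = 0 := (mul_eq_zero.1 this).resolve_right hX0
        rw [this] at h2
        norm_num at h2
      have hb : P * (κ * Y * (X + β)) = 0 := by
        rw [hκdef]
        linear_combination X * hL + (X + β) * c * h3 - P * hv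
      have hXβ : X + β = 0 := by
        rcases mul_eq_zero.1 hb with h | h
        · exact absurd h hP0
        · rcases mul_eq_zero.1 h with h | h
          · exact absurd h (mul_ne_zero hκ.ne' hY0)
          · exact h
      have hYγ : β * (Y + γ) = 0 := by
        linear_combination -hv + γ * hXβ
      have hYγ' : Y + γ = 0 := (mul_eq_zero.1 hYγ).resolve_left hβ.ne'
      have hXe : X = -β := by linarith
      have hYe : Y = -γ := by linarith
      rw [hXe, hYe] at h1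
      nlinarith

end Pool.Agent.H13R2.Kep
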