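import Mathlib
import Pool.Agent.H13R2.Kep.CountG

namespace Pool.Agent.H13R2.Kep

lemma encard_le_of_no_inj {α : Type*} {S : Set α} {n : ℕ}
    (h : ∀ r : Fin (n + 1) → α, Function.Injective r → (∀ i, r i ∈ S) → False) :
    S.encard ≤ n := by
  by_contra hcon
  push Not at hcon
  have h1 : ((n + 1 : ℕ) : ℕ∞) ≤ S.encard := by
    rw [Nat.cast_add, Nat.cast_one]
    exact Order.add_one_le_of_lt hcon
  obtain ⟨t, ht, hcard⟩ := Set.exists_subset_encard_eq h1
  have hfin : t.Finite := Set.finite_of_encard_eq_coe hcard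
  have hc : hfin.toFinset.card = n + 1 := by
    have := hfin.encard_eq_coe_toFinset_card
    rw [hcard] at this
    exact_mod_cast this.symm
  let e := (Finset.equivFinOfCardEq hc).symm
  refine h (fun i => (e i : α)) ?_ ?_
  · intro i j hij
    exact e.injective (Subtype.ext hij)
  · intro i
    exact ht (hfin.mem_toFinset.1 (e i).2)

lemma encard_le_two_of_sq {α : Type*} {S : Set α} (f : α → ℝ) (hinj : Set.InjOn f S) (K : ℝ)
    (hK : ∀ x ∈ S, f x ^ 2 = K) : S.encard ≤ 2 := by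
  have h1 : Set.MapsTo f S {Real.sqrt K, -Real.sqrt K} := by
    intro x hx
    have h2 := hK x hx
    have h3 : Real.sqrt K = |f x| := by rw [← h2, Real.sqrt_sq_eq_abs]
    rw [Set.mem_insert_iff, Set.mem_singleton_iff, h3]
    rcases abs_choice (f x) with h | h
    · left; exact h.symm
    · right; rw [h]; ring
  refine (Set.encard_le_encard_of_injOn h1 hinj).trans ?_
  refine (Set.encard_insert_le _ _).trans ?_
  rw [Set.encard_singleton]
  norm_num

/-- a quartic with four distinct roots factors -/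
lemma quartic_factor {A4 A3 A2 A1 A0 : ℝ} {r : Fin 4 → ℝ} (hr : Function.Injective r)
    (h : ∀ i, A4 * r i ^ 4 + A3 * r i ^ 3 + A2 * r i ^ 2 + A1 * r i + A0 = 0) :
    (∀ x, A4 * x ^ 4 + A3 * x ^ 3 + A2 * x ^ 2 + A1 * x + A0
      = A4 * ((x - r 0) * (x - r 1) * (x - r 2) * (x - r 3))) ∧
    A3 = -A4 * (r 0 + r 1 + r 2 + r 3) := by
  have hne : ∀ i j, i ≠ j → r i ≠ r j := fun i j hij h => hij (hr h)
  have key : ∀ x, A4 * x ^ 4 + A3 * x ^ 3 + A2 * x ^ 2 + A1 * x + A0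
      = A4 * ((x - r 0) * (x - r 1) * (x - r 2) * (x - r 3)) := by
    intro x
    by_cases hx : ∃ i, x = r i
    · obtain ⟨i, rfl⟩ := hx
      rw [h i]
      fin_cases i <;> simp
    · push Not at hx
      set τ : ℝ := (A4 * x ^ 4 + A3 * x ^ 3 + A2 * x ^ 2 + A1 * x + A0)
        / ((x - r 0) * (x - r 1) * (x - r 2) * (x - r 3)) with hτ
      have hpr : (x - r 0) * (x - r 1) * (x - r 2) * (x - r 3) ≠ 0 := by
        refine mul_ne_zero (mul_ne_zero (mul_ne_zero ?_ ?_) ?_) ?_ <;>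
        exact sub_ne_zero.2 (hx _)
      have hxe : A4 * x ^ 4 + A3 * x ^ 3 + A2 * x ^ 2 + A1 * x + A0
          = τ * ((x - r 0) * (x - r 1) * (x - r 2) * (x - r 3)) := by
        rw [hτ, div_mul_cancel₀ _ hpr]
      have h5 := quartic_five_roots (A4 := A4 - τ) (A3 := A3 + τ * (r 0 + r 1 + r 2 + r 3))
        (A2 := A2 - τ * (r 0 * r 1 + r 0 * r 2 + r 0 * r 3 + r 1 * r 2 + r 1 * r 3 + r 2 * r 3))
        (A1 := A1 + τ * (r 0 * r 1 * r 2 + r 0 * r 1 * r 3 + r 0 * r 2 * r 3 + r 1 * r 2 * r 3))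
        (A0 := A0 - τ * (r 0 * r 1 * r 2 * r 3))
        (r := ![r 0, r 1, r 2, r 3, x]) ?_ ?_
      · rw [hxe]
        have : τ = A4 := by linarith
        rw [this]
      · intro i j hij
        fin_cases i <;> fin_cases j <;> first
          | rfl
          | (exfalso; simp at hij; first
              | exact hne _ _ (by decide) hij
              | exact hx _ hij
              | exact hx _ hij.symm)
      · intro i
        fin_cases i
        · simp; linear_combination h 0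
        · simp; linear_combination h 1
        · simp; linear_combination h 2
        · simp; linear_combination h 3
        · simp; linear_combination hxe
  refine ⟨key, ?_⟩
  have k0 := key 0
  have k1 := key 1
  have k2 := key 2
  have k3 := key 3
  linear_combination (k3 - 3 * k2 + 3 * k1 - k0) / 6

lemma PQ_unique {c β γ R X Y P Q P' Q' : ℝ} (hq : 0 < X ^ 2 + (c * Y) ^ 2)
    (h2 : P ^ 2 + Q ^ 2 = 1) (h3 : Q * X = c * P * Y)
    (h4 : γ * X - β * Y = R * (1 + β * X + γ * Y) * (P * (Y + γ) - c * Q * (X + β)))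
    (h2' : P' ^ 2 + Q' ^ 2 = 1) (h3' : Q' * X = c * P' * Y)
    (h4' : γ * X - β * Y = R * (1 + β * X + γ * Y) * (P' * (Y + γ) - c * Q' * (X + β)))
    (hv : γ * X - β * Y ≠ 0) : P = P' ∧ Q = Q' := by
  rcases par_unit hq (by linear_combination h3 : Q * X = c * Y * P)
    (by linear_combination h3' : Q' * X = c * Y * P') h2 h2' with ⟨e1, e2⟩ | ⟨e1, e2⟩
  · exact ⟨e1.symm, e2.symm⟩
  · exfalso
    rw [e1, e2] at h4'
    exact hv (by linear_combination (1 / 2) * h4 + (1 / 2) * h4')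

lemma encard_four {α : Type*} (a b c d : α) : ({a, b, c, d} : Set α).encard ≤ 4 := by
  refine (Set.encard_insert_le _ _).trans ?_
  have h1 : ({b, c, d} : Set α).encard ≤ 3 := by
    refine (Set.encard_insert_le _ _).trans ?_
    have h2 : ({c, d} : Set α).encard ≤ 2 := by
      refine (Set.encard_insert_le _ _).trans ?_
      rw [Set.encard_singleton]
      norm_num
    calc ({c, d} : Set α).encard + 1 ≤ 2 + 1 := by gcongr
      _ = 3 := by norm_num
  calc ({b, c, d} : Set α).encard + 1 ≤ 3 + 1 := by gcongr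
    _ = 4 := by norm_num

lemma encard_cover {α : Type*} {S A B C : Set α} {a b c : ℕ∞} (h : S ⊆ A ∪ (B ∪ C))
    (hA : A.encard ≤ a) (hB : B.encard ≤ b) (hC : C.encard ≤ c) : S.encard ≤ a + (b + c) :=
  (Set.encard_le_encard h).trans ((Set.encard_union_le _ _).trans
    (add_le_add hA ((Set.encard_union_le _ _).trans (add_le_add hB hC))))

theorem count_g0 {c β R : ℝ} (hc0 : 0 < c) (hc1 : c < 1) (hβ : 0 < β) (he : β ^ 2 < 1)
    (hR : 0 < R) : (Sol c β 0 R).encard ≤ 10 := by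
  set κ : ℝ := 1 - c ^ 2 with hκdef
  have hκ : 0 < κ := by rw [hκdef]; nlinarith
  set S : Set ℝ := {x | -1 < x ∧ x < 1 ∧
    R ^ 2 * (1 + β * x) ^ 2 * (κ * x - c ^ 2 * β) ^ 2 - β ^ 2 * (c ^ 2 + κ * x ^ 2) = 0} with hSdef
  have hS : S.encard ≤ 3 := by
    refine encard_le_of_no_inj (n := 3) ?_
    intro r hr hrS
    have hfac := (quartic_factor (A4 := R ^ 2 * (β * κ) ^ 2)
      (A3 := 2 * R ^ 2 * (β * κ) * (κ - c ^ 2 * β ^ 2))
      (A2 := R ^ 2 * ((κ - c ^ 2 * β ^ 2) ^ 2 + 2 * (β * κ) * (-c ^ 2 * β)) - β ^ 2 * κ)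
      (A1 := 2 * R ^ 2 * (κ - c ^ 2 * β ^ 2) * (-c ^ 2 * β))
      (A0 := R ^ 2 * (-c ^ 2 * β) ^ 2 - β ^ 2 * c ^ 2) hr (by
        intro i
        have := (hrS i).2.2
        linear_combination this)).1 (-(1 / β))
    have hβ1 : β < 1 := by nlinarith
    have hβi : 1 < 1 / β := by rw [lt_div_iff₀ hβ]; linarith
    have hlhs : R ^ 2 * (β * κ) ^ 2 * (-(1 / β)) ^ 4
        + 2 * R ^ 2 * (β * κ) * (κ - c ^ 2 * β ^ 2) * (-(1 / β)) ^ 3
        + (R ^ 2 * ((κ - c ^ 2 * β ^ 2) ^ 2 + 2 * (β * κ) * (-c ^ 2 * β)) - β ^ 2 * κ)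
          * (-(1 / β)) ^ 2
        + 2 * R ^ 2 * (κ - c ^ 2 * β ^ 2) * (-c ^ 2 * β) * (-(1 / β))
        + (R ^ 2 * (-c ^ 2 * β) ^ 2 - β ^ 2 * c ^ 2) = -(β ^ 2 * c ^ 2 + κ) := by
      field_simp
      ring
    rw [hlhs] at hfac
    have hneg : ∀ i, -(1 / β) - r i < 0 := by
      intro i
      have := (hrS i).1
      linarith
    have hp : 0 < (-(1 / β) - r 0) * (-(1 / β) - r 1) * (-(1 / β) - r 2) * (-(1 / β) - r 3) := by
      have h1 := mul_pos_of_neg_of_neg (hneg 0) (hneg 1)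
      have h2 := mul_pos_of_neg_of_neg (hneg 2) (hneg 3)
      have := mul_pos h1 h2
      linarith
    have h3 : 0 < R ^ 2 * (β * κ) ^ 2
        * ((-(1 / β) - r 0) * (-(1 / β) - r 1) * (-(1 / β) - r 2) * (-(1 / β) - r 3)) := by
      positivity
    have h4 : 0 < β ^ 2 * c ^ 2 + κ := by positivity
    linarith
  have hmem : ∀ X Y P Q, (X, Y, P, Q) ∈ Sol c β 0 R → Y ≠ 0 → X ∈ S := by
    rintro X Y P Q ⟨h1, h2, h3, h4⟩ hY
    simp only at h1 h2 h3 h4
    have hY2 : 0 < Y ^ 2 := by positivity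
    refine ⟨by nlinarith, by nlinarith, ?_⟩
    have h5 := sol_curve h2 h3 h4
    have h6 : Y ^ 2 * (R ^ 2 * (1 + β * X) ^ 2 * (κ * X - c ^ 2 * β) ^ 2
        - β ^ 2 * (c ^ 2 + κ * X ^ 2)) = 0 := by
      rw [hκdef]
      linear_combination -h5 + (β ^ 2 * Y ^ 2 * c ^ 2) * h1
    exact (mul_eq_zero.1 h6).resolve_left hY2.ne'
  have hinj : ∀ X Y P Q Y' P' Q', (X, Y, P, Q) ∈ Sol c β 0 R → (X, Y', P', Q') ∈ Sol c β 0 R →
      0 < Y * Y' → (X, Y, P, Q) = (X, Y', P', Q') := by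
    rintro X Y P Q Y' P' Q' ⟨h1, h2, h3, h4⟩ ⟨h1', h2', h3', h4'⟩ hYY
    simp only at h1 h2 h3 h4 h1' h2' h3' h4'
    have hY : Y = Y' := by
      have h5 : (Y - Y') * (Y + Y') = 0 := by linear_combination h1 - h1'
      rcases mul_eq_zero.1 h5 with h6 | h6
      · linarith
      · exfalso
        have : Y' = -Y := by linarith
        rw [this] at hYY
        nlinarith [sq_nonneg Y]
    subst hY
    have hY0 : Y ≠ 0 := by rintro rfl; simp at hYY
    have hq : 0 < X ^ 2 + (c * Y) ^ 2 := by positivity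
    obtain ⟨e1, e2⟩ := PQ_unique hq h2 h3 h4 h2' h3' h4' (by
      intro h
      have : β * Y = 0 := by linarith
      exact (mul_ne_zero hβ.ne' hY0) this)
    rw [e1, e2]
  have hB1 : {t ∈ Sol c β 0 R | 0 < t.2.1}.encard ≤ 3 := by
    refine (Set.encard_le_encard_of_injOn (f := fun t => t.1) (t := S) ?_ ?_).trans hS
    · rintro ⟨X, Y, P, Q⟩ ⟨hs, hY⟩
      exact hmem X Y P Q hs (ne_of_gt hY)
    · rintro ⟨X, Y, P, Q⟩ ⟨hs, hY⟩ ⟨X', Y', P', Q'⟩ ⟨hs', hY'⟩ heq
      simp only at heq hY hY'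
      subst heq
      exact hinj _ _ _ _ _ _ _ hs hs' (mul_pos hY hY')
  have hB2 : {t ∈ Sol c β 0 R | t.2.1 < 0}.encard ≤ 3 := by
    refine (Set.encard_le_encard_of_injOn (f := fun t => t.1) (t := S) ?_ ?_).trans hS
    · rintro ⟨X, Y, P, Q⟩ ⟨hs, hY⟩
      exact hmem X Y P Q hs (ne_of_lt hY)
    · rintro ⟨X, Y, P, Q⟩ ⟨hs, hY⟩ ⟨X', Y', P', Q'⟩ ⟨hs', hY'⟩ heq
      simp only at heq hY hY'
      subst heq
      exact hinj _ _ _ _ _ _ _ hs hs' (mul_pos_of_neg_of_neg hY hY')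
  have hcov : Sol c β 0 R ⊆ {((1 : ℝ), (0 : ℝ), (1 : ℝ), (0 : ℝ)), (1, 0, -1, 0), (-1, 0, 1, 0),
      (-1, 0, -1, 0)} ∪ ({t ∈ Sol c β 0 R | 0 < t.2.1} ∪ {t ∈ Sol c β 0 R | t.2.1 < 0}) := by
    rintro ⟨X, Y, P, Q⟩ hs
    rcases lt_trichotomy Y 0 with hY | hY | hY
    · right; right; exact ⟨hs, hY⟩
    · left
      obtain ⟨h1, h2, h3, h4⟩ := hs
      simp only at h1 h2 h3 h4
      subst hY
      have hX0 : X ≠ 0 := by rintro rfl; norm_num at h1
      have hQ : Q = 0 := by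
        have : Q * X = 0 := by rw [h3]; ring
        exact (mul_eq_zero.1 this).resolve_right hX0
      subst hQ
      have hX : (X - 1) * (X + 1) = 0 := by linear_combination h1
      have hP : (P - 1) * (P + 1) = 0 := by linear_combination h2
      simp only [Set.mem_insert_iff, Set.mem_singleton_iff, Prod.mk.injEq]
      rcases mul_eq_zero.1 hX with h5 | h5 <;> rcases mul_eq_zero.1 hP with h6 | h6
      · left; exact ⟨by linarith, trivial, by linarith, trivial⟩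
      · right; left; exact ⟨by linarith, trivial, by linarith, trivial⟩
      · right; right; left; exact ⟨by linarith, trivial, by linarith, trivial⟩
      · right; right; right; exact ⟨by linarith, trivial, by linarith, trivial⟩
    · right; left; exact ⟨hs, hY⟩
  have := encard_cover hcov (encard_four _ _ _ _) hB1 hB2
  refine this.trans ?_
  norm_num

theorem count_b0 {c γ R : ℝ} (hc0 : 0 ≤ c) (hc1 : c < 1) (hγ : 0 < γ) (he : γ ^ 2 < 1)
    (hR : 0 < R) : (Sol c 0 γ R).encard ≤ 10 := by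
  set κ : ℝ := 1 - c ^ 2 with hκdef
  have hκ : 0 < κ := by rw [hκdef]; nlinarith
  have hκ1 : κ ≤ 1 := by rw [hκdef]; nlinarith [sq_nonneg c]
  have hγ1 : γ < 1 := by nlinarith
  set S : Set ℝ := {y | -1 < y ∧ y < 1 ∧
    R ^ 2 * (1 + γ * y) ^ 2 * (γ + κ * y) ^ 2 - γ ^ 2 * (1 - κ * y ^ 2) = 0} with hSdef
  have hS : S.encard ≤ 3 := by
    refine encard_le_of_no_inj (n := 3) ?_
    intro r hr hrS
    have hfac := (quartic_factor (A4 := R ^ 2 * (γ * κ) ^ 2)
      (A3 := 2 * R ^ 2 * (γ * κ) * (κ + γ ^ 2))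
      (A2 := R ^ 2 * ((κ + γ ^ 2) ^ 2 + 2 * (γ * κ) * γ) + γ ^ 2 * κ)
      (A1 := 2 * R ^ 2 * (κ + γ ^ 2) * γ)
      (A0 := R ^ 2 * γ ^ 2 - γ ^ 2) hr (by
        intro i
        have := (hrS i).2.2
        linear_combination this)).2
    have h1 : 2 * (κ + γ ^ 2) = -(γ * κ) * (r 0 + r 1 + r 2 + r 3) := by
      have h2 : (R ^ 2 * (γ * κ)) * (2 * (κ + γ ^ 2))
          = (R ^ 2 * (γ * κ)) * (-(γ * κ) * (r 0 + r 1 + r 2 + r 3)) := by
        linear_combination hfac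
      exact mul_left_cancel₀ (by positivity) h2
    have h2 : 4 * (γ * κ) ≤ 2 * (κ + γ ^ 2) := by
      nlinarith [sq_nonneg (γ - κ), mul_nonneg hκ.le (sub_nonneg.2 hκ1)]
    have h3 : -4 < r 0 + r 1 + r 2 + r 3 := by
      have := (hrS 0).1
      have := (hrS 1).1
      have := (hrS 2).1
      have := (hrS 3).1
      linarith
    have h4 : 0 < γ * κ := by positivity
    nlinarith [mul_lt_mul_of_pos_left h3 h4]
  have hmem : ∀ X Y P Q, (X, Y, P, Q) ∈ Sol c 0 γ R → X ≠ 0 → Y ∈ S := by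
    rintro X Y P Q ⟨h1, h2, h3, h4⟩ hX
    simp only at h1 h2 h3 h4
    have hX2 : 0 < X ^ 2 := by positivity
    refine ⟨by nlinarith, by nlinarith, ?_⟩
    have h5 := sol_curve h2 h3 h4
    have h6 : X ^ 2 * (R ^ 2 * (1 + γ * Y) ^ 2 * (γ + κ * Y) ^ 2
        - γ ^ 2 * (1 - κ * Y ^ 2)) = 0 := by
      rw [hκdef]
      linear_combination -h5 + (γ ^ 2 * X ^ 2) * h1
    exact (mul_eq_zero.1 h6).resolve_left hX2.ne'
  have hinj : ∀ X Y P Q X' P' Q', (X, Y, P, Q) ∈ Sol c 0 γ R → (X', Y, P', Q') ∈ Sol c 0 γ R →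
      0 < X * X' → (X, Y, P, Q) = (X', Y, P', Q') := by
    rintro X Y P Q X' P' Q' ⟨h1, h2, h3, h4⟩ ⟨h1', h2', h3', h4'⟩ hXX
    simp only at h1 h2 h3 h4 h1' h2' h3' h4'
    have hX : X = X' := by
      have h5 : (X - X') * (X + X') = 0 := by linear_combination h1 - h1'
      rcases mul_eq_zero.1 h5 with h6 | h6
      · linarith
      · exfalso
        have : X' = -X := by linarith
        rw [this] at hXX
        nlinarith [sq_nonneg X]
    subst hX
    have hX0 : X ≠ 0 := by rintro rfl; simp at hXX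
    have hq : 0 < X ^ 2 + (c * Y) ^ 2 := by positivity
    obtain ⟨e1, e2⟩ := PQ_unique hq h2 h3 h4 h2' h3' h4' (by
      intro h
      have : γ * X = 0 := by linarith
      exact (mul_ne_zero hγ.ne' hX0) this)
    rw [e1, e2]
  have hB1 : {t ∈ Sol c 0 γ R | 0 < t.1}.encard ≤ 3 := by
    refine (Set.encard_le_encard_of_injOn (f := fun t => t.2.1) (t := S) ?_ ?_).trans hS
    · rintro ⟨X, Y, P, Q⟩ ⟨hs, hX⟩
      exact hmem X Y P Q hs (ne_of_gt hX)
    · rintro ⟨X, Y, P, Q⟩ ⟨hs, hX⟩ ⟨X', Y', P', Q'⟩ ⟨hs', hX'⟩ heq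
      simp only at heq hX hX'
      subst heq
      exact hinj _ _ _ _ _ _ _ hs hs' (mul_pos hX hX')
  have hB2 : {t ∈ Sol c 0 γ R | t.1 < 0}.encard ≤ 3 := by
    refine (Set.encard_le_encard_of_injOn (f := fun t => t.2.1) (t := S) ?_ ?_).trans hS
    · rintro ⟨X, Y, P, Q⟩ ⟨hs, hX⟩
      exact hmem X Y P Q hs (ne_of_lt hX)
    · rintro ⟨X, Y, P, Q⟩ ⟨hs, hX⟩ ⟨X', Y', P', Q'⟩ ⟨hs', hX'⟩ heq
      simp only at heq hX hX'
      subst heq
      exact hinj _ _ _ _ _ _ _ hs hs' (mul_pos_of_neg_of_neg hX hX')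
  have hcov : Sol c 0 γ R ⊆ {((0 : ℝ), (1 : ℝ), (0 : ℝ), (1 : ℝ)), (0, 1, 0, -1), (0, -1, 0, 1),
      (0, -1, 0, -1)} ∪ ({t ∈ Sol c 0 γ R | 0 < t.1} ∪ {t ∈ Sol c 0 γ R | t.1 < 0}) := by
    rintro ⟨X, Y, P, Q⟩ hs
    rcases lt_trichotomy X 0 with hX | hX | hX
    · right; right; exact ⟨hs, hX⟩
    · left
      obtain ⟨h1, h2, h3, h4⟩ := hs
      simp only at h1 h2 h3 h4
      subst hX
      have hY : (Y - 1) * (Y + 1) = 0 := by linear_combination h1
      have hY0 : Y ≠ 0 := by rintro rfl; norm_num at h1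
      have hu := u_pos (β := 0) (γ := γ) (by linarith) h1
      have hP : P = 0 := by
        have hcP : c * P = 0 := by
          have : (c * P) * Y = 0 := by linear_combination -h3
          exact (mul_eq_zero.1 this).resolve_right hY0
        have h5 : (R * (1 + 0 * 0 + γ * Y)) * (P * (Y + γ)) = 0 := by
          linear_combination -h4
        have h6 : P * (Y + γ) = 0 := (mul_eq_zero.1 h5).resolve_left (mul_pos hR hu).ne'
        have h7 : Y + γ ≠ 0 := by
          rcases mul_eq_zero.1 hY with h | h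
          · have : Y = 1 := by linarith
            rw [this]; positivity
          · have : Y = -1 := by linarith
            rw [this]; linarith
        exact (mul_eq_zero.1 h6).resolve_right h7
      subst hP
      have hQ : (Q - 1) * (Q + 1) = 0 := by linear_combination h2
      simp only [Set.mem_insert_iff, Set.mem_singleton_iff, Prod.mk.injEq]
      rcases mul_eq_zero.1 hY with h5 | h5 <;> rcases mul_eq_zero.1 hQ with h6 | h6
      · left; exact ⟨trivial, by linarith, trivial, by linarith⟩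
      · right; left; exact ⟨trivial, by linarith, trivial, by linarith⟩
      · right; right; left; exact ⟨trivial, by linarith, trivial, by linarith⟩
      · right; right; right; exact ⟨trivial, by linarith, trivial, by linarith⟩
    · right; left; exact ⟨hs, hX⟩
  have := encard_cover hcov (encard_four _ _ _ _) hB1 hB2
  refine this.trans ?_
  norm_num

theorem count_c1 {β γ R : ℝ} (he0 : 0 < β ^ 2 + γ ^ 2) (he : β ^ 2 + γ ^ 2 < 1) (hR : 0 < R) :
    (Sol 1 β γ R).encard ≤ 10 := by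
  set E : ℝ := β ^ 2 + γ ^ 2 with hE
  have hpar : ∀ X Y P Q, (X, Y, P, Q) ∈ Sol 1 β γ R → (P = X ∧ Q = Y) ∨ (P = -X ∧ Q = -Y) := by
    rintro X Y P Q ⟨h1, h2, h3, h4⟩
    simp only at h1 h2 h3 h4
    refine par_unit (a := X) (b := Y) (by rw [h1]; norm_num) (by ring) ?_ h1 h2
    linear_combination h3
  have hA1 : {t ∈ Sol 1 β γ R | γ * t.1 - β * t.2.1 = 0 ∧ t.2.2.1 = t.1 ∧ t.2.2.2 = t.2.1}.encard
      ≤ 2 := by
    refine encard_le_two_of_sq (fun t => β * t.1 + γ * t.2.1) ?_ E ?_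
    · rintro ⟨X, Y, P, Q⟩ ⟨hs, hv, hP, hQ⟩ ⟨X', Y', P', Q'⟩ ⟨hs', hv', hP', hQ'⟩ heq
      simp only at hv hP hQ hv' hP' hQ' heq
      have hX : X = X' := by
        have : E * X = E * X' := by
          rw [hE]; linear_combination β * heq + γ * hv - γ * hv'
        exact mul_left_cancel₀ he0.ne' this
      have hY : Y = Y' := by
        have : E * Y = E * Y' := by
          rw [hE]; linear_combination γ * heq - β * hv + β * hv'
        exact mul_left_cancel₀ he0.ne' this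
      rw [hP, hQ, hP', hQ', hX, hY]
    · rintro ⟨X, Y, P, Q⟩ ⟨⟨h1, h2, h3, h4⟩, hv, hP, hQ⟩
      simp only at h1 h2 h3 h4 hv hP hQ ⊢
      rw [hE]
      linear_combination (β ^ 2 + γ ^ 2) * h1 - (γ * X - β * Y) * hv
  have hA2 : {t ∈ Sol 1 β γ R | γ * t.1 - β * t.2.1 = 0 ∧ t.2.2.1 = -t.1 ∧ t.2.2.2 = -t.2.1}.encard
      ≤ 2 := by
    refine encard_le_two_of_sq (fun t => β * t.1 + γ * t.2.1) ?_ E ?_
    · rintro ⟨X, Y, P, Q⟩ ⟨hs, hv, hP, hQ⟩ ⟨X', Y', P', Q'⟩ ⟨hs', hv', hP', hQ'⟩ heq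
      simp only at hv hP hQ hv' hP' hQ' heq
      have hX : X = X' := by
        have : E * X = E * X' := by
          rw [hE]; linear_combination β * heq + γ * hv - γ * hv'
        exact mul_left_cancel₀ he0.ne' this
      have hY : Y = Y' := by
        have : E * Y = E * Y' := by
          rw [hE]; linear_combination γ * heq - β * hv + β * hv'
        exact mul_left_cancel₀ he0.ne' this
      rw [hP, hQ, hP', hQ', hX, hY]
    · rintro ⟨X, Y, P, Q⟩ ⟨⟨h1, h2, h3, h4⟩, hv, hP, hQ⟩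
      simp only at h1 h2 h3 h4 hv hP hQ ⊢
      rw [hE]
      linear_combination (β ^ 2 + γ ^ 2) * h1 - (γ * X - β * Y) * hv
  have hB : {t ∈ Sol 1 β γ R | β * t.1 + γ * t.2.1 = 1 / R - 1 ∧ t.2.2.1 = t.1
      ∧ t.2.2.2 = t.2.1}.encard ≤ 2 := by
    refine encard_le_two_of_sq (fun t => γ * t.1 - β * t.2.1) ?_ (E - (1 / R - 1) ^ 2) ?_
    · rintro ⟨X, Y, P, Q⟩ ⟨hs, hv, hP, hQ⟩ ⟨X', Y', P', Q'⟩ ⟨hs', hv', hP', hQ'⟩ heq
      simp only at hv hP hQ hv' hP' hQ' heq
      have hX : X = X' := by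
        have : E * X = E * X' := by
          rw [hE]; linear_combination γ * heq + β * hv - β * hv'
        exact mul_left_cancel₀ he0.ne' this
      have hY : Y = Y' := by
        have : E * Y = E * Y' := by
          rw [hE]; linear_combination -β * heq + γ * hv - γ * hv'
        exact mul_left_cancel₀ he0.ne' this
      rw [hP, hQ, hP', hQ', hX, hY]
    · rintro ⟨X, Y, P, Q⟩ ⟨⟨h1, h2, h3, h4⟩, hv, hP, hQ⟩
      simp only at h1 h2 h3 h4 hv hP hQ ⊢
      rw [hE, ← hv]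
      linear_combination (β ^ 2 + γ ^ 2) * h1
  have hcov : Sol 1 β γ R ⊆
      {t ∈ Sol 1 β γ R | γ * t.1 - β * t.2.1 = 0 ∧ t.2.2.1 = t.1 ∧ t.2.2.2 = t.2.1} ∪
      ({t ∈ Sol 1 β γ R | γ * t.1 - β * t.2.1 = 0 ∧ t.2.2.1 = -t.1 ∧ t.2.2.2 = -t.2.1} ∪
      {t ∈ Sol 1 β γ R | β * t.1 + γ * t.2.1 = 1 / R - 1 ∧ t.2.2.1 = t.1 ∧ t.2.2.2 = t.2.1}) := by
    rintro ⟨X, Y, P, Q⟩ hs
    obtain ⟨h1, h2, h3, h4⟩ := id hs
    simp only at h1 h2 h3 h4
    have hu := u_pos he h1
    rcases hpar X Y P Q hs with ⟨hP, hQ⟩ | ⟨hP, hQ⟩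
    · subst hP hQ
      have h5 : (γ * P - β * Q) * (1 - R * (1 + β * P + γ * Q)) = 0 := by
        linear_combination h4
      rcases mul_eq_zero.1 h5 with h6 | h6
      · left; exact ⟨hs, h6, rfl, rfl⟩
      · right; right
        refine ⟨hs, ?_, rfl, rfl⟩
        simp only
        field_simp
        linear_combination -h6
    · right; left
      refine ⟨hs, ?_, hP, hQ⟩
      subst hP hQ
      have h5 : (γ * X - β * Y) * (1 + R * (1 + β * X + γ * Y)) = 0 := by
        linear_combination h4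
      refine (mul_eq_zero.1 h5).resolve_right ?_
      have := mul_pos hR hu
      positivity
  have := encard_cover hcov hA1 hA2 hB
  refine this.trans ?_
  norm_num

end Pool.Agent.H13R2.Kep
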