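import Mathlib
import Pool.Agent.H13R2.Kep.CountS

namespace Pool.Agent.H13R2.Kep

open Polynomial Complex

lemma key_ineq {γ E a b : ℝ} (hγ0 : 0 < γ) (hγ1 : γ < 1) (hE : γ ^ 2 ≤ E) (hE1 : E ≤ 1)
    (ha : 0 ≤ a) (hb : 0 ≤ b) (ha1 : a ≤ 1 - γ) (hb1 : b ≤ 1 - γ) :
    0 ≤ E * (a ^ 2 + b ^ 2) * (a + b) - 2 * γ * (1 - E) * (a ^ 2 + a * b + b ^ 2)
      + (1 - γ ^ 2) * (1 - E) * (a + b) := by
  have hD : 0 < 1 - γ ^ 2 := by nlinarith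
  have h1 : 0 ≤ γ * (γ ^ 2 * (a ^ 2 + b ^ 2) * (a + b)
      - 2 * γ * (1 - γ ^ 2) * (a ^ 2 + a * b + b ^ 2) + (1 - γ ^ 2) * (1 - γ ^ 2) * (a + b)) := by
    have h2 : γ * (γ ^ 2 * (a ^ 2 + b ^ 2) * (a + b)
      - 2 * γ * (1 - γ ^ 2) * (a ^ 2 + a * b + b ^ 2) + (1 - γ ^ 2) * (1 - γ ^ 2) * (a + b))
      = γ * (a + b) * ((1 - γ ^ 2) - γ * (a + b)) ^ 2
        + 2 * (γ ^ 2 * (a * b)) * ((1 - γ ^ 2) - γ * (a + b)) := by ring
    rw [h2]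
    have h3 : 0 ≤ (1 - γ ^ 2) - γ * (a + b) := by
      nlinarith [mul_le_mul_of_nonneg_left ha1 hγ0.le, mul_le_mul_of_nonneg_left hb1 hγ0.le,
        sq_nonneg (1 - γ)]
    positivity
  have h2 : 0 ≤ γ ^ 2 * (a ^ 2 + b ^ 2) * (a + b)
      - 2 * γ * (1 - γ ^ 2) * (a ^ 2 + a * b + b ^ 2) + (1 - γ ^ 2) * (1 - γ ^ 2) * (a + b) :=
    nonneg_of_mul_nonneg_right (by linarith) hγ0
  have h3 : 0 ≤ (1 - γ ^ 2) * (E * (a ^ 2 + b ^ 2) * (a + b)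
      - 2 * γ * (1 - E) * (a ^ 2 + a * b + b ^ 2) + (1 - γ ^ 2) * (1 - E) * (a + b)) := by
    have h4 : (1 - γ ^ 2) * (E * (a ^ 2 + b ^ 2) * (a + b)
      - 2 * γ * (1 - E) * (a ^ 2 + a * b + b ^ 2) + (1 - γ ^ 2) * (1 - E) * (a + b))
      = (1 - E) * (γ ^ 2 * (a ^ 2 + b ^ 2) * (a + b)
      - 2 * γ * (1 - γ ^ 2) * (a ^ 2 + a * b + b ^ 2) + (1 - γ ^ 2) * (1 - γ ^ 2) * (a + b))
        + (E - γ ^ 2) * ((a ^ 2 + b ^ 2) * (a + b)) := by ring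
    rw [h4]
    have h5 : 0 ≤ 1 - E := by linarith
    have h6 : 0 ≤ E - γ ^ 2 := by linarith
    have := mul_nonneg h5 h2
    have : 0 ≤ (E - γ ^ 2) * ((a ^ 2 + b ^ 2) * (a + b)) := by positivity
    linarith
  exact nonneg_of_mul_nonneg_right (by linarith) hD

/-- the quartic in `l = Y + γ` -/
def KK (β γ R l : ℝ) : ℝ :=
  R ^ 2 * (β ^ 2 + γ ^ 2) * l ^ 4 + 2 * R ^ 2 * γ * (1 - (β ^ 2 + γ ^ 2)) * l ^ 3
    + ((β ^ 2 + γ ^ 2) + 2 * R * β + R ^ 2 * (1 - γ ^ 2) * (1 - (β ^ 2 + γ ^ 2))) * l ^ 2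
    - 2 * γ * (β ^ 2 + γ ^ 2) * l - γ ^ 2 * (1 - (β ^ 2 + γ ^ 2))

lemma KK_zero {β γ R X Y : ℝ} (h1 : X ^ 2 + Y ^ 2 = 1)
    (h4 : γ * X - β * Y = R * (1 + β * X + γ * Y) * (Y + γ)) : KK β γ R (Y + γ) = 0 := by
  unfold KK
  linear_combination (β * Y + R * (Y + γ) * (1 + γ * Y) + X * (γ - R * β * (Y + γ))) * (-h4)
    - (γ - R * β * (Y + γ)) ^ 2 * (-h1)

lemma KK_pos_unique {β γ R l₁ l₂ : ℝ} (hβ : 0 < β) (hγ : 0 < γ) (he : β ^ 2 + γ ^ 2 < 1)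
    (hR : 0 < R) (h1 : 0 < l₁) (h2 : 0 < l₂) (k1 : KK β γ R l₁ = 0) (k2 : KK β γ R l₂ = 0) :
    l₁ = l₂ := by
  unfold KK at k1 k2
  have he' : 0 < 1 - (β ^ 2 + γ ^ 2) := by linarith
  have h3 : (l₁ - l₂) * (R ^ 2 * (β ^ 2 + γ ^ 2) * (l₁ ^ 2 * l₂ ^ 2 * (l₁ + l₂))
      + 2 * R ^ 2 * γ * (1 - (β ^ 2 + γ ^ 2)) * (l₁ ^ 2 * l₂ ^ 2)
      + 2 * γ * (β ^ 2 + γ ^ 2) * (l₁ * l₂)
      + γ ^ 2 * (1 - (β ^ 2 + γ ^ 2)) * (l₁ + l₂)) = 0 := by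
    linear_combination l₂ ^ 2 * k1 - l₁ ^ 2 * k2
  rcases mul_eq_zero.1 h3 with h4 | h4
  · linarith
  · exfalso
    have : 0 < R ^ 2 * (β ^ 2 + γ ^ 2) * (l₁ ^ 2 * l₂ ^ 2 * (l₁ + l₂))
      + 2 * R ^ 2 * γ * (1 - (β ^ 2 + γ ^ 2)) * (l₁ ^ 2 * l₂ ^ 2)
      + 2 * γ * (β ^ 2 + γ ^ 2) * (l₁ * l₂)
      + γ ^ 2 * (1 - (β ^ 2 + γ ^ 2)) * (l₁ + l₂) := by positivity
    linarith

lemma KK_neg_unique {β γ R a b : ℝ} (hβ : 0 < β) (hγ : 0 < γ) (he : β ^ 2 + γ ^ 2 < 1)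
    (hR : 0 < R) (h1 : 0 < a) (h2 : 0 < b) (ha : a ≤ 1 - γ) (hb : b ≤ 1 - γ)
    (k1 : KK β γ R (-a) = 0) (k2 : KK β γ R (-b) = 0) :
    a = b := by
  unfold KK at k1 k2
  have hγ1 : γ < 1 := by nlinarith
  have hkey := key_ineq (E := β ^ 2 + γ ^ 2) hγ hγ1 (by nlinarith) he.le h1.le h2.le ha hb
  have h3 : (a - b) * (R ^ 2 * ((β ^ 2 + γ ^ 2) * (a ^ 2 + b ^ 2) * (a + b)
      - 2 * γ * (1 - (β ^ 2 + γ ^ 2)) * (a ^ 2 + a * b + b ^ 2)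
      + (1 - γ ^ 2) * (1 - (β ^ 2 + γ ^ 2)) * (a + b))
      + ((β ^ 2 + γ ^ 2) + 2 * R * β) * (a + b) + 2 * γ * (β ^ 2 + γ ^ 2)) = 0 := by
    linear_combination k1 - k2
  rcases mul_eq_zero.1 h3 with h4 | h4
  · linarith
  · exfalso
    have h5 : 0 ≤ R ^ 2 * ((β ^ 2 + γ ^ 2) * (a ^ 2 + b ^ 2) * (a + b)
      - 2 * γ * (1 - (β ^ 2 + γ ^ 2)) * (a ^ 2 + a * b + b ^ 2)
      + (1 - γ ^ 2) * (1 - (β ^ 2 + γ ^ 2)) * (a + b)) := mul_nonneg (sq_nonneg _) hkey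
    have h6 : 0 < ((β ^ 2 + γ ^ 2) + 2 * R * β) * (a + b) := by positivity
    have h7 : 0 < 2 * γ * (β ^ 2 + γ ^ 2) := by positivity
    linarith

lemma X_unique {β γ R X X' Y : ℝ} (hβ : 0 < β) (hγ : 0 < γ) (he : β ^ 2 + γ ^ 2 < 1)
    (hR : 0 < R)
    (h4 : γ * X - β * Y = R * (1 + β * X + γ * Y) * (Y + γ))
    (h4' : γ * X' - β * Y = R * (1 + β * X' + γ * Y) * (Y + γ)) : X = X' := by
  have h5 : (X - X') * (γ - R * β * (Y + γ)) = 0 := by linear_combination h4 - h4'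
  rcases mul_eq_zero.1 h5 with h6 | h6
  · linarith
  · exfalso
    obtain ⟨l, hl⟩ : ∃ l, Y = l - γ := ⟨Y + γ, by ring⟩
    subst hl
    have hγe : γ = R * β * l := by linarith
    have hl0 : 0 < l := by
      have : 0 < R * β * l := by rw [← hγe]; exact hγ
      exact (mul_pos_iff_of_pos_left (by positivity)).1 this
    have h7 : l * (β + R * (1 - (β ^ 2 + γ ^ 2)) + R * γ * l) = 0 := by
      linear_combination (-1) * h4 + (X + β) * h6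
    have h8 : 0 < 1 - (β ^ 2 + γ ^ 2) := by linarith
    have : 0 < l * (β + R * (1 - (β ^ 2 + γ ^ 2)) + R * γ * l) := by positivity
    linarith

lemma two_points {β γ R : ℝ} (hβ : 0 < β) (hγ : 0 ≤ γ) (he : β ^ 2 + γ ^ 2 < 1)
    (hR : 0 < R) : {t : ℝ × ℝ | t.1 ^ 2 + t.2 ^ 2 = 1 ∧
      γ * t.1 - β * t.2 = R * (1 + β * t.1 + γ * t.2) * (t.2 + γ)}.encard ≤ 2 := by
  rcases hγ.lt_or_eq with hγ | hγ
  · have hcov : {t : ℝ × ℝ | t.1 ^ 2 + t.2 ^ 2 = 1 ∧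
      γ * t.1 - β * t.2 = R * (1 + β * t.1 + γ * t.2) * (t.2 + γ)} ⊆
      {t : ℝ × ℝ | (t.1 ^ 2 + t.2 ^ 2 = 1 ∧
        γ * t.1 - β * t.2 = R * (1 + β * t.1 + γ * t.2) * (t.2 + γ)) ∧ 0 < t.2 + γ} ∪
      {t : ℝ × ℝ | (t.1 ^ 2 + t.2 ^ 2 = 1 ∧
        γ * t.1 - β * t.2 = R * (1 + β * t.1 + γ * t.2) * (t.2 + γ)) ∧ t.2 + γ < 0} := by
      rintro ⟨X, Y⟩ hs
      rcases lt_trichotomy (Y + γ) 0 with h | h | h
      · right; exact ⟨hs, h⟩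
      · exfalso
        obtain ⟨h1, h4⟩ := hs
        simp only at h1 h4
        rw [h, mul_zero] at h4
        have hY : Y = -γ := by linarith
        subst hY
        have h5 : γ * (X + β) = 0 := by linear_combination h4
        have h6 := (mul_eq_zero.1 h5).resolve_left hγ.ne'
        have h7 : X = -β := by linarith
        subst h7
        nlinarith
      · left; exact ⟨hs, h⟩
    have hA : {t : ℝ × ℝ | (t.1 ^ 2 + t.2 ^ 2 = 1 ∧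
        γ * t.1 - β * t.2 = R * (1 + β * t.1 + γ * t.2) * (t.2 + γ)) ∧ 0 < t.2 + γ}.encard ≤ 1 := by
      rw [Set.encard_le_one_iff]
      rintro ⟨X, Y⟩ ⟨X', Y'⟩ ⟨⟨h1, h4⟩, h⟩ ⟨⟨h1', h4'⟩, h'⟩
      simp only at h1 h4 h h1' h4' h'
      have h5 := KK_pos_unique hβ hγ he hR h h' (KK_zero h1 h4) (KK_zero h1' h4')
      have hY : Y = Y' := by linarith
      subst hY
      rw [X_unique hβ hγ he hR h4 h4']
    have hB : {t : ℝ × ℝ | (t.1 ^ 2 + t.2 ^ 2 = 1 ∧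
        γ * t.1 - β * t.2 = R * (1 + β * t.1 + γ * t.2) * (t.2 + γ)) ∧ t.2 + γ < 0}.encard ≤ 1 := by
      rw [Set.encard_le_one_iff]
      rintro ⟨X, Y⟩ ⟨X', Y'⟩ ⟨⟨h1, h4⟩, h⟩ ⟨⟨h1', h4'⟩, h'⟩
      simp only at h1 h4 h h1' h4' h'
      have k1 := KK_zero h1 h4
      have k2 := KK_zero h1' h4'
      have e1 : Y + γ = -(-(Y + γ)) := by ring
      have e2 : Y' + γ = -(-(Y' + γ)) := by ring
      rw [e1] at k1
      rw [e2] at k2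
      have h5 := KK_neg_unique hβ hγ he hR (by linarith) (by linarith)
        (by nlinarith [sq_nonneg X, sq_nonneg (Y + 1)])
        (by nlinarith [sq_nonneg X', sq_nonneg (Y' + 1)]) k1 k2
      have hY : Y = Y' := by linarith
      subst hY
      rw [X_unique hβ hγ he hR h4 h4']
    refine (Set.encard_le_encard hcov).trans ((Set.encard_union_le _ _).trans ?_)
    refine (add_le_add hA hB).trans ?_
    norm_num
  · subst hγ
    have hY0 : ∀ X Y : ℝ, X ^ 2 + Y ^ 2 = 1 →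
        0 * X - β * Y = R * (1 + β * X + 0 * Y) * (Y + 0) → Y = 0 := by
      intro X Y h1 h4
      have hu := u_pos he h1
      have h5 : Y * (β + R * (1 + β * X + 0 * Y)) = 0 := by linear_combination -h4
      refine (mul_eq_zero.1 h5).resolve_right ?_
      positivity
    refine encard_le_two_of_sq (fun t => t.1) ?_ 1 ?_
    · rintro ⟨X, Y⟩ ⟨h1, h4⟩ ⟨X', Y'⟩ ⟨h1', h4'⟩ heq
      simp only at h1 h4 h1' h4' heq
      rw [heq, hY0 X Y h1 h4, hY0 X' Y' h1' h4']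
    · rintro ⟨X, Y⟩ ⟨h1, h4⟩
      simp only at h1 h4 ⊢
      rw [hY0 X Y h1 h4] at h1
      linarith

/-- the quartic polynomial for `P = -1` -/
noncomputable def P4 (β γ R : ℝ) : ℂ[X] :=
  X * (C (γ : ℂ) * (C (1 / 2) * (X ^ 2 + 1)) - C (β : ℂ) * (C (-I / 2) * (X ^ 2 - 1)))
  + C (R : ℂ) * (X + C (β : ℂ) * (C (1 / 2) * (X ^ 2 + 1)) + C (γ : ℂ) * (C (-I / 2) * (X ^ 2 - 1)))
    * (C (-I / 2) * (X ^ 2 - 1) + C (γ : ℂ) * X)

lemma P4_eval (β γ R : ℝ) (z : ℂ) :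
    (P4 β γ R).eval z = z * v1 β γ z + R * u1 β γ z * (y1 z + γ * z) := by
  unfold P4 u1 v1 x1 y1
  simp only [eval_sub, eval_add, eval_mul, eval_pow, eval_C, eval_X, eval_one]
  ring

lemma P4_deg (β γ R : ℝ) : (P4 β γ R).natDegree ≤ 4 := by
  unfold P4
  compute_degree

lemma P4_ne {β γ R : ℝ} (hβ : 0 < β) (hR : 0 < R) : P4 β γ R ≠ 0 := by
  intro h
  have h1 := P4_eval β γ R 0
  rw [h, eval_zero] at h1
  have hu0 : u1 β γ 0 = (β + I * γ) / 2 := by unfold u1 x1 y1; ring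
  have hy0 : y1 0 = I / 2 := by unfold y1; ring
  rw [hu0, hy0, zero_mul, zero_add, mul_zero, add_zero] at h1
  have h2 : (R : ℂ) ≠ 0 := by exact_mod_cast hR.ne'
  have h3 : ((β : ℂ) + I * γ) / 2 ≠ 0 := by
    intro h2
    have := congrArg re h2
    simp at this
    exact hβ.ne' this
  have h4 : (I / 2 : ℂ) ≠ 0 := by simp
  exact mul_ne_zero (mul_ne_zero h2 h3) h4 h1.symm

lemma four_points {β γ R : ℝ} (hβ : 0 < β) (hR : 0 < R) :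
    {t : ℝ × ℝ | t.1 ^ 2 + t.2 ^ 2 = 1 ∧
      γ * t.1 - β * t.2 = -(R * (1 + β * t.1 + γ * t.2) * (t.2 + γ))}.encard ≤ 4 := by
  classical
  have h0 := P4_ne (γ := γ) hβ hR
  have h1 : {t : ℝ × ℝ | t.1 ^ 2 + t.2 ^ 2 = 1 ∧
      γ * t.1 - β * t.2 = -(R * (1 + β * t.1 + γ * t.2) * (t.2 + γ))}.encard
      ≤ ((P4 β γ R).roots.toFinset : Set ℂ).encard := by
    refine Set.encard_le_encard_of_injOn (f := fun t => (t.1 : ℂ) + I * t.2) ?_ ?_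
    · rintro ⟨X, Y⟩ ⟨h1, h4⟩
      simp only at h1 h4 ⊢
      rw [Finset.mem_coe, Multiset.mem_toFinset, mem_roots h0, IsRoot.def, P4_eval]
      have h4c : (γ : ℂ) * X - β * Y = -(R * (1 + β * X + γ * Y) * (Y + γ)) := by
        exact_mod_cast h4
      unfold v1 u1
      rw [x1_circ h1, y1_circ h1]
      linear_combination ((X : ℂ) + I * Y) ^ 2 * h4c
    · rintro ⟨X, Y⟩ _ ⟨X', Y'⟩ _ heq
      simp only at heq
      have hXX : X = X' := by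
        have := congrArg re heq
        simpa using this
      have hYY : Y = Y' := by
        have := congrArg im heq
        simpa using this
      rw [hXX, hYY]
  refine h1.trans ?_
  rw [Set.encard_coe_eq_coe_finsetCard]
  have hle : (P4 β γ R).roots.toFinset.card ≤ 4 :=
    (Multiset.toFinset_card_le _).trans ((card_roots' _).trans (P4_deg β γ R))
  exact_mod_cast hle

theorem count_c0 {β γ R : ℝ} (hβ : 0 < β) (hγ : 0 ≤ γ) (he : β ^ 2 + γ ^ 2 < 1)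
    (hR : 0 < R) : (Sol 0 β γ R).encard ≤ 10 := by
  have hγ1 : γ < 1 := by nlinarith
  have hT1 : {t ∈ Sol 0 β γ R | t.1 = 0 ∧ t.2.1 = 1}.encard ≤ 2 := by
    have hP : ∀ t ∈ {t ∈ Sol 0 β γ R | t.1 = 0 ∧ t.2.1 = 1},
        t.2.2.1 = -β / (R * (1 + γ) ^ 2) := by
      rintro ⟨X, Y, P, Q⟩ ⟨⟨h1, h2, h3, h4⟩, hX, hY⟩
      simp only at h1 h2 h3 h4 hX hY ⊢
      subst hX hY
      rw [eq_div_iff (by positivity)]
      linear_combination -h4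
    refine encard_le_two_of_sq (fun t => t.2.2.2) ?_ (1 - (-β / (R * (1 + γ) ^ 2)) ^ 2) ?_
    · rintro ⟨X, Y, P, Q⟩ hs ⟨X', Y', P', Q'⟩ hs' heq
      have e1 := hP _ hs
      have e2 := hP _ hs'
      obtain ⟨_, hX, hY⟩ := hs
      obtain ⟨_, hX', hY'⟩ := hs'
      simp only at e1 e2 hX hY hX' hY' heq
      rw [hX, hY, e1, hX', hY', e2, heq]
    · rintro ⟨X, Y, P, Q⟩ hs
      have e1 := hP _ hs
      obtain ⟨⟨h1, h2, h3, h4⟩, hX, hY⟩ := hs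
      simp only at h2 e1 ⊢
      rw [← e1]
      linear_combination h2
  have hT2 : {t ∈ Sol 0 β γ R | t.1 = 0 ∧ t.2.1 = -1}.encard ≤ 2 := by
    have hP : ∀ t ∈ {t ∈ Sol 0 β γ R | t.1 = 0 ∧ t.2.1 = -1},
        t.2.2.1 = -β / (R * (1 - γ) ^ 2) := by
      rintro ⟨X, Y, P, Q⟩ ⟨⟨h1, h2, h3, h4⟩, hX, hY⟩
      simp only at h1 h2 h3 h4 hX hY ⊢
      subst hX hY
      have : 0 < 1 - γ := by linarith
      rw [eq_div_iff (by positivity)]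
      linear_combination h4
    refine encard_le_two_of_sq (fun t => t.2.2.2) ?_ (1 - (-β / (R * (1 - γ) ^ 2)) ^ 2) ?_
    · rintro ⟨X, Y, P, Q⟩ hs ⟨X', Y', P', Q'⟩ hs' heq
      have e1 := hP _ hs
      have e2 := hP _ hs'
      obtain ⟨_, hX, hY⟩ := hs
      obtain ⟨_, hX', hY'⟩ := hs'
      simp only at e1 e2 hX hY hX' hY' heq
      rw [hX, hY, e1, hX', hY', e2, heq]
    · rintro ⟨X, Y, P, Q⟩ hs
      have e1 := hP _ hs
      obtain ⟨⟨h1, h2, h3, h4⟩, hX, hY⟩ := hs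
      simp only at h2 e1 ⊢
      rw [← e1]
      linear_combination h2
  have hT3 : {t ∈ Sol 0 β γ R | t.2.2.1 = 1 ∧ t.2.2.2 = 0}.encard ≤ 2 := by
    refine (Set.encard_le_encard_of_injOn (f := fun t => (t.1, t.2.1)) ?_ ?_).trans
      (two_points hβ hγ he hR)
    · rintro ⟨X, Y, P, Q⟩ ⟨⟨h1, h2, h3, h4⟩, hP, hQ⟩
      simp only at h1 h2 h3 h4 hP hQ ⊢
      subst hP hQ
      exact ⟨h1, by rw [h4]; ring⟩
    · rintro ⟨X, Y, P, Q⟩ ⟨_, hP, hQ⟩ ⟨X', Y', P', Q'⟩ ⟨_, hP', hQ'⟩ heq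
      simp only [Prod.mk.injEq] at hP hQ hP' hQ' heq
      rw [heq.1, heq.2, hP, hQ, hP', hQ']
  have hT4 : {t ∈ Sol 0 β γ R | t.2.2.1 = -1 ∧ t.2.2.2 = 0}.encard ≤ 4 := by
    refine (Set.encard_le_encard_of_injOn (f := fun t => (t.1, t.2.1)) ?_ ?_).trans
      (four_points (γ := γ) hβ hR)
    · rintro ⟨X, Y, P, Q⟩ ⟨⟨h1, h2, h3, h4⟩, hP, hQ⟩
      simp only at h1 h2 h3 h4 hP hQ ⊢
      subst hP hQ
      exact ⟨h1, by rw [h4]; ring⟩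
    · rintro ⟨X, Y, P, Q⟩ ⟨_, hP, hQ⟩ ⟨X', Y', P', Q'⟩ ⟨_, hP', hQ'⟩ heq
      simp only [Prod.mk.injEq] at hP hQ hP' hQ' heq
      rw [heq.1, heq.2, hP, hQ, hP', hQ']
  have hcov : Sol 0 β γ R ⊆ ({t ∈ Sol 0 β γ R | t.1 = 0 ∧ t.2.1 = 1} ∪
      {t ∈ Sol 0 β γ R | t.1 = 0 ∧ t.2.1 = -1}) ∪
      ({t ∈ Sol 0 β γ R | t.2.2.1 = 1 ∧ t.2.2.2 = 0} ∪
      {t ∈ Sol 0 β γ R | t.2.2.1 = -1 ∧ t.2.2.2 = 0}) := by
    rintro ⟨X, Y, P, Q⟩ hs
    obtain ⟨h1, h2, h3, h4⟩ := id hs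
    simp only at h1 h2 h3 h4
    by_cases hX : X = 0
    · left
      subst hX
      have hY : (Y - 1) * (Y + 1) = 0 := by linear_combination h1
      rcases mul_eq_zero.1 hY with h | h
      · left; exact ⟨hs, rfl, by simp only; linarith⟩
      · right; exact ⟨hs, rfl, by simp only; linarith⟩
    · right
      have hQ : Q = 0 := by
        have : Q * X = 0 := by rw [h3]; ring
        exact (mul_eq_zero.1 this).resolve_right hX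
      subst hQ
      have hP : (P - 1) * (P + 1) = 0 := by linear_combination h2
      rcases mul_eq_zero.1 hP with h | h
      · left; exact ⟨hs, by simp only; linarith, rfl⟩
      · right; exact ⟨hs, by simp only; linarith, rfl⟩
  refine (Set.encard_le_encard hcov).trans ((Set.encard_union_le _ _).trans ?_)
  refine (add_le_add ((Set.encard_union_le _ _).trans (add_le_add hT1 hT2))
    ((Set.encard_union_le _ _).trans (add_le_add hT3 hT4))).trans ?_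
  norm_num

/-- **The algebraic count**: at most ten solutions in all cases -/
theorem count_all {c β γ R : ℝ} (hc0 : 0 ≤ c) (hc1 : c ≤ 1) (hβ : 0 ≤ β) (hγ : 0 ≤ γ)
    (he0 : 0 < β ^ 2 + γ ^ 2) (he : β ^ 2 + γ ^ 2 < 1) (hR : 0 < R) :
    (Sol c β γ R).encard ≤ 10 := by
  rcases hc1.lt_or_eq with hc1 | hc1
  · rcases hβ.lt_or_eq with hβ | hβ
    · rcases hc0.lt_or_eq with hc0 | hc0
      · rcases hγ.lt_or_eq with hγ | hγ
        · exact count_G hc0 hc1 hβ hγ he hR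
        · subst hγ
          exact count_g0 hc0 hc1 hβ (by linarith) hR
      · subst hc0
        exact count_c0 hβ hγ he hR
    · subst hβ
      have hγ' : 0 < γ := by
        rcases hγ.lt_or_eq with h | h
        · exact h
        · rw [← h] at he0; norm_num at he0
      exact count_b0 hc0 hc1 hγ' (by linarith) hR
  · subst hc1
    exact count_c1 he0 he hR

end Pool.Agent.H13R2.Kep
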