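import Mathlib
import Pool.Agent.H13R2.Kep.CountZ

namespace Pool.Agent.H13R2.Kep

open Real

/-- two planes through the origin of `ℝ³` share a unit vector -/
lemma common_unit (P₁ Q₁ P₂ Q₂ : EuclideanSpace ℝ (Fin 3)) (hP₁ : ‖P₁‖ = 1) (hQ₁ : ‖Q₁‖ = 1)
    (h₁ : inner ℝ P₁ Q₁ = (0 : ℝ)) (hP₂ : ‖P₂‖ = 1) (hQ₂ : ‖Q₂‖ = 1)
    (h₂ : inner ℝ P₂ Q₂ = (0 : ℝ)) :
    ∃ x y x' y' : ℝ, x ^ 2 + y ^ 2 = 1 ∧ x' ^ 2 + y' ^ 2 = 1 ∧
      x' • P₁ + y' • Q₁ = x • P₂ + y • Q₂ := by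
  let f : (Fin 4 → ℝ) →ₗ[ℝ] EuclideanSpace ℝ (Fin 3) :=
    { toFun := fun v => v 0 • P₁ + v 1 • Q₁ - (v 2 • P₂ + v 3 • Q₂)
      map_add' := by
        intro v w
        simp only [Pi.add_apply, add_smul]
        abel
      map_smul' := by
        intro c v
        simp only [Pi.smul_apply, smul_eq_mul, mul_smul, RingHom.id_apply, smul_sub, smul_add] }
  have hker : LinearMap.ker f ≠ ⊥ := by
    apply LinearMap.ker_ne_bot_of_finrank_lt
    simp
  obtain ⟨v, hv, hv0⟩ := (Submodule.ne_bot_iff _).1 hker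
  have hfv : v 0 • P₁ + v 1 • Q₁ = v 2 • P₂ + v 3 • Q₂ := by
    have : v 0 • P₁ + v 1 • Q₁ - (v 2 • P₂ + v 3 • Q₂) = 0 := hv
    exact sub_eq_zero.1 this
  have hn : ∀ (P Q : EuclideanSpace ℝ (Fin 3)) (a b : ℝ), ‖P‖ = 1 → ‖Q‖ = 1 →
      inner ℝ P Q = (0 : ℝ) → ‖a • P + b • Q‖ ^ 2 = a ^ 2 + b ^ 2 := by
    intro P Q a b hP hQ hPQ
    rw [norm_add_sq_real, norm_smul, norm_smul, hP, hQ, inner_smul_left, inner_smul_right, hPQ]
    simp
  have e1 := hn P₁ Q₁ (v 0) (v 1) hP₁ hQ₁ h₁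
  have e2 := hn P₂ Q₂ (v 2) (v 3) hP₂ hQ₂ h₂
  rw [hfv] at e1
  have e3 : v 0 ^ 2 + v 1 ^ 2 = v 2 ^ 2 + v 3 ^ 2 := by rw [← e1, ← e2]
  have hpos : 0 < v 0 ^ 2 + v 1 ^ 2 := by
    by_contra hcon
    push Not at hcon
    apply hv0
    have z0 : v 0 = 0 := by nlinarith [sq_nonneg (v 0), sq_nonneg (v 1)]
    have z1 : v 1 = 0 := by nlinarith [sq_nonneg (v 0), sq_nonneg (v 1)]
    have z2 : v 2 = 0 := by nlinarith [sq_nonneg (v 2), sq_nonneg (v 3)]
    have z3 : v 3 = 0 := by nlinarith [sq_nonneg (v 2), sq_nonneg (v 3)]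
    funext i
    fin_cases i
    · exact z0
    · exact z1
    · exact z2
    · exact z3
  set L : ℝ := √(v 0 ^ 2 + v 1 ^ 2) with hL
  have hL0 : 0 < L := Real.sqrt_pos.2 hpos
  have hL2 : L ^ 2 = v 0 ^ 2 + v 1 ^ 2 := Real.sq_sqrt hpos.le
  refine ⟨v 2 / L, v 3 / L, v 0 / L, v 1 / L, ?_, ?_, ?_⟩
  · field_simp
    linarith
  · field_simp
    linarith
  · have : ∀ (a : ℝ) (P : EuclideanSpace ℝ (Fin 3)), (a / L) • P = L⁻¹ • (a • P) := by
      intro a P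
      rw [smul_smul, div_eq_inv_mul]
    rw [this, this, this, this, ← smul_add, ← smul_add, hfv]

lemma inner_comb {N M M' : EuclideanSpace ℝ (Fin 3)} {c : ℝ} (hN : inner ℝ N N = (1 : ℝ))
    (hM : inner ℝ M M = (1 : ℝ)) (hM' : inner ℝ M' M' = (1 : ℝ)) (hNM : inner ℝ N M = (0 : ℝ))
    (hNM' : inner ℝ N M' = (0 : ℝ)) (hMM' : inner ℝ M M' = c) (a₁ a₂ a₃ b₁ b₂ b₃ : ℝ) :
    inner ℝ (a₁ • N + a₂ • M + a₃ • M') (b₁ • N + b₂ • M + b₃ • M')
      = a₁ * b₁ + a₂ * b₂ + a₃ * b₃ + c * (a₂ * b₃ + a₃ * b₂) := by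
  have h1 : inner ℝ M N = (0 : ℝ) := by rw [real_inner_comm]; exact hNM
  have h2 : inner ℝ M' N = (0 : ℝ) := by rw [real_inner_comm]; exact hNM'
  have h3 : inner ℝ M' M = c := by rw [real_inner_comm]; exact hMM'
  simp only [inner_add_left, inner_add_right, real_inner_smul_left, real_inner_smul_right,
    hN, hM, hM', hNM, hNM', hMM', h1, h2, h3]
  ring

theorem core (O P₁ Q₁ P₂ Q₂ : EuclideanSpace ℝ (Fin 3)) (hP₁ : ‖P₁‖ = 1) (hQ₁ : ‖Q₁‖ = 1)
    (h₁ : inner ℝ P₁ Q₁ = (0 : ℝ)) (hP₂ : ‖P₂‖ = 1) (hQ₂ : ‖Q₂‖ = 1)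
    (h₂ : inner ℝ P₂ Q₂ = (0 : ℝ)) {r a b e τ : ℝ} (hr : 0 < r) (ha : 0 < a) (hb : 0 < b)
    (he0 : 0 < e) (he1 : e < 1) (hab : b ^ 2 = a ^ 2 * (1 - e ^ 2)) (hτ : τ ^ 2 = 1) :
    ∃ c β γ R : ℝ, (0 ≤ c ∧ c ≤ 1 ∧ 0 ≤ β ∧ 0 ≤ γ ∧ 0 < β ^ 2 + γ ^ 2 ∧ β ^ 2 + γ ^ 2 < 1 ∧ 0 < R) ∧
      ∃ G : ℝ × ℝ × ℝ × ℝ → EuclideanSpace ℝ (Fin 3) × EuclideanSpace ℝ (Fin 3), ∀ s t : ℝ,
        inner ℝ ((O + (r * cos s) • P₁ + (r * sin s) • Q₁)
            - (O + (a * (cos t - τ * e)) • P₂ + (b * sin t) • Q₂))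
          ((-(r * sin s)) • P₁ + (r * cos s) • Q₁) = (0 : ℝ) →
        inner ℝ ((O + (r * cos s) • P₁ + (r * sin s) • Q₁)
            - (O + (a * (cos t - τ * e)) • P₂ + (b * sin t) • Q₂))
          ((-(a * sin t)) • P₂ + (b * cos t) • Q₂) = (0 : ℝ) →
        ∃ w ∈ Sol c β γ R, (O + (r * cos s) • P₁ + (r * sin s) • Q₁,
          O + (a * (cos t - τ * e)) • P₂ + (b * sin t) • Q₂) = G w := by
  -- the common unit vector, with sign
  obtain ⟨x, y, x', y', hxy, hxy', hN, hτx⟩ : ∃ x y x' y' : ℝ, x ^ 2 + y ^ 2 = 1 ∧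
      x' ^ 2 + y' ^ 2 = 1 ∧ x' • P₁ + y' • Q₁ = x • P₂ + y • Q₂ ∧ 0 ≤ τ * x := by
    obtain ⟨x, y, x', y', h3, h4, h5⟩ := common_unit P₁ Q₁ P₂ Q₂ hP₁ hQ₁ h₁ hP₂ hQ₂ h₂
    rcases le_total 0 (τ * x) with h6 | h6
    · exact ⟨x, y, x', y', h3, h4, h5, h6⟩
    · refine ⟨-x, -y, -x', -y', by linarith [neg_sq x, neg_sq y], by linarith [neg_sq x', neg_sq y'],
        ?_, by linarith⟩
      rw [neg_smul, neg_smul, neg_smul, neg_smul, ← neg_add, ← neg_add, h5]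
  obtain ⟨σ, hσ, hτy⟩ : ∃ σ : ℝ, σ ^ 2 = 1 ∧ 0 ≤ -(τ * σ * y) := by
    rcases le_total 0 (τ * y) with h6 | h6
    · exact ⟨-1, by norm_num, by linarith⟩
    · exact ⟨1, by norm_num, by linarith⟩
  set N : EuclideanSpace ℝ (Fin 3) := x • P₂ + y • Q₂ with hNdef
  set M : EuclideanSpace ℝ (Fin 3) := (-(σ * y)) • P₂ + (σ * x) • Q₂ with hMdef
  obtain ⟨σ', hσ', hc⟩ : ∃ σ' : ℝ, σ' ^ 2 = 1 ∧
      0 ≤ inner ℝ M ((-(σ' * y')) • P₁ + (σ' * x') • Q₁) := by
    rcases le_total 0 (inner ℝ M ((-y') • P₁ + x' • Q₁)) with h6 | h6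
    · exact ⟨1, by norm_num, by simpa using h6⟩
    · refine ⟨-1, by norm_num, ?_⟩
      have : (-(-1 * y')) • P₁ + (-1 * x') • Q₁ = -((-y') • P₁ + x' • Q₁) := by
        rw [neg_add, ← neg_smul, ← neg_smul]
        congr 2 <;> ring
      rw [this, inner_neg_right]
      linarith
  set M' : EuclideanSpace ℝ (Fin 3) := (-(σ' * y')) • P₁ + (σ' * x') • Q₁ with hM'def
  have i1 : inner ℝ P₁ P₁ = (1 : ℝ) := by rw [real_inner_self_eq_norm_sq, hP₁]; norm_num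
  have i2 : inner ℝ Q₁ Q₁ = (1 : ℝ) := by rw [real_inner_self_eq_norm_sq, hQ₁]; norm_num
  have i3 : inner ℝ P₂ P₂ = (1 : ℝ) := by rw [real_inner_self_eq_norm_sq, hP₂]; norm_num
  have i4 : inner ℝ Q₂ Q₂ = (1 : ℝ) := by rw [real_inner_self_eq_norm_sq, hQ₂]; norm_num
  have h₁' : inner ℝ Q₁ P₁ = (0 : ℝ) := by rw [real_inner_comm]; exact h₁
  have h₂' : inner ℝ Q₂ P₂ = (0 : ℝ) := by rw [real_inner_comm]; exact h₂
  have jN : inner ℝ N N = (1 : ℝ) := by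
    simp only [hNdef, inner_add_left, inner_add_right, real_inner_smul_left, real_inner_smul_right,
      i3, i4, h₂, h₂']
    linear_combination hxy
  have jM : inner ℝ M M = (1 : ℝ) := by
    simp only [hMdef, inner_add_left, inner_add_right, real_inner_smul_left, real_inner_smul_right,
      i3, i4, h₂, h₂']
    linear_combination σ ^ 2 * hxy + hσ
  have jM' : inner ℝ M' M' = (1 : ℝ) := by
    simp only [hM'def, inner_add_left, inner_add_right, real_inner_smul_left, real_inner_smul_right,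
      i1, i2, h₁, h₁']
    linear_combination σ' ^ 2 * hxy' + hσ'
  have jNM : inner ℝ N M = (0 : ℝ) := by
    simp only [hNdef, hMdef, inner_add_left, inner_add_right, real_inner_smul_left,
      real_inner_smul_right, i3, i4, h₂, h₂']
    ring
  have jNM' : inner ℝ N M' = (0 : ℝ) := by
    rw [← hN]
    simp only [hM'def, inner_add_left, inner_add_right, real_inner_smul_left,
      real_inner_smul_right, i1, i2, h₁, h₁']
    ring
  obtain ⟨c, hcdef⟩ : ∃ c, inner ℝ M M' = c := ⟨_, rfl⟩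
  rw [hcdef] at hc
  have hc1 : c ≤ 1 := by
    rw [← hcdef]
    have h3 := real_inner_le_norm M M'
    have h4 : ‖M‖ = 1 := by
      have := real_inner_self_eq_norm_sq M
      rw [jM] at this
      exact (pow_eq_one_iff_of_nonneg (norm_nonneg _) two_ne_zero).1 this.symm
    have h5 : ‖M'‖ = 1 := by
      have := real_inner_self_eq_norm_sq M'
      rw [jM'] at this
      exact (pow_eq_one_iff_of_nonneg (norm_nonneg _) two_ne_zero).1 this.symm
    rw [h4, h5] at h3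
    linarith
  -- the old vectors in the new frame
  have kP₂ : P₂ = x • N + (-(σ * y)) • M := by
    rw [hNdef, hMdef, smul_add, smul_add, smul_smul, smul_smul, smul_smul, smul_smul]
    have e1 : x • x • P₂ = (x * x) • P₂ := smul_smul _ _ _
    have : (x * x) • P₂ + (x * y) • Q₂ + ((-(σ * y) * -(σ * y)) • P₂ + (-(σ * y) * (σ * x)) • Q₂)
        = (x * x + -(σ * y) * -(σ * y)) • P₂ + (x * y + -(σ * y) * (σ * x)) • Q₂ := by
      rw [add_smul, add_smul]; abel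
    rw [this]
    have e2 : x * x + -(σ * y) * -(σ * y) = 1 := by linear_combination hxy + y ^ 2 * hσ
    have e3 : x * y + -(σ * y) * (σ * x) = 0 := by linear_combination (-(x * y)) * hσ
    rw [e2, e3, one_smul, zero_smul, add_zero]
  have kQ₂ : Q₂ = y • N + (σ * x) • M := by
    rw [hNdef, hMdef, smul_add, smul_add, smul_smul, smul_smul, smul_smul, smul_smul]
    have : (y * x) • P₂ + (y * y) • Q₂ + ((σ * x * -(σ * y)) • P₂ + (σ * x * (σ * x)) • Q₂)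
        = (y * x + σ * x * -(σ * y)) • P₂ + (y * y + σ * x * (σ * x)) • Q₂ := by
      rw [add_smul, add_smul]; abel
    rw [this]
    have e2 : y * x + σ * x * -(σ * y) = 0 := by linear_combination (-(x * y)) * hσ
    have e3 : y * y + σ * x * (σ * x) = 1 := by linear_combination hxy + x ^ 2 * hσ
    rw [e2, e3, one_smul, zero_smul, zero_add]
  have kP₁ : P₁ = x' • N + (-(σ' * y')) • M' := by
    rw [← hN, hM'def, smul_add, smul_add, smul_smul, smul_smul, smul_smul, smul_smul]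
    have : (x' * x') • P₁ + (x' * y') • Q₁
          + ((-(σ' * y') * -(σ' * y')) • P₁ + (-(σ' * y') * (σ' * x')) • Q₁)
        = (x' * x' + -(σ' * y') * -(σ' * y')) • P₁ + (x' * y' + -(σ' * y') * (σ' * x')) • Q₁ := by
      rw [add_smul, add_smul]; abel
    rw [this]
    have e2 : x' * x' + -(σ' * y') * -(σ' * y') = 1 := by linear_combination hxy' + y' ^ 2 * hσ'
    have e3 : x' * y' + -(σ' * y') * (σ' * x') = 0 := by linear_combination (-(x' * y')) * hσ'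
    rw [e2, e3, one_smul, zero_smul, add_zero]
  have kQ₁ : Q₁ = y' • N + (σ' * x') • M' := by
    rw [← hN, hM'def, smul_add, smul_add, smul_smul, smul_smul, smul_smul, smul_smul]
    have : (y' * x') • P₁ + (y' * y') • Q₁
          + ((σ' * x' * -(σ' * y')) • P₁ + (σ' * x' * (σ' * x')) • Q₁)
        = (y' * x' + σ' * x' * -(σ' * y')) • P₁ + (y' * y' + σ' * x' * (σ' * x')) • Q₁ := by
      rw [add_smul, add_smul]; abel
    rw [this]
    have e2 : y' * x' + σ' * x' * -(σ' * y') = 0 := by linear_combination (-(x' * y')) * hσ'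
    have e3 : y' * y' + σ' * x' * (σ' * x') = 1 := by linear_combination hxy' + x' ^ 2 * hσ'
    rw [e2, e3, one_smul, zero_smul, zero_add]
  -- parameters
  set p : ℝ := a * (1 - e ^ 2) with hp
  have he2 : 0 < 1 - e ^ 2 := by nlinarith
  have hp0 : 0 < p := by positivity
  refine ⟨c, e * (τ * x), e * -(τ * σ * y), r / p, ⟨hc, hc1, by positivity, by positivity, ?_, ?_,
    by positivity⟩, ?_⟩
  · have : (e * (τ * x)) ^ 2 + (e * -(τ * σ * y)) ^ 2 = e ^ 2 := by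
      linear_combination e ^ 2 * (x ^ 2 + y ^ 2 * σ ^ 2) * hτ + e ^ 2 * y ^ 2 * hσ + e ^ 2 * hxy
    rw [this]; positivity
  · have : (e * (τ * x)) ^ 2 + (e * -(τ * σ * y)) ^ 2 = e ^ 2 := by
      linear_combination e ^ 2 * (x ^ 2 + y ^ 2 * σ ^ 2) * hτ + e ^ 2 * y ^ 2 * hσ + e ^ 2 * hxy
    rw [this]; nlinarith
  set β : ℝ := e * (τ * x) with hβ
  set γ : ℝ := e * -(τ * σ * y) with hγ
  refine ⟨fun w => (O + ((r * w.2.2.1) • N + (r * w.2.2.2) • M'),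
    O + ((p / (1 + β * w.1 + γ * w.2.1) * w.1) • N
      + (p / (1 + β * w.1 + γ * w.2.1) * w.2.1) • M)), ?_⟩
  intro s t hs ht
  -- polar coordinates
  set ρ : ℝ := a * (1 - e * (τ * cos t)) with hρ
  have hτc : e * (τ * cos t) < 1 := by
    have h1 : (τ * cos t) ^ 2 ≤ 1 := by
      rw [mul_pow, hτ, one_mul]
      nlinarith [sin_sq_add_cos_sq t, sq_nonneg (sin t)]
    have h2 : τ * cos t ≤ 1 := by nlinarith
    nlinarith
  have hρ0 : 0 < ρ := by
    have : 0 < 1 - e * (τ * cos t) := by linarith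
    positivity
  obtain ⟨X, hX⟩ : ∃ X, ρ * X = x * (a * (cos t - τ * e)) + y * (b * sin t) :=
    ⟨(x * (a * (cos t - τ * e)) + y * (b * sin t)) / ρ, by field_simp⟩
  obtain ⟨Y, hY⟩ : ∃ Y, ρ * Y = σ * (-(y * (a * (cos t - τ * e))) + x * (b * sin t)) :=
    ⟨σ * (-(y * (a * (cos t - τ * e))) + x * (b * sin t)) / ρ, by field_simp⟩
  have hsc := sin_sq_add_cos_sq t
  have hXY : X ^ 2 + Y ^ 2 = 1 := by
    have h1 : ρ ^ 2 * (X ^ 2 + Y ^ 2) = ρ ^ 2 * 1 := by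
      have h2 : (ρ * X) ^ 2 + (ρ * Y) ^ 2 = (a * (cos t - τ * e)) ^ 2 + (b * sin t) ^ 2 := by
        rw [hX, hY]
        linear_combination ((-(y * (a * (cos t - τ * e))) + x * (b * sin t)) ^ 2) * hσ
          + ((a * (cos t - τ * e)) ^ 2 + (b * sin t) ^ 2) * hxy
      have h3 : (a * (cos t - τ * e)) ^ 2 + (b * sin t) ^ 2 = ρ ^ 2 := by
        rw [hρ]
        linear_combination (sin t) ^ 2 * hab + (a ^ 2 * (1 - e ^ 2)) * hsc
          + (a ^ 2 * e ^ 2 - a ^ 2 * e ^ 2 * (cos t) ^ 2) * hτ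
      linear_combination h2 + h3
    exact mul_left_cancel₀ (by positivity) h1
  have hu : ρ * (1 + β * X + γ * Y) = p := by
    have h1 : ρ * (1 + β * X + γ * Y) = ρ + β * (ρ * X) + γ * (ρ * Y) := by ring
    rw [h1, hX, hY, hβ, hγ, hρ, hp]
    linear_combination (-(a * e ^ 2)) * hτ
      + (e * τ * y * (a * (cos t - τ * e)) * y - e * τ * y * x * (b * sin t)) * hσ
      + (e * τ * (a * (cos t - τ * e))) * hxy
  have hu0 : 0 < 1 + β * X + γ * Y := by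
    have : 0 < ρ * (1 + β * X + γ * Y) := by rw [hu]; exact hp0
    exact (mul_pos_iff_of_pos_left hρ0).1 this
  have hpu : p / (1 + β * X + γ * Y) = ρ := by
    rw [← hu]; field_simp
  obtain ⟨P, hP⟩ : ∃ P, P = x' * cos s + y' * sin s := ⟨_, rfl⟩
  obtain ⟨Q, hQ⟩ : ∃ Q, Q = σ' * (x' * sin s - y' * cos s) := ⟨_, rfl⟩
  have hPQ : P ^ 2 + Q ^ 2 = 1 := by
    rw [hP, hQ]
    linear_combination (x' * sin s - y' * cos s) ^ 2 * hσ' + hxy'
      + (x' ^ 2 + y' ^ 2) * sin_sq_add_cos_sq s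
  have hσQ : σ' * Q = x' * sin s - y' * cos s := by
    rw [hQ]; linear_combination (x' * sin s - y' * cos s) * hσ'
  have hv0 : O + (r * cos s) • P₁ + (r * sin s) • Q₁ = O + ((r * P) • N + (r * Q) • M') := by
    rw [hP, hQ, kP₁, kQ₁]
    module
  have hv0' : O + (a * (cos t - τ * e)) • P₂ + (b * sin t) • Q₂
      = O + ((ρ * X) • N + (ρ * Y) • M) := by
    rw [hX, hY, kP₂, kQ₂]
    module
  have hv1 : O + (r * cos s) • P₁ + (r * sin s) • Q₁
      - (O + (a * (cos t - τ * e)) • P₂ + (b * sin t) • Q₂)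
      = (r * P - ρ * X) • N + (-(ρ * Y)) • M + (r * Q) • M' := by
    rw [hv0, hv0']
    module
  have hv2 : (-(r * sin s)) • P₁ + (r * cos s) • Q₁
      = (-(r * (σ' * Q))) • N + (0 : ℝ) • M + (r * (σ' * P)) • M' := by
    rw [hσQ, hP, kP₁, kQ₁]
    module
  obtain ⟨k, hk⟩ : ∃ k, b * k = σ * a * ρ := ⟨σ * a * ρ / b, by field_simp⟩
  have hk0 : k ≠ 0 := by
    rintro rfl
    have h1 : σ * (a * ρ) = 0 := by linarith
    have h2 : σ ≠ 0 := by rintro rfl; norm_num at hσ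
    exact (mul_ne_zero h2 (mul_pos ha hρ0).ne') h1
  have hk1 : k * (Y + γ) = a * sin t * x - b * cos t * y := by
    have h1 : b * (k * (Y + γ)) = b * (a * sin t * x - b * cos t * y) := by
      have h2 : b * (k * (Y + γ)) = σ * a * (ρ * Y + ρ * γ) := by linear_combination (Y + γ) * hk
      rw [h2, hY, hγ, hρ]
      linear_combination (a * (-(y * (a * (cos t - τ * e))) + x * (b * sin t))
        - a * a * (1 - e * (τ * cos t)) * e * τ * y) * hσ + (y * cos t) * hab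
        + (a ^ 2 * e ^ 2 * cos t * y) * hτ
    exact mul_left_cancel₀ hb.ne' h1
  have hk2 : k * (X + β) = σ * (y * (a * sin t) + x * (b * cos t)) := by
    have h1 : b * (k * (X + β)) = b * (σ * (y * (a * sin t) + x * (b * cos t))) := by
      have h2 : b * (k * (X + β)) = σ * a * (ρ * X + ρ * β) := by linear_combination (X + β) * hk
      rw [h2, hX, hβ, hρ]
      linear_combination (-(σ * x * cos t)) * hab - (a ^ 2 * e ^ 2 * cos t * x * σ) * hτ
    exact mul_left_cancel₀ hb.ne' h1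
  have hv3 : (-(a * sin t)) • P₂ + (b * cos t) • Q₂
      = (-(k * (Y + γ))) • N + (k * (X + β)) • M + (0 : ℝ) • M' := by
    rw [hk1, hk2, kP₂, kQ₂]
    module
  rw [hv1, hv2, inner_comb jN jM jM' jNM jNM' hcdef] at hs
  rw [hv1, hv3, inner_comb jN jM jM' jNM jNM' hcdef] at ht
  refine ⟨(X, Y, P, Q), ⟨hXY, hPQ, ?_, ?_⟩, ?_⟩
  · simp only
    have h1 : (r * σ' * ρ) * (Q * X - c * P * Y) = 0 := by linear_combination hs
    have h2 : σ' ≠ 0 := by rintro rfl; norm_num at hσ'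
    have h3 := (mul_eq_zero.1 h1).resolve_left (mul_ne_zero (mul_ne_zero hr.ne' h2) hρ0.ne')
    linarith
  · simp only
    have h1 : k * (ρ * (γ * X - β * Y) - r * (P * (Y + γ) - c * Q * (X + β))) = 0 := by
      linear_combination ht
    have h2 := (mul_eq_zero.1 h1).resolve_left hk0
    have h3 : ρ * (γ * X - β * Y)
        = ρ * (r / p * (1 + β * X + γ * Y) * (P * (Y + γ) - c * Q * (X + β))) := by
      have h4 : ρ * (r / p * (1 + β * X + γ * Y) * (P * (Y + γ) - c * Q * (X + β)))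
          = r / p * (ρ * (1 + β * X + γ * Y)) * (P * (Y + γ) - c * Q * (X + β)) := by ring
      rw [h4, hu, div_mul_cancel₀ _ hp0.ne']
      linarith
    exact mul_left_cancel₀ hρ0.ne' h3
  · simp only
    rw [hpu, hv0, hv0']

end Pool.Agent.H13R2.Kep
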